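import Pool.Agent.Q50.MTC.Defs
import Pool.Agent.Y133.Half.PwDefs

/-!
# The field of periods and the Mumford-Tate algebra: definitions

In the intended use `k` is the field of algebraic numbers, the varieties are the smooth projective
ones over `k`, `W` is the rational cohomology of the complex varieties, `D` is algebraic de Rham
cohomology over `k` (so `D.K = k`), and `C` is the comparison isomorphism of Grothendieck, with
coefficients in the complex numbers (the number `C.c` is `2 π i` or its inverse, since the Tate
twists are suppressed).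
-/

open CategoryTheory AlgebraicGeometry

universe u

namespace Pool.Agent.Q50.DR

open Pool.Agent.H914 Pool.Agent.H914.VarClass Pool.Agent.H914.VarClass.Obj
  Pool.Agent.H914.WeilCohomology
open Pool.Agent.Y121.AHS (Ext extMap extForm Comparison emL)
open Pool.Agent.Y133.Half (pw)
open Pool.Agent.Q50.MTC (HodgeDecomposition IsHodge)

section Alg

variable {K A B C : Type} [Field K] [Ring A] [Algebra K A] [Ring B] [Algebra K B] [Ring C]
  [Algebra K C]

/-- The product of the images of `b` and `a`. -/
def mulOf (f : B →ₐ[K] C) (g : A →ₐ[K] C) (b : B) (a : A) : C := f b * g a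

/-- The endomorphism `Z`, acting as a derivation, multiplies by `r` the multilinear form
`a ↦ tr (c * m a)`. -/
def Multiplies {n : ℕ} (m : (Fin n → A) → B) (tr : B →ₗ[K] K) (Z : A →ₗ[K] A) (c : B) (r : K) :
    Prop :=
  ∀ a, ∑ i, tr (c * m (Function.update a i (Z (a i)))) = r * tr (c * m a)

/-- The dimension of the span of the endomorphisms with the property `p`. -/
noncomputable def dimEnd (p : (A →ₗ[K] A) → Prop) : ℕ :=
  Module.finrank K (Submodule.span K {Z | p Z})

variable [Algebra K ℂ]

/-- The endomorphism `P` preserves the degrees and the Hodge decomposition. -/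
def RespHodge (gr : ℕ → Submodule K A) (h : Ext K ℂ A → Ext K ℂ A) (P : A →ₗ[K] A) : Prop :=
  (∀ i, ∀ a ∈ gr i, P a ∈ gr i) ∧ ∀ x, h (extMap K ℂ P x) = extMap K ℂ P (h x)

/-- The endomorphism `Z` is an element of the centre of the algebra of the endomorphisms which
preserve the degrees and the Hodge decomposition. -/
def IsCentral (gr : ℕ → Submodule K A) (h : Ext K ℂ A → Ext K ℂ A) (Z : A →ₗ[K] A) : Prop :=
  RespHodge gr h Z ∧ ∀ P, RespHodge gr h P → ∀ a, Z (P a) = P (Z a)

/-- The set of the values of the linear forms at the elements `x` with the property `p`. -/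
def values (K : Type) {A : Type} [Field K] [Ring A] [Algebra K A] [Algebra K ℂ]
    (p : Ext K ℂ A → Prop) : Set ℂ :=
  {z | ∃ (f : A →ₗ[K] K) (x : Ext K ℂ A), p x ∧ extForm K ℂ f x = z}

/-- The transcendence degree over `K` of the field generated by `S`. -/
noncomputable def trdegOf (K : Type) [Field K] [Algebra K ℂ] (S : Set ℂ) : Cardinal :=
  Algebra.trdeg K (IntermediateField.adjoin K S)

end Alg

variable {k : Type u} [Field k] {𝒱 : VarClass k} {ops : CycleOps 𝒱}
  {W D : WeilCohomology.{u, 0} ops} [Algebra W.K ℂ] [Algebra D.K ℂ]

/-- The periods of `X`: the numbers `(f ⊗ 1) (C (1 ⊗ c))`, where `c` is a rational class and `f` is a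
linear form on the de Rham cohomology. They are the combinations of the entries of a matrix of
the comparison isomorphism. -/
def periods (C : Comparison W D ℂ) (X : 𝒱.Obj) : Set ℂ :=
  values D.K fun x => ∃ c, C.e X (emL W ℂ c) = x

/-- The class `c` of degree `2 j` is a de Rham-Betti class: up to the power `C.c ^ j` it corresponds
to an algebraic de Rham class. -/
def IsDRB (C : Comparison W D ℂ) (X : 𝒱.Obj) (j : ℕ) (c : W.H X) : Prop :=
  ∃ c', C.Maps j c (emL D ℂ c')

/-- The class `a 0 × ... × a n` on the product of `n + 1` copies of `X`. -/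
noncomputable def cross (W : WeilCohomology.{u, 0} ops) (X : 𝒱.Obj) :
    ∀ n, (Fin (n + 1) → W.H X) → W.H (pw X n)
  | 0, a => a 0
  | n + 1, a => mulOf (W.map (fst (pw X n) X)) (W.map (snd (pw X n) X))
      (cross W X n fun i => a i.castSucc) (a (Fin.last _))

/-- The endomorphism `Z` of `H(X)`, acting as a derivation, multiplies by `r` the form on `H(X)`
given by the class `c` on the product of `n + 1` copies of `X`. -/
def ActsBy (W : WeilCohomology.{u, 0} ops) (X : 𝒱.Obj) (Z : W.H X →ₗ[W.K] W.H X) (n : ℕ)
    (c : W.H (pw X n)) (r : W.K) : Prop :=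
  Multiplies (cross W X n) (W.tr (pw X n)) Z c r

variable (T : HodgeDecomposition W) (X : 𝒱.Obj)

/-- The endomorphism `Z` of `H(X)` is an element of the Lie algebra of the Mumford-Tate group of
`X`: for some number `r` it multiplies the form of every Hodge class on a power of `X` by `M r`,
where `2 M` is the degree of the form. -/
def InMT (Z : W.H X →ₗ[W.K] W.H X) : Prop :=
  ∃ r : W.K, ∀ n M j c, M + j = (pw X n).dim → IsHodge T (pw X n) j c → ActsBy W X Z n c (M * r)

/-- The endomorphism `Z` is an element of the centre of the algebra of the endomorphisms of the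
Hodge structure `H(X)`, and it kills the classes of all algebraic cycles on all powers of `X`. -/
def InCentre (Z : W.H X →ₗ[W.K] W.H X) : Prop :=
  IsCentral (W.gr X) (T.h X) Z ∧
    ∀ n j z, (pw X n).IsCyc j z → ActsBy W X Z n (W.cl (pw X n) z) 0

end Pool.Agent.Q50.DR
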