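import Pool.Agent.Q50.DR.Nrm
import Pool.Agent.Q50.DR.Defs
import Pool.Agent.Q50.MTC.Three

/-!
# The components of the operators are elements of the extended Mumford-Tate algebra
-/

open CategoryTheory AlgebraicGeometry TensorProduct

universe u

set_option linter.unusedSectionVars false

namespace Pool.Agent.Q50.DR

open Module Pool.Agent.H204R3.SP Pool.Agent.W516.DR
open Pool.Agent.H914 Pool.Agent.H914.VarClass Pool.Agent.H914.VarClass.Obj
  Pool.Agent.H914.WeilCohomology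
open Pool.Agent.Y133.Half Pool.Agent.Y121.AH Pool.Agent.Q50.FP Pool.Agent.W516.KC
open Pool.Agent.Q50.MTC (HodgeDecomposition mt mtp mtp_semi mtp_br mtp_skew mem_mtp dn_mtp mt_le
  hodge_of_mtp kills_of_comm yy yy_apply yy_kills yy_mt mt_comm mt_dn mt_br hh hC hh_cl)
open Pool.Agent.Y121.AHS (extMap Ext)

variable {k : Type u} [Field k] {𝒱 : VarClass k} {ops : CycleOps 𝒱}
  {W D : WeilCohomology.{u, 0} ops} [Algebra W.K ℂ] [Algebra D.K ℂ] {T : HodgeDecomposition W}
  {X Y : 𝒱.Obj} {n : ℕ}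

theorem cross_eq : ∀ (n : ℕ) (a : Fin (n + 1) → W.H X), cross W X n a = mpr W X n a
  | 0, a => by
    rw [mpr_apply, List.ofFn_succ, List.ofFn_zero, List.prod_singleton]
    exact (W.map_id _ _).symm
  | n + 1, a => by
    have h1 : cross W X (n + 1) a = W.map (pfst X n) (cross W X n fun i => a i.castSucc) *
      W.map (psnd X n) (a (Fin.last _)) := rfl
    rw [h1, cross_eq n, mpr_apply, mpr_apply]
    conv_rhs => rw [List.ofFn_succ', List.prod_concat, prj_last]
    rw [map_list_prod, List.map_ofFn]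
    congr 3
    funext i
    rw [Function.comp_apply, prj_castSucc, W.map_comp]

theorem actsBy_iff {Z : W.H X →ₗ[W.K] W.H X} {c : W.H (pw X n)} {r : W.K} :
    ActsBy W X Z n c r ↔
      ∀ v, ∑ i, frm W X n c (Function.update v i (Z (v i))) = r * frm W X n c v := by
  unfold ActsBy Multiplies
  refine forall_congr' fun v => ?_
  simp only [cross_eq]
  rfl

theorem actsBy_zero {Z : Module.End W.K (W.H X)} {c : W.H (pw X n)} (h : Kills Z (frm W X n c)) :
    ActsBy W X Z n c 0 := by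
  refine actsBy_iff.2 fun v => ?_
  rw [zero_mul]
  exact h v

theorem inMT_of_mt {Z : Module.End W.K (W.H X)} (hZ : Z ∈ mt T X) : InMT T X Z := by
  refine ⟨0, fun n M j c _ hc => ?_⟩
  rw [mul_zero]
  exact actsBy_zero (hZ n _ fun ν => yy_kills ν hc.2)

theorem inMT_dg : InMT T X (dg W X) := by
  refine ⟨2, fun n M j c hM hc => actsBy_iff.2 fun v => ?_⟩
  rw [(frm_dg_iff hM).2 hc.1 v]
  ring

/-! ### The centre -/

theorem der_mtp : der (mtp T X) ≤ mt T X := by
  rw [der, Submodule.span_le]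
  rintro _ ⟨A, hA, B, hB, rfl⟩
  obtain ⟨A, hA', r, rfl⟩ := mem_mtp.1 hA
  obtain ⟨B, hB', t, rfl⟩ := mem_mtp.1 hB
  have h1 : (A + r • dn W X) * (B + t • dn W X) - (B + t • dn W X) * (A + r • dn W X) =
      A * B - B * A := by
    have h2 := mt_dn hA'
    have h3 := mt_dn hB'
    simp only [add_mul, mul_add, mul_smul_comm, smul_mul_assoc, h2, h3, smul_add, smul_smul,
      mul_comm t r]
    abel
  change (A + r • dn W X) * (B + t • dn W X) - (B + t • dn W X) * (A + r • dn W X) ∈ mt T X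
  rw [h1]
  exact mt_br A hA' B hB'

theorem hh_bc {P : Module.End W.K (W.H X)}
    (h : ∀ x : ℂ ⊗[W.K] W.H X, hC T X (P.baseChange ℂ x) = P.baseChange ℂ (hC T X x))
    (ν : ℂ →ₗ[W.K] W.K) : yy T X ν * P = P * yy T X ν := by
  refine LinearMap.ext fun x => ?_
  rw [Module.End.mul_apply, Module.End.mul_apply]
  have h1 := h ((1 : ℂ) ⊗ₜ[W.K] x)
  rw [LinearMap.baseChange_tmul] at h1
  have h2 : yy T X ν (P x) = cmp (k := W.K) (L := ℂ) (W := W.H X) ν
      (hC T X ((1 : ℂ) ⊗ₜ[W.K] P x)) := rfl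
  have h3 : yy T X ν x = cmp (k := W.K) (L := ℂ) (W := W.H X) ν
      (hC T X ((1 : ℂ) ⊗ₜ[W.K] x)) := rfl
  rw [h2, h3, h1]
  induction hC T X ((1 : ℂ) ⊗ₜ[W.K] x) with
  | zero => rw [map_zero, map_zero, map_zero]
  | add a b ha hb => rw [map_add, map_add, ha, hb, map_add, map_add]
  | tmul l a => rw [LinearMap.baseChange_tmul, cmp_tmul, cmp_tmul, map_smul]

/-- A vector all of whose components vanish is zero. -/
theorem eq_zero_of_cmp {K V : Type} [Field K] [AddCommGroup V] [Module K V] [Algebra K ℂ]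
    [FiniteDimensional K V] {z : ℂ ⊗[K] V} (h : ∀ ν : ℂ →ₗ[K] K, cmp ν z = 0) : z = 0 := by
  classical
  let b := Module.finBasis K V
  apply (b.baseChange ℂ).ext_elem
  intro i
  rw [map_zero, Finsupp.zero_apply]
  refine eq_zero_of_dual (k := K) (L := ℂ) fun ν => ?_
  rw [← coord_cmp, h, map_zero, Finsupp.zero_apply]

theorem bc_hh {P : Module.End W.K (W.H X)} (h : ∀ ν, yy T X ν * P = P * yy T X ν)
    (x : ℂ ⊗[W.K] W.H X) : hC T X (P.baseChange ℂ x) = P.baseChange ℂ (hC T X x) := by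
  induction x with
  | zero => rw [map_zero, map_zero, map_zero]
  | add a b ha hb => rw [map_add, map_add, ha, hb, map_add, map_add]
  | tmul l x =>
    have h0 : (l ⊗ₜ[W.K] x : ℂ ⊗[W.K] W.H X) = l • ((1 : ℂ) ⊗ₜ[W.K] x) := by
      rw [TensorProduct.smul_tmul', smul_eq_mul, mul_one]
    rw [h0, map_smul, map_smul, map_smul, map_smul]
    congr 1
    rw [← sub_eq_zero]
    apply eq_zero_of_cmp
    intro ν
    rw [map_sub, sub_eq_zero, LinearMap.baseChange_tmul]
    have h1 := LinearMap.congr_fun (h ν) x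
    rw [Module.End.mul_apply, Module.End.mul_apply] at h1
    have h2 : yy T X ν (P x) = cmp (k := W.K) (L := ℂ) (W := W.H X) ν
        (hC T X ((1 : ℂ) ⊗ₜ[W.K] P x)) := rfl
    have h3 : yy T X ν x = cmp (k := W.K) (L := ℂ) (W := W.H X) ν
        (hC T X ((1 : ℂ) ⊗ₜ[W.K] x)) := rfl
    rw [← h2, h1, h3]
    induction hC T X ((1 : ℂ) ⊗ₜ[W.K] x) with
    | zero => rw [map_zero, map_zero, map_zero, map_zero]
    | add a b ha hb => rw [map_add, map_add, ha, hb, map_add, map_add]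
    | tmul l a => rw [LinearMap.baseChange_tmul, cmp_tmul, cmp_tmul, map_smul]

theorem respHodge_iff {P : Module.End W.K (W.H X)} :
    RespHodge (W.gr X) (T.h X) P ↔
      P * dn W X = dn W X * P ∧ ∀ ν, yy T X ν * P = P * yy T X ν := by
  constructor
  · rintro ⟨h1, h2⟩
    refine ⟨?_, fun ν => hh_bc (T := T) h2 ν⟩
    have h3 : P * dg W X = dg W X * P := by
      refine LinearMap.ext fun x => ?_
      rw [Module.End.mul_apply, Module.End.mul_apply]
      refine dg_ind (p := fun x => P (dg W X x) = dg W X (P x)) ?_ ?_ x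
      · intro i x hx
        rw [dg_of hx, dg_of (h1 i x hx), map_smul]
      · intro a b ha hb
        rw [map_add, map_add, ha, hb, map_add, map_add]
    rw [dn, mul_sub, sub_mul, h3, mul_smul_comm, smul_mul_assoc, mul_one, one_mul]
  · rintro ⟨h1, h2⟩
    refine ⟨fun i x hx => ?_, fun x => bc_hh (T := T) h2 x⟩
    have h3 := comm_dg_of_dn h1.symm x
    exact mem_gr_iff.2 (by rw [h3, dg_of hx, map_smul])

theorem isCentral_of_inCentre {f : Module.End W.K (W.H X)}
    (hf : Pool.Agent.Q50.FP.InCentre (mtp T X) f) : IsCentral (W.gr X) (T.h X) f := by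
  refine ⟨respHodge_iff.2 ⟨(hf.1 _ dn_mtp).symm, fun ν => hf.1 _ (mt_le (yy_mt ν))⟩,
    fun P hP a => ?_⟩
  obtain ⟨h1, h2⟩ := respHodge_iff.1 hP
  have h3 : ∀ Z ∈ mtp T X, Z * P = P * Z := by
    intro Z hZ
    obtain ⟨A, hA, r, rfl⟩ := mem_mtp.1 hZ
    rw [add_mul, mul_add, mt_comm h2 hA, smul_mul_assoc, mul_smul_comm, h1]
  exact LinearMap.congr_fun (hf.2 P h3) a

section main

variable (hrat : ∀ r : W.K, ∃ q : ℚ, (q : W.K) = r) (δ : Derivation D.K ℂ ℂ)
  (C : Comparison (baseW W ℂ) (baseW D ℂ)) (hs : ∀ z : ℂ, (show ℂ from C.s z) = z)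

/-- The class `c` of degree `2 j` is a de Rham-Betti class. -/
def Drb (Y : 𝒱.Obj) (j : ℕ) (c : W.H Y) : Prop :=
  ∃ c' : D.H Y, C.e Y (em W ℂ c) =
    (show (baseW D ℂ).K from (show ℂ from C.c) ^ j) • em D ℂ c'

variable {C}

theorem zz_kills_drb (ν : ℂ →ₗ[W.K] W.K) {j : ℕ} {c : W.H (pw X n)}
    (hc : c ∈ W.gr (pw X n) (2 * j)) (h : Drb C (pw X n) j c) :
    Kills (zz hrat δ C hs X ν) (frm W X n c) := by
  obtain ⟨c', hc'⟩ := h
  exact zz_kills hrat δ C hs ν (Dn_class hrat δ C hs hc hc')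

theorem drb_cl {j : ℕ} {z : Y.Cycles} (hz : Y.IsCyc j z) : Drb C Y j (W.cl Y z) :=
  ⟨D.cl Y z, C.cyc hz⟩

/-- **The decomposition of the components.** -/
theorem zz_decomp
    (h2 : ∀ c, MTC.IsHodge T (pw X 1) X.dim c → Drb C (pw X 1) X.dim c)
    (h4 : ∀ c, MTC.IsHodge T (pw X 3) (2 * X.dim) c → Drb C (pw X 3) (2 * X.dim) c)
    (ν : ℂ →ₗ[W.K] W.K) : ∃ s ∈ mt T X, InCentre T X (zz hrat δ C hs X ν - s) := by
  have hskew := zz_skew hrat δ C hs (X := X) ν
  obtain ⟨s, hs', hcen⟩ := decomp (mtp T X) mtp_semi mtp_br (prg W X) prg_nondeg hskew (by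
    -- the Casimir form
    let e : Fin 2 × Fin 2 ≃ Fin 4 := finProdFinEquiv
    obtain ⟨c, hc⟩ := frm_surjective (W := W) (X := X) (n := 3)
      ((cas (mtp T X) mtp_semi mtp_br (prg W X)).domDomCongr e)
    have h1 : MTC.IsHodge T (pw X 3) (2 * X.dim) c := hodge_of_mtp (by ring) fun Z hZ => by
      rw [hc]
      refine (kills_reindex e).2 ?_
      exact Pool.Agent.W516.KC2.casimir_kills _ _ _ (mtp_skew hZ) fun A hA =>
        der_ideal (mtp T X) mtp_br hZ hA
    have h3 := zz_kills_drb hrat δ hs ν h1.1 (h4 c h1)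
    rw [hc] at h3
    exact (kills_reindex e).1 h3) (by
    -- the commutant
    intro P hP
    obtain ⟨c, hc⟩ := frm_surjective (W := W) (X := X) (n := 1) (two ((prg W X).comp P))
    have h1 : MTC.IsHodge T (pw X 1) X.dim c := hodge_of_mtp (by ring) fun Z hZ => by
      rw [hc]
      exact kills_of_comm hP hZ
    have h3 := zz_kills_drb hrat δ hs ν h1.1 (h2 c h1)
    rw [hc, kills_two] at h3
    refine end_ext fun u v => ?_
    have h4 := h3 u v
    have h5 := hskew (P u) v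
    rw [LinearMap.comp_apply, LinearMap.comp_apply] at h4
    rw [Module.End.mul_apply, Module.End.mul_apply]
    linear_combination h5 - h4)
  have hsm := der_mtp hs'
  refine ⟨s, hsm, isCentral_of_inCentre hcen, fun n j z hz => actsBy_zero ?_⟩
  have h1 := zz_kills_drb hrat δ hs ν (W.cl_mem hz) (drb_cl hz)
  have h3 : Kills s (frm W X n (W.cl _ z)) := hsm n _ fun ν => yy_kills ν (hh_cl (T := T) hz)
  intro v
  have h4 : ∀ i, frm W X n (W.cl _ z) (Function.update v i
      ((zz hrat δ C hs X ν - s) (v i))) = frm W X n (W.cl _ z) (Function.update v i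
        (zz hrat δ C hs X ν (v i))) - frm W X n (W.cl _ z) (Function.update v i (s (v i))) := by
    intro i
    rw [LinearMap.sub_apply, MultilinearMap.map_update_sub]
  rw [Finset.sum_congr rfl fun i _ => h4 i, Finset.sum_sub_distrib, h1 v, h3 v, sub_zero]

theorem cE_smul_dg (ν : ℂ →ₗ[W.K] W.K) (r : (baseW W ℂ).K) :
    cE ν (r • dg (baseW W ℂ) X) = lam ν r • dg W X := by
  refine LinearMap.ext fun x => ?_
  rw [cE_apply, LinearMap.smul_apply, LinearMap.smul_apply, ← MTC.em_dg, cC_smul_em]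

/-- **The components of the operators are elements of the extended Mumford-Tate algebra.** -/
theorem cE_mem
    (h2 : ∀ c, MTC.IsHodge T (pw X 1) X.dim c → Drb C (pw X 1) X.dim c)
    (h4 : ∀ c, MTC.IsHodge T (pw X 3) (2 * X.dim) c → Drb C (pw X 3) (2 * X.dim) c)
    (ν : ℂ →ₗ[W.K] W.K) : cE ν (Dd hrat δ C hs X) ∈
      Submodule.span W.K {Z : W.H X →ₗ[W.K] W.H X | InMT T X Z ∨ InCentre T X Z} := by
  obtain ⟨s, hs', hc⟩ := zz_decomp hrat δ hs h2 h4 ν
  have h5 : cE ν (Dd hrat δ C hs X) = s + (zz hrat δ C hs X ν - s) +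
      lam ν (show (baseW W ℂ).K from (lc δ C / 2 : ℂ)) • dg W X := by
    rw [← cE_smul_dg, add_sub_cancel, zz]
    refine LinearMap.ext fun x => ?_
    rw [LinearMap.add_apply, cE_apply, cE_apply, cE_apply, ← cC_add, Dn, LinearMap.sub_apply,
      sub_add_cancel]
  rw [h5]
  refine Submodule.add_mem _ (Submodule.add_mem _ (Submodule.subset_span (Or.inl (inMT_of_mt hs')))
    (Submodule.subset_span (Or.inr hc))) (Submodule.smul_mem _ _
      (Submodule.subset_span (Or.inl inMT_dg)))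

end main

end Pool.Agent.Q50.DR
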