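import Pool.Agent.Q50.DR.Opr
import Pool.Agent.Q50.MTC.Two

/-!
# The normalised operators, and the derivatives of the periods
-/

open CategoryTheory AlgebraicGeometry TensorProduct

universe u

set_option linter.unusedSectionVars false

namespace Pool.Agent.Q50.DR

open Module Pool.Agent.H204R3.SP Pool.Agent.W516.DR
open Pool.Agent.H914 Pool.Agent.H914.VarClass Pool.Agent.H914.VarClass.Obj
  Pool.Agent.H914.WeilCohomology
open Pool.Agent.Y133.Half Pool.Agent.Y121.AH Pool.Agent.Q50.FP Pool.Agent.W516.KC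
open Pool.Agent.Q50.MTC (fx fx_em fx_apply hh hh_gr)
open Pool.Agent.Y121.AHS (extForm)

variable {k : Type u} [Field k] {𝒱 : VarClass k} {ops : CycleOps 𝒱}
  {W D : WeilCohomology.{u, 0} ops} [Algebra W.K ℂ] [Algebra D.K ℂ] {X Y : 𝒱.Obj} {n : ℕ}

/-- The difference of two families of derivations. -/
theorem drv_sub_smul {V : WeilCohomology.{u, 0} ops} {A B : ∀ Y : 𝒱.Obj, Module.End V.K (V.H Y)}
    {t t' : V.K} (hA : Drv V A t) (hB : Drv V B t') (r : V.K) :
    Drv V (fun Y => A Y - r • B Y) (t - r * t') where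
  mul Y x y := by
    simp only [LinearMap.sub_apply, LinearMap.smul_apply]
    rw [hA.mul, hB.mul, sub_mul, mul_sub, smul_add, smul_mul_assoc, mul_smul_comm]
    abel
  map {Y Z} f z := by
    simp only [LinearMap.sub_apply, LinearMap.smul_apply]
    rw [hA.map, hB.map, map_sub, map_smul]
  tr Y x := by
    simp only [LinearMap.sub_apply, LinearMap.smul_apply]
    rw [map_sub, map_smul, hA.tr, hB.tr, smul_eq_mul]
    ring

variable (hrat : ∀ r : W.K, ∃ q : ℚ, (q : W.K) = r) (δ : Derivation D.K ℂ ℂ)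
  (C : Comparison (baseW W ℂ) (baseW D ℂ)) (hs : ∀ z : ℂ, (show ℂ from C.s z) = z)

/-- The normalised operator. -/
noncomputable def Dn (Y : 𝒱.Obj) : Module.End (baseW W ℂ).K ((baseW W ℂ).H Y) :=
  Dd hrat δ C hs Y - (show (baseW W ℂ).K from (lc δ C / 2 : ℂ)) • dg (baseW W ℂ) Y

theorem Dn_drv : Drv (baseW W ℂ) (Dn hrat δ C hs) 0 := by
  have h1 := drv_sub_smul (Dd_drv hrat δ C hs) (dg_drv (W := baseW W ℂ))
    (show (baseW W ℂ).K from (lc δ C / 2 : ℂ))
  have h2 : (show (baseW W ℂ).K from lc δ C) - (show (baseW W ℂ).K from (lc δ C / 2 : ℂ)) * 2 = 0 := by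
    change lc δ C - lc δ C / 2 * 2 = (0 : ℂ)
    ring
  rw [h2] at h1
  exact h1

/-- The normalised operator kills the de Rham-Betti classes. -/
theorem Dn_class {c : W.H X} {c' : D.H X} {j : ℕ} (hc : c ∈ W.gr X (2 * j))
    (h : C.e X (em W ℂ c) = (show (baseW D ℂ).K from (show ℂ from C.c) ^ j) • em D ℂ c') :
    Dn hrat δ C hs X (em W ℂ c) = 0 := by
  rw [Dn, LinearMap.sub_apply, Dd_class hrat δ C hs h, LinearMap.smul_apply, dg_of (em_gr hc),
    smul_smul, ← sub_smul]
  have h2 : (show (baseW W ℂ).K from (j * lc δ C : ℂ)) -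
      (show (baseW W ℂ).K from (lc δ C / 2 : ℂ)) * ((2 * j : ℕ) : (baseW W ℂ).K) = 0 := by
    change (j * lc δ C : ℂ) - lc δ C / 2 * ((2 * j : ℕ) : ℂ) = 0
    push_cast
    ring
  rw [h2, zero_smul]

theorem Dn_gr {i : ℕ} {z : (baseW W ℂ).H X} (hz : z ∈ (baseW W ℂ).gr X i) :
    Dn hrat δ C hs X z ∈ (baseW W ℂ).gr X i := by
  rw [Dn, LinearMap.sub_apply, LinearMap.smul_apply, dg_of hz]
  exact Submodule.sub_mem _ (Dd_gr hrat δ C hs hz)
    (Submodule.smul_mem _ _ (Submodule.smul_mem _ _ hz))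

/-- The components of the normalised operator. -/
noncomputable def zz (X : 𝒱.Obj) (ν : ℂ →ₗ[W.K] W.K) : Module.End W.K (W.H X) :=
  cE ν (Dn hrat δ C hs X)

theorem zz_kills (ν : ℂ →ₗ[W.K] W.K) {c : W.H (pw X n)}
    (hc : Dn hrat δ C hs _ (em W ℂ c) = 0) : Kills (zz hrat δ C hs X ν) (frm W X n c) :=
  kills_of_drv (Dn_drv hrat δ C hs) ν hc

theorem zz_skew (ν : ℂ →ₗ[W.K] W.K) : IsSkew (prg W X) (zz hrat δ C hs X ν) := by
  intro a b
  have h0 : ∀ x, zz hrat δ C hs X ν x = cC ν (Dn hrat δ C hs X (em W ℂ x)) := fun x => rfl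
  have h1 : ∀ x y : (baseW W ℂ).H X, prg (baseW W ℂ) X (Dn hrat δ C hs X x) y =
      -prg (baseW W ℂ) X x (Dn hrat δ C hs X y) := by
    intro x y
    rw [prg_apply, prg_apply]
    have h1 := (Dn_drv hrat δ C hs).tr X (x * y)
    rw [(Dn_drv hrat δ C hs).mul, map_add, zero_mul, zero_mul] at h1
    exact eq_neg_of_add_eq_zero_left h1
  rw [h0, h0, Pool.Agent.Q50.MTC.prg_cC, Pool.Agent.Q50.MTC.prg_cC', h1,
    Pool.Agent.Q50.MTC.lam_neg', neg_add_cancel]

/-! ### Components and spans -/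

section span

variable {K V : Type} [Field K] [AddCommGroup V] [Module K V] [FiniteDimensional K V]
  [Algebra K ℂ]

theorem coord_cmp (ν : ℂ →ₗ[K] K) {ι : Type} [Fintype ι] [DecidableEq ι]
    (b : Basis ι K V) (z : ℂ ⊗[K] V) (i : ι) :
    b.repr (cmp ν z) i = ν ((b.baseChange ℂ).repr z i) := by
  induction z with
  | zero => simp only [map_zero, Finsupp.zero_apply]
  | add z z' h h' => simp only [map_add, Finsupp.add_apply, h, h']
  | tmul a w =>
    rw [cmp_tmul, map_smul, Finsupp.smul_apply, Basis.baseChange_repr_tmul]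
    rw [map_smul, smul_eq_mul, smul_eq_mul, mul_comm]

/-- An operator all of whose components are in a subspace is a combination of elements of the
subspace. -/
theorem mem_span_of_cmp (𝔥 : Submodule K (Module.End K V)) (Z : Module.End ℂ (ℂ ⊗[K] V))
    (h : ∀ ν : ℂ →ₗ[K] K, cmpE ν Z ∈ 𝔥) :
    Z ∈ Submodule.span ℂ ((fun A : Module.End K V => A.baseChange ℂ) '' 𝔥) := by
  classical
  let b := Module.finBasis K V
  let β := Basis.ofVectorSpace K ℂ
  let s : Finset (Basis.ofVectorSpaceIndex K ℂ) := Finset.univ.biUnion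
    fun I : Fin (finrank K V) × Fin (finrank K V) =>
      (β.repr ((b.baseChange ℂ).repr (Z (b.baseChange ℂ I.1)) I.2)).support
  have h1 : Z = ∑ i ∈ s, β i • (cmpE (β.coord i) Z).baseChange ℂ := by
    refine (b.baseChange ℂ).ext fun I => ?_
    apply (b.baseChange ℂ).ext_elem
    intro J
    have h2 : (b.baseChange ℂ).repr ((∑ i ∈ s, β i • (cmpE (β.coord i) Z).baseChange ℂ)
        (b.baseChange ℂ I)) J = ∑ i ∈ s, β.repr ((b.baseChange ℂ).repr
          (Z (b.baseChange ℂ I)) J) i • β i := by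
      rw [LinearMap.sum_apply, map_sum, Finsupp.finsetSum_apply]
      refine Finset.sum_congr rfl fun i _ => ?_
      rw [LinearMap.smul_apply, map_smul, Finsupp.smul_apply, Basis.baseChange_apply,
        LinearMap.baseChange_tmul, Basis.baseChange_repr_tmul]
      have h3 : b.repr (cmpE (β.coord i) Z (b I)) J =
          β.repr ((b.baseChange ℂ).repr (Z ((1 : ℂ) ⊗ₜ[K] b I)) J) i := by
        rw [cmpE_apply]
        rw [coord_cmp (β.coord i) b (Z ((1 : ℂ) ⊗ₜ[K] b I)) J]
        rfl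
      rw [h3, smul_eq_mul, Algebra.smul_def, Algebra.smul_def, mul_one, mul_comm]
    rw [h2]
    conv_lhs => rw [← β.linearCombination_repr ((b.baseChange ℂ).repr (Z (b.baseChange ℂ I)) J),
      Finsupp.linearCombination_apply, Finsupp.sum_of_support_subset _
      (Finset.subset_biUnion_of_mem (fun I : Fin (finrank K V) × Fin (finrank K V) =>
        (β.repr ((b.baseChange ℂ).repr (Z (b.baseChange ℂ I.1)) I.2)).support)
        (Finset.mem_univ (I, J))) _ (fun i _ => zero_smul K (β i))]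
  rw [h1]
  refine Submodule.sum_mem _ fun i _ => Submodule.smul_mem _ _ (Submodule.subset_span ?_)
  exact ⟨_, h _, rfl⟩

/-- The dimension of the extension of a subspace. -/
theorem finrank_span_le (𝔥 : Submodule K (Module.End K V)) :
    FiniteDimensional ℂ (Submodule.span ℂ ((fun A : Module.End K V => A.baseChange ℂ) '' 𝔥)) ∧
      finrank ℂ (Submodule.span ℂ ((fun A : Module.End K V => A.baseChange ℂ) '' 𝔥)) ≤
        finrank K 𝔥 := by
  let b := Module.finBasis K 𝔥
  have h1 : Submodule.span ℂ ((fun A : Module.End K V => A.baseChange ℂ) '' 𝔥) ≤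
      Submodule.span ℂ (Set.range fun i => (b i : Module.End K V).baseChange ℂ) := by
    rw [Submodule.span_le]
    rintro _ ⟨A, hA, rfl⟩
    have h2 : (A : Module.End K V) = ∑ i, b.repr ⟨A, hA⟩ i • (b i : Module.End K V) := by
      have h3 := congrArg (Submodule.subtype 𝔥) (b.sum_repr ⟨A, hA⟩)
      rw [map_sum] at h3
      simp only [map_smul, Submodule.subtype_apply] at h3
      exact h3.symm
    change A.baseChange ℂ ∈ _
    rw [h2]
    have h4 : (∑ i, b.repr ⟨A, hA⟩ i • (b i : Module.End K V)).baseChange ℂ =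
        ∑ i, (algebraMap K ℂ (b.repr ⟨A, hA⟩ i)) • (b i : Module.End K V).baseChange ℂ := by
      have h5 := map_sum (LinearMap.baseChangeHom K ℂ V V)
        (fun i => b.repr ⟨A, hA⟩ i • (b i : Module.End K V)) Finset.univ
      refine h5.trans (Finset.sum_congr rfl fun i _ => ?_)
      change (b.repr ⟨A, hA⟩ i • (b i : Module.End K V)).baseChange ℂ = _
      rw [LinearMap.baseChange_smul, algebraMap_smul]
    rw [h4]
    exact Submodule.sum_mem _ fun i _ => Submodule.smul_mem _ _ (Submodule.subset_span ⟨i, rfl⟩)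
  have h2 : FiniteDimensional ℂ
      (Submodule.span ℂ (Set.range fun i => (b i : Module.End K V).baseChange ℂ)) :=
    FiniteDimensional.span_of_finite ℂ (Set.finite_range _)
  refine ⟨Submodule.finiteDimensional_of_le h1, (Submodule.finrank_mono h1).trans ?_⟩
  refine (finrank_range_le_card _).trans ?_
  rw [Fintype.card_fin]

end span

end Pool.Agent.Q50.DR
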