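import Pool.Agent.Q50.DR.Trd
import Pool.Agent.Q50.DR.Nrm

/-!
# Constants and descent
-/

open CategoryTheory AlgebraicGeometry TensorProduct

universe u

set_option linter.unusedSectionVars false

namespace Pool.Agent.Q50.DR

open Module

section const

variable {F L : Type} [Field F] [Field L] [Algebra F L] [CharZero F] [IsAlgClosed F]

/-- The constants of the derivations over an algebraically closed field. -/
theorem const_of_deriv {z : L} (h : ∀ δ : Derivation F L L, δ z = 0) :
    ∃ r, algebraMap F L r = z := by
  classical
  by_cases hz : Transcendental F z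
  · exfalso
    have h1 : AlgebraicIndependent F (fun _ : Unit => z) :=
      (algebraicIndependent_unique_type_iff).2 hz
    obtain ⟨δ, hδ⟩ := exists_derivation h1 ()
    have h2 := hδ ()
    rw [if_pos rfl, h δ] at h2
    exact zero_ne_one h2
  · have hz' : IsAlgebraic F z := by
      rw [Transcendental, not_not] at hz
      exact hz
    have h1 : Algebra.IsAlgebraic F (IntermediateField.adjoin F {z}) :=
      IntermediateField.isAlgebraic_adjoin fun x hx => by
        rw [Set.mem_singleton_iff] at hx
        subst hx
        exact hz'.isIntegral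
    have h2 : IntermediateField.adjoin F {z} = ⊥ :=
      IntermediateField.eq_bot_of_isAlgClosed_of_isAlgebraic _
    have h3 : z ∈ (⊥ : IntermediateField F L) := by
      rw [← h2]
      exact IntermediateField.mem_adjoin_simple_self F z
    exact IntermediateField.mem_bot.1 h3

variable {V : Type} [AddCommGroup V] [Module F V] [FiniteDimensional F V]

theorem coord_rTensor {ι : Type} (b : Basis ι F V) (d : L →ₗ[F] L) (x : L ⊗[F] V) (i : ι) :
    (b.baseChange L).repr (d.rTensor V x) i = d ((b.baseChange L).repr x i) := by
  induction x with
  | zero => simp only [map_zero, Finsupp.zero_apply]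
  | add a b ha hb => simp only [map_add, Finsupp.add_apply, ha, hb]
  | tmul l v =>
    rw [LinearMap.rTensor_tmul, Basis.baseChange_repr_tmul, Basis.baseChange_repr_tmul, map_smul]

/-- The vectors killed by all derivations are rational. -/
theorem em_of_const {x : L ⊗[F] V}
    (h : ∀ δ : Derivation F L L, δ.toLinearMap.rTensor V x = 0) :
    ∃ v : V, (1 : L) ⊗ₜ[F] v = x := by
  classical
  let b := Module.finBasis F V
  have h1 : ∀ i, ∃ r, algebraMap F L r = (b.baseChange L).repr x i := by
    intro i
    refine const_of_deriv fun δ => ?_
    have h2 := coord_rTensor b δ.toLinearMap x i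
    rw [h δ, map_zero, Finsupp.zero_apply] at h2
    exact h2.symm
  choose r hr using h1
  refine ⟨∑ i, r i • b i, ?_⟩
  apply (b.baseChange L).ext_elem
  intro i
  rw [Basis.baseChange_repr_tmul, ← hr i, map_sum, Finsupp.finsetSum_apply,
    Finset.sum_eq_single i]
  · rw [map_smul, Finsupp.smul_apply, Basis.repr_self, Finsupp.single_eq_same, smul_eq_mul,
      mul_one, Algebra.smul_def, mul_one]
  · intro j _ hj
    rw [map_smul, Finsupp.smul_apply, Basis.repr_self, Finsupp.single_eq_of_ne (Ne.symm hj),
      smul_zero]
  · intro h'
    exact absurd (Finset.mem_univ i) h'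

theorem rTensor_smul (δ : Derivation F L L) (z : L) (x : L ⊗[F] V) :
    δ.toLinearMap.rTensor V (z • x) = δ z • x + z • δ.toLinearMap.rTensor V x := by
  induction x with
  | zero => simp only [smul_zero, map_zero, add_zero]
  | add a b ha hb =>
    rw [smul_add, map_add, ha, hb, map_add, smul_add, smul_add]
    abel
  | tmul l v =>
    rw [TensorProduct.smul_tmul', LinearMap.rTensor_tmul, LinearMap.rTensor_tmul,
      TensorProduct.smul_tmul', TensorProduct.smul_tmul', ← TensorProduct.add_tmul]
    congr 1
    change δ (z * l) = δ z * l + z * δ l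
    rw [Derivation.leibniz, smul_eq_mul, smul_eq_mul]
    ring

theorem rTensor_baseChange (δ : Derivation F L L) (P : V →ₗ[F] V) (x : L ⊗[F] V) :
    P.baseChange L (δ.toLinearMap.rTensor V x) = δ.toLinearMap.rTensor V (P.baseChange L x) := by
  induction x with
  | zero => simp only [map_zero]
  | add a b ha hb => rw [map_add, map_add, ha, hb, map_add, map_add]
  | tmul l v =>
    rw [LinearMap.rTensor_tmul, LinearMap.baseChange_tmul, LinearMap.baseChange_tmul,
      LinearMap.rTensor_tmul]

omit [IsAlgClosed F] in
theorem eq_zero_of_tmul {v : V} (h : (1 : L) ⊗ₜ[F] v = 0) : v = 0 := by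
  let b := Module.finBasis F V
  apply b.ext_elem
  intro i
  have h1 := Basis.baseChange_repr_tmul L b (1 : L) v i
  rw [h, map_zero, Finsupp.zero_apply, Algebra.smul_def, mul_one] at h1
  rw [map_zero, Finsupp.zero_apply]
  exact (map_eq_zero (algebraMap F L)).1 h1.symm

/-- **Descent.** A subspace which is stable under all derivations is defined over `F`. -/
theorem descent (S : Submodule L (L ⊗[F] V))
    (hS : ∀ δ : Derivation F L L, ∀ x ∈ S, δ.toLinearMap.rTensor V x ∈ S) :
    ∃ U : Submodule F V, S = U.baseChange L := by
  classical
  let U : Submodule F V :=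
    { carrier := {v | (1 : L) ⊗ₜ[F] v ∈ S}
      zero_mem' := by
        change (1 : L) ⊗ₜ[F] (0 : V) ∈ S
        rw [TensorProduct.tmul_zero]
        exact S.zero_mem
      add_mem' := fun {a b} ha hb => by
        change (1 : L) ⊗ₜ[F] (a + b) ∈ S
        rw [TensorProduct.tmul_add]
        exact S.add_mem ha hb
      smul_mem' := fun r a ha => by
        change (1 : L) ⊗ₜ[F] (r • a) ∈ S
        have h1 : (1 : L) ⊗ₜ[F] (r • a) = algebraMap F L r • ((1 : L) ⊗ₜ[F] a) := by
          rw [TensorProduct.tmul_smul, algebraMap_smul]
        rw [h1]
        exact S.smul_mem _ ha }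
  have hmem : ∀ v, v ∈ U ↔ (1 : L) ⊗ₜ[F] v ∈ S := fun v => Iff.rfl
  have hUS : U.baseChange L ≤ S := by
    rw [Submodule.baseChange_eq_span, Submodule.span_le]
    rintro _ ⟨v, hv, rfl⟩
    exact hv
  refine ⟨U, le_antisymm ?_ hUS⟩
  obtain ⟨W, hW⟩ := Submodule.exists_isCompl U
  -- the projection to `W` along `U`
  let P : V →ₗ[F] V := W.projection U hW.symm
  have hP1 : ∀ v, v - P v ∈ U := by
    intro v
    have h1 : P (v - P v) = 0 := by
      rw [map_sub, Submodule.projection_apply_of_mem_left hW.symm (x := P v) ?_, sub_self]
      change W.projection U hW.symm v ∈ W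
      rw [Submodule.projection_apply]
      exact SetLike.coe_mem _
    exact (Submodule.projection_apply_eq_zero_iff hW.symm).1 h1
  have hP2 : ∀ v, P v ∈ W := by
    intro v
    change W.projection U hW.symm v ∈ W
    rw [Submodule.projection_apply]
    exact SetLike.coe_mem _
  have hP3 : ∀ x : L ⊗[F] V, x - P.baseChange L x ∈ U.baseChange L := by
    intro x
    induction x with
    | zero => rw [map_zero, sub_zero]; exact Submodule.zero_mem _
    | add a b ha hb =>
      rw [map_add]
      have h1 : a + b - (P.baseChange L a + P.baseChange L b) =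
        (a - P.baseChange L a) + (b - P.baseChange L b) := by abel
      rw [h1]
      exact Submodule.add_mem _ ha hb
    | tmul l v =>
      rw [LinearMap.baseChange_tmul, ← TensorProduct.tmul_sub]
      exact Submodule.tmul_mem_baseChange_of_mem _ (hP1 v)
  let b := Module.finBasis F V
  -- minimal support
  have key : ∀ n : ℕ, ∀ y ∈ S, P.baseChange L y = y →
      ((b.baseChange L).repr y).support.card = n → y = 0 := by
    intro n
    induction n using Nat.strong_induction_on with
    | _ n ih =>
      intro y hy hPy hn
      by_contra h0
      obtain ⟨i, hi⟩ : ∃ i, (b.baseChange L).repr y i ≠ 0 := by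
        by_contra hcon
        push Not at hcon
        refine h0 ((b.baseChange L).ext_elem fun i => ?_)
        rw [hcon i, map_zero, Finsupp.zero_apply]
      set z := (b.baseChange L).repr y i with hz
      let y' := z⁻¹ • y
      have hy' : y' ∈ S := S.smul_mem _ hy
      have hPy' : P.baseChange L y' = y' := by
        change P.baseChange L (z⁻¹ • y) = z⁻¹ • y
        rw [map_smul, hPy]
      have hi' : (b.baseChange L).repr y' i = 1 := by
        change (b.baseChange L).repr (z⁻¹ • y) i = 1
        rw [map_smul, Finsupp.smul_apply, smul_eq_mul, ← hz, inv_mul_cancel₀ hi]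
      have hzero : ∀ δ : Derivation F L L, δ.toLinearMap.rTensor V y' = 0 := by
        intro δ
        refine ih _ ?_ _ (hS δ _ hy') ?_ rfl
        · rw [← hn]
          apply Finset.card_lt_card
          refine ⟨fun j hj => ?_, fun hcon => ?_⟩
          · rw [Finsupp.mem_support_iff, coord_rTensor] at hj
            rw [Finsupp.mem_support_iff]
            intro h1
            apply hj
            have h2 : (b.baseChange L).repr y' j = 0 := by
              change (b.baseChange L).repr (z⁻¹ • y) j = 0
              rw [map_smul, Finsupp.smul_apply, h1, smul_zero]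
            rw [h2, map_zero]
          · have h1 := hcon (Finsupp.mem_support_iff.2 hi)
            rw [Finsupp.mem_support_iff, coord_rTensor, hi'] at h1
            exact h1 δ.map_one_eq_zero
        · rw [rTensor_baseChange, hPy']
      obtain ⟨v, hv⟩ := em_of_const hzero
      have hvU : v ∈ U := by
        rw [hmem, hv]
        exact hy'
      have hPv : P v = 0 := (Submodule.projection_apply_eq_zero_iff hW.symm).2 hvU
      have h1 : y' = 0 := by
        rw [← hPy', ← hv, LinearMap.baseChange_tmul, hPv, TensorProduct.tmul_zero]
      rw [h1, map_zero, Finsupp.zero_apply] at hi'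
      exact zero_ne_one hi'
  intro x hx
  have h1 : P.baseChange L x = 0 := by
    refine key _ _ ?_ ?_ rfl
    · have h2 : P.baseChange L x = x - (x - P.baseChange L x) := by abel
      rw [h2]
      exact S.sub_mem hx (hUS (hP3 x))
    · have h3 : P.comp P = P := by
        refine LinearMap.ext fun v => ?_
        exact Submodule.projection_apply_of_mem_left hW.symm (hP2 v)
      rw [← LinearMap.comp_apply, ← LinearMap.baseChange_comp, h3]
  have h2 := hP3 x
  rwa [h1, sub_zero] at h2

end const

end Pool.Agent.Q50.DR
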