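import Pool.Agent.Q50.DR.Defs

/-!
# The space of periods: definitions
-/

namespace Pool.Agent.Q50.DR

open Pool.Agent.Y121.AHS (Ext)

section Alg

variable {K A : Type} [Field K] [Ring A] [Algebra K A] [Algebra K ℂ]

/-- The endomorphism `b` commutes with all endomorphisms which preserve the degrees and the Hodge
decomposition. -/
def CommHodge (gr : ℕ → Submodule K A) (h : Ext K ℂ A → Ext K ℂ A) (b : A →ₗ[K] A) : Prop :=
  ∀ P, RespHodge gr h P → ∀ a, b (P a) = P (b a)

/-- The dimension over `K` of the space spanned by `S`. -/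
noncomputable def dimSpan (K : Type) [Field K] [Algebra K ℂ] (S : Set ℂ) : ℕ :=
  Module.finrank K (Submodule.span K S)

end Alg

end Pool.Agent.Q50.DR
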