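import Pool.Agent.Q50.DR.Defs

/-!
# De Rham-Betti endomorphisms and sub-objects: definitions
-/

open CategoryTheory AlgebraicGeometry

universe u

namespace Pool.Agent.Q50.DR

open Pool.Agent.H914 Pool.Agent.H914.VarClass Pool.Agent.H914.VarClass.Obj
  Pool.Agent.H914.WeilCohomology
open Pool.Agent.Y121.AHS (Ext extMap extSub Comparison)
open Pool.Agent.Y133.Half (pw)
open Pool.Agent.Q50.MTC (HodgeDecomposition IsHodge Mem)

section Alg

variable {K F A B : Type} [Field K] [Field F] [Ring A] [Algebra K A] [Ring B] [Algebra F B]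
  [Algebra K ℂ] [Algebra F ℂ]

/-- The endomorphism `P` of `A` preserves the degrees, and under `e` it corresponds to an
endomorphism of `B`. -/
def RespDRB (gr : ℕ → Submodule K A) (e : Ext K ℂ A → Ext F ℂ B) (P : A →ₗ[K] A) : Prop :=
  (∀ i, ∀ a ∈ gr i, P a ∈ gr i) ∧
    ∃ P' : B →ₗ[F] B, ∀ x, e (extMap K ℂ P x) = extMap F ℂ P' (e x)

/-- The endomorphism `Z` is an element of the centre of the algebra of these endomorphisms. -/
def IsCentralDRB (gr : ℕ → Submodule K A) (e : Ext K ℂ A → Ext F ℂ B) (Z : A →ₗ[K] A) : Prop :=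
  RespDRB gr e Z ∧ ∀ P, RespDRB gr e P → ∀ a, Z (P a) = P (Z a)

/-- The subspace `U` of `A` is the sum of its homogeneous parts, and under `e` its extension
corresponds to the extension of a subspace of `B`. -/
def IsSub (gr : ℕ → Submodule K A) (e : Ext K ℂ A → Ext F ℂ B) (U : Submodule K A) : Prop :=
  U ≤ (⨆ i, U ⊓ gr i) ∧ ∃ U' : Submodule F B, ∀ x, x ∈ extSub K ℂ U ↔ e x ∈ extSub F ℂ U'

/-- Every such subspace has such a complement. -/
def IsSemi (gr : ℕ → Submodule K A) (e : Ext K ℂ A → Ext F ℂ B) : Prop :=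
  ∀ U, IsSub gr e U → ∃ U', IsSub gr e U' ∧ IsCompl U U'

end Alg

/-- The endomorphism `Z`, acting as a derivation, kills the multilinear form
`a ↦ tr (c * m a)`. -/
def KillsForm {K A B : Type} [Field K] [Ring A] [Algebra K A] [Ring B] [Algebra K B] {n : ℕ}
    (m : (Fin n → A) → B) (tr : B →ₗ[K] K) (Z : A →ₗ[K] A) (c : B) : Prop :=
  ∀ a, ∑ i, tr (c * m (Function.update a i (Z (a i)))) = 0

variable {k : Type u} [Field k] {𝒱 : VarClass k} {ops : CycleOps 𝒱}
  {W D : WeilCohomology.{u, 0} ops} [Algebra W.K ℂ] [Algebra D.K ℂ]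

/-- The endomorphisms of `H(X)`. -/
abbrev Endo (W : WeilCohomology.{u, 0} ops) (X : 𝒱.Obj) : Type := W.H X →ₗ[W.K] W.H X

/-- The endomorphism `Z` of `H(X)` kills, as a derivation, the class `c` on the product of `n + 1`
copies of `X`. -/
def KillsClass (W : WeilCohomology.{u, 0} ops) (X : 𝒱.Obj) (Z : Endo W X) (n : ℕ)
    (c : W.H (pw X n)) : Prop :=
  KillsForm (cross W X n) (W.tr (pw X n)) Z c

/-- The endomorphism `Z` of `H(X)` kills the classes of all algebraic cycles on all powers of
`X`. -/
def KillsCycles (W : WeilCohomology.{u, 0} ops) (X : 𝒱.Obj) (Z : Endo W X) : Prop :=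
  ∀ n j z, (pw X n).IsCyc j z → KillsClass W X Z n (W.cl (pw X n) z)

/-- The class `c` is killed by the endomorphisms of `H(X)` with the property `p` which kill the
classes of all algebraic cycles on all powers of `X`. -/
def KilledBy (X : 𝒱.Obj) (p : Endo W X → Prop) (n : ℕ) (c : W.H (pw X n)) : Prop :=
  ∀ Z, p Z → KillsCycles W X Z → KillsClass W X Z n c

/-- Every Hodge class of codimension `j` on the product of `n + 1` copies of `X` which is killed by
the centre of the algebra of the endomorphisms of the Hodge structure `H(X)` is a de Rham-Betti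
class. -/
def HodgeToDRB (T : HodgeDecomposition W) (C : Comparison W D ℂ) (X : 𝒱.Obj) (n j : ℕ) : Prop :=
  ∀ c, IsHodge T (pw X n) j c → KilledBy X (IsCentral (W.gr X) (T.h X)) n c →
    IsDRB C (pw X n) j c

/-- Every de Rham-Betti class of codimension `j` on the product of `n + 1` copies of `X` which is
killed by the centre of the algebra of the endomorphisms of the de Rham-Betti structure `H(X)` is a
Hodge class. -/
def DRBToHodge (T : HodgeDecomposition W) (C : Comparison W D ℂ) (X : 𝒱.Obj) (n j : ℕ) : Prop :=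
  ∀ c, Mem (W.gr (pw X n) (2 * j)) c → IsDRB C (pw X n) j c →
    KilledBy X (IsCentralDRB (W.gr X) (C.e X)) n c → IsHodge T (pw X n) j c

end Pool.Agent.Q50.DR
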