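import Pool.Agent.Q50.DR.Cen

/-!
# The transcendence degree of the field of periods
-/

open CategoryTheory AlgebraicGeometry TensorProduct

universe u

set_option linter.unusedSectionVars false

namespace Pool.Agent.Q50.DR

open Module Pool.Agent.H204R3.SP Pool.Agent.W516.DR
open Pool.Agent.H914 Pool.Agent.H914.VarClass Pool.Agent.H914.VarClass.Obj
  Pool.Agent.H914.WeilCohomology
open Pool.Agent.Y133.Half Pool.Agent.Y121.AH Pool.Agent.Q50.FP Pool.Agent.W516.KC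
open Pool.Agent.Q50.MTC (HodgeDecomposition fx fx_em fx_apply)
open Pool.Agent.Y121.AHS (extMap Ext extForm emL toC toE)

variable {k : Type u} [Field k] {𝒱 : VarClass k} {ops : CycleOps 𝒱}
  {W D : WeilCohomology.{u, 0} ops} [Algebra W.K ℂ] [Algebra D.K ℂ] {T : HodgeDecomposition W}
  {X Y : 𝒱.Obj} {n : ℕ}

theorem fx_dX (d : ℂ →ₗ[W.K] ℂ) (g : W.H X →ₗ[W.K] W.K) (y : (baseW W ℂ).H X) :
    fx g (dX d X y) = dk d (fx g y) := by
  refine base_ind (p := fun y => fx g (dX d X y) = dk d (fx g y)) ?_ ?_ y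
  · intro l a
    rw [dX_smul_em, map_smul, map_smul, fx_em, smul_eq_mul, smul_eq_mul, dk_mul_ex]
  · intro a b ha hb
    rw [dX_add, map_add, ha, hb, map_add, dk_add]

section main

variable (hrat : ∀ r : W.K, ∃ q : ℚ, (q : W.K) = r) (δ : Derivation D.K ℂ ℂ)
  (C : Comparison (baseW W ℂ) (baseW D ℂ)) (hs : ∀ z : ℂ, (show ℂ from C.s z) = z)

/-- The period given by a linear form and a class. -/
noncomputable def per (X : 𝒱.Obj) (I : (D.H X →ₗ[D.K] D.K) × W.H X) : ℂ :=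
  show ℂ from fx I.1 (C.e X (em W ℂ I.2))

/-- The derivative of a period. -/
theorem per_deriv (I : (D.H X →ₗ[D.K] D.K) × W.H X) : δ (per C X I) =
    (show ℂ from fx I.1 (C.e X (Dd hrat δ C hs X (em W ℂ I.2)))) := by
  rw [Dd_apply, dX_em _ (dW_mul hrat δ), sub_zero, (C.e X).apply_symm_apply, fx_dX]
  rfl

/-- The values given by an endomorphism. -/
noncomputable def vals (X : 𝒱.Obj) :
    Module.End ℂ (ℂ ⊗[W.K] W.H X) →ₗ[ℂ] ((D.H X →ₗ[D.K] D.K) × W.H X → ℂ) where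
  toFun E I := show ℂ from fx I.1 (C.e X (E ((1 : ℂ) ⊗ₜ[W.K] I.2)))
  map_add' E E' := by
    funext I
    change (show ℂ from fx I.1 (C.e X (show (baseW W ℂ).H X from E ((1 : ℂ) ⊗ₜ[W.K] I.2) +
      E' ((1 : ℂ) ⊗ₜ[W.K] I.2)))) = _
    exact congrArg (fun x => (show ℂ from x)) ((congrArg (fx I.1) (map_add (C.e X) _ _)).trans
      (map_add (fx I.1) _ _))
  map_smul' r E := by
    funext I
    have h1 := C.semi X (show (baseW W ℂ).K from r)
      (show (baseW W ℂ).H X from E ((1 : ℂ) ⊗ₜ[W.K] I.2))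
    have h2 := (congrArg (fx I.1) h1).trans (map_smul (fx I.1) _ _)
    have h3 : (show ℂ from C.s (show (baseW W ℂ).K from r)) = r := hs r
    have h4 : (show ℂ from C.s (show (baseW W ℂ).K from r)) •
        (show ℂ from fx I.1 (C.e X (E ((1 : ℂ) ⊗ₜ[W.K] I.2)))) =
        r • (show ℂ from fx I.1 (C.e X (E ((1 : ℂ) ⊗ₜ[W.K] I.2)))) := by rw [h3]
    exact h2.trans h4

variable {C}

/-- **The transcendence degree of the field of periods.** -/
theorem trdeg_per (𝔥 : Submodule W.K (Module.End W.K (W.H X)))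
    (h : ∀ (δ : Derivation D.K ℂ ℂ) (ν : ℂ →ₗ[W.K] W.K), cE ν (Dd hrat δ C hs X) ∈ 𝔥) :
    Algebra.trdeg D.K (IntermediateField.adjoin D.K (Set.range (per C X))) ≤
      Module.finrank W.K 𝔥 := by
  obtain ⟨hfd, hle⟩ := finrank_span_le (K := W.K) (V := W.H X) 𝔥
  set S := Submodule.span ℂ ((fun A : Module.End W.K (W.H X) => A.baseChange ℂ) '' 𝔥) with hS
  refine (trdeg_le (per C X) (S.map (vals C hs X)) fun δ => ?_).trans ?_
  · refine ⟨(show Module.End ℂ (ℂ ⊗[W.K] W.H X) from Dd hrat δ C hs X),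
      mem_span_of_cmp 𝔥 _ fun ν => h δ ν, ?_⟩
    funext I
    exact (per_deriv hrat δ C hs I).symm
  · exact_mod_cast (Submodule.finrank_map_le _ _).trans hle

end main

/-- The set of the periods. -/
theorem periods_eq (C : Pool.Agent.Y121.AHS.Comparison W D ℂ) :
    periods C X = Set.range (per (toC C) X) := by
  ext z
  constructor
  · rintro ⟨f, x, ⟨c, rfl⟩, rfl⟩
    exact ⟨(f, c), rfl⟩
  · rintro ⟨⟨f, c⟩, rfl⟩
    exact ⟨f, _, ⟨c, rfl⟩, rfl⟩

theorem drb_of_isDRB {C : Pool.Agent.Y121.AHS.Comparison W D ℂ} {j : ℕ} {c : W.H Y}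
    (h : IsDRB C Y j c) : Drb (toC C) Y j c := h

/-- **The main theorem.** -/
theorem main (T : HodgeDecomposition W) (C : Pool.Agent.Y121.AHS.Comparison W D ℂ)
    (hC : C.s = RingEquiv.refl ℂ) (X : 𝒱.Obj)
    (h2 : ∀ c, MTC.IsHodge T (pw X 1) X.dim c → IsDRB C (pw X 1) X.dim c)
    (h4 : ∀ c, MTC.IsHodge T (pw X 3) (2 * X.dim) c → IsDRB C (pw X 3) (2 * X.dim) c) :
    trdegOf D.K (periods C X) ≤ dimEnd fun Z => InMT T X Z ∨ InCentre T X Z := by
  have hs : ∀ z : ℂ, (show ℂ from (toC C).s z) = z := by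
    intro z
    change C.s z = z
    rw [hC]
    rfl
  rw [periods_eq]
  exact trdeg_per T.rat hs _ fun δ ν => cE_mem T.rat δ hs h2 h4 ν

end Pool.Agent.Q50.DR
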