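import Pool.Agent.Q50.DR.Thm
import Pool.Agent.Q50.DR.Per
import Pool.Agent.Q50.DR.Defs2

/-!
# The dimension of the space of the periods of the square decides
-/

open CategoryTheory AlgebraicGeometry TensorProduct

universe u

set_option linter.unusedSectionVars false

namespace Pool.Agent.Q50.DR

open Module Pool.Agent.H204R3.SP Pool.Agent.W516.DR
open Pool.Agent.H914 Pool.Agent.H914.VarClass Pool.Agent.H914.VarClass.Obj
  Pool.Agent.H914.WeilCohomology
open Pool.Agent.Y133.Half Pool.Agent.Y121.AH Pool.Agent.Q50.FP Pool.Agent.W516.KC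
open Pool.Agent.Q50.MTC (HodgeDecomposition mt mtp mtp_semi mtp_br mtp_skew mem_mtp dn_mtp mt_le
  hodge_of_mtp kills_of_comm yy yy_apply yy_kills yy_mt mt_comm mt_dn mt_br hh hC hh_cl hh_of_kills
  yy_skew yy_dn em_dg cC_dg hh_drv exists_complement)
open Pool.Agent.Y121.AHS (extMap Ext extForm emL toC toE)

variable {k : Type u} [Field k] {𝒱 : VarClass k} {ops : CycleOps 𝒱}
  {W D : WeilCohomology.{u, 0} ops} [Algebra W.K ℂ] [Algebra D.K ℂ] {T : HodgeDecomposition W}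
  {X Y : 𝒱.Obj} {n : ℕ}

theorem kills_add_smul {K V : Type*} [Field K] [AddCommGroup V] [Module K V] {κ : Type*}
    [Fintype κ] [DecidableEq κ] {φ : MultilinearMap K (fun _ : κ => V) K}
    {A B : Module.End K V} (hA : Kills A φ) (hB : Kills B φ) (r : K) : Kills (A + r • B) φ := by
  intro v
  have h1 : ∀ i, φ (Function.update v i ((A + r • B) (v i))) =
      φ (Function.update v i (A (v i))) + r * φ (Function.update v i (B (v i))) := by
    intro i
    rw [LinearMap.add_apply, LinearMap.smul_apply, MultilinearMap.map_update_add,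
      MultilinearMap.map_update_smul, smul_eq_mul]
  rw [Finset.sum_congr rfl fun i _ => h1 i, Finset.sum_add_distrib, ← Finset.mul_sum, hA v, hB v,
    mul_zero, add_zero]

theorem kills_mtp {κ : Type} [Fintype κ] [DecidableEq κ]
    {φ : MultilinearMap W.K (fun _ : κ => W.H X) W.K} (h1 : ∀ ν, Kills (yy T X ν) φ)
    (h2 : Kills (dn W X) φ) : ∀ Z ∈ mtp T X, Kills Z φ := by
  intro Z hZ
  obtain ⟨A, hA, r, rfl⟩ := mem_mtp.1 hZ
  exact kills_add_smul (Pool.Agent.Q50.MTC.mt_kills h1 hA) h2 r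

theorem kills_four_yy (P : Module.End W.K (W.H (pw X 1))) (ν : ℂ →ₗ[W.K] W.K) :
    Kills (yy T X ν) (four ((prg W (pw X 1)).comp P) (mpr W X 1)) ↔
      yy T (pw X 1) ν * P = P * yy T (pw X 1) ν :=
  kills_four prg_nondeg hm_mpr hm_mpr (cE_mpr2 (hh_drv T) ν) (yy_skew ν) P

theorem kills_four_dn (P : Module.End W.K (W.H (pw X 1))) :
    Kills (dn W X) (four ((prg W (pw X 1)).comp P) (mpr W X 1)) ↔
      dn W (pw X 1) * P = P * dn W (pw X 1) :=
  kills_four prg_nondeg hm_mpr hm_mpr dn_mpr2 dn_skew P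

theorem dg_of_dn {P : Module.End W.K (W.H Y)} (h : dn W Y * P = P * dn W Y) :
    dg W Y * P = P * dg W Y := LinearMap.ext fun x => comm_dg_of_dn h x

variable (hrat : ∀ r : W.K, ∃ q : ℚ, (q : W.K) = r) (δ : Derivation D.K ℂ ℂ)
  {C : Comparison (baseW W ℂ) (baseW D ℂ)} (hs : ∀ z : ℂ, (show ℂ from C.s z) = z)

theorem kills_four_zz (P : Module.End W.K (W.H (pw X 1))) (ν : ℂ →ₗ[W.K] W.K) :
    Kills (zz hrat δ C hs X ν) (four ((prg W (pw X 1)).comp P) (mpr W X 1)) ↔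
      zz hrat δ C hs (pw X 1) ν * P = P * zz hrat δ C hs (pw X 1) ν :=
  kills_four prg_nondeg hm_mpr hm_mpr (cE_mpr2 (Dn_drv hrat δ C hs) ν)
    (zz_skew hrat δ C hs ν) P

/-- The pairs of corresponding endomorphisms. -/
def prs (T : HodgeDecomposition W) (C : Comparison (baseW W ℂ) (baseW D ℂ))
    (hs : ∀ z : ℂ, (show ℂ from C.s z) = z) (Y : 𝒱.Obj) :
    Set ((W.H Y →ₗ[W.K] W.H Y) × (D.H Y →ₗ[D.K] D.H Y)) :=
  {p | RespHodge (W.gr Y) (T.h Y) p.1 ∧ ∀ x : ℂ ⊗[W.K] W.H Y,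
    CL C hs Y (p.1.baseChange ℂ x) = p.2.baseChange ℂ (CL C hs Y x)}

/-- The commutant. -/
def cmt (T : HodgeDecomposition W) (Y : 𝒱.Obj) : Submodule W.K (Module.End W.K (W.H Y)) where
  carrier := {b | CommHodge (W.gr Y) (T.h Y) b}
  zero_mem' := fun P _ a => (map_zero P).symm
  add_mem' := by
    intro a b ha hb P hP x
    rw [LinearMap.add_apply, LinearMap.add_apply, ha P hP, hb P hP, map_add]
  smul_mem' := by
    intro r a ha P hP x
    rw [LinearMap.smul_apply, LinearMap.smul_apply, ha P hP, map_smul]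

theorem yy_cmt (ν : ℂ →ₗ[W.K] W.K) : yy T Y ν ∈ cmt T Y :=
  fun _ hP a => LinearMap.congr_fun ((respHodge_iff.1 hP).2 ν) a

section main

variable (h4 : ∀ c, MTC.IsHodge T (pw X 3) (2 * X.dim) c → Drb C (pw X 3) (2 * X.dim) c)

include hrat h4 in
theorem exists_pair [IsAlgClosed D.K] {P : Module.End W.K (W.H (pw X 1))}
    (hP : RespHodge (W.gr (pw X 1)) (T.h (pw X 1)) P) :
    ∃ P', (P, P') ∈ prs T C hs (pw X 1) := by
  obtain ⟨h1, h2⟩ := respHodge_iff.1 hP
  have h3 : ∀ Z ∈ mtp T X, Kills Z (four ((prg W (pw X 1)).comp P) (mpr W X 1)) :=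
    kills_mtp (fun ν => (kills_four_yy P ν).2 (h2 ν)) ((kills_four_dn P).2 h1.symm)
  obtain ⟨P', hP'⟩ := exists_rat_end hrat hs (P := P)
    (fun δ ν => (kills_four_zz hrat δ hs P ν).1 (zz_kills4 (T := T) hrat δ hs h4 ν h3))
    (dg_of_dn h1.symm)
  exact ⟨P', hP, hP'⟩

variable (hdim : finrank W.K (cmt T (pw X 1)) ≤ finrank D.K (pspace (CL C hs (pw X 1))))

include hrat h4 hdim in
/-- The relations between the periods of the square. -/
theorem rel_sq [IsAlgClosed D.K] {ι : Type} [Fintype ι] (f : ι → (D.H (pw X 1) →ₗ[D.K] D.K))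
    (v : ι → W.H (pw X 1)) (h : ∑ i, xf (f i) (CL C hs (pw X 1) ((1 : ℂ) ⊗ₜ[W.K] v i)) = 0)
    (ν : ℂ →ₗ[W.K] W.K) :
    ∑ i, xf (f i) (CL C hs (pw X 1) ((1 : ℂ) ⊗ₜ[W.K] yy T (pw X 1) ν (v i))) = 0 := by
  refine rel_stable (CL C hs (pw X 1)) hrat (A := prs T C hs (pw X 1)) (fun p hp => hp.2)
    (cmt T (pw X 1)) (fun b => ⟨fun hb p hp x => hb _ hp.1 x, fun hb P hP x => ?_⟩) hdim f v h
    (yy_cmt ν)
  obtain ⟨P', hP'⟩ := exists_pair hrat hs h4 hP
  exact hb _ hP' x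

include hrat h4 hdim in
/-- **De Rham-Betti classes on the fourth power are Hodge classes.** -/
theorem hodge_of_dim [IsAlgClosed D.K] {c : W.H (pw X 3)}
    (hc : c ∈ W.gr (pw X 3) (2 * (2 * X.dim))) (hd : Drb C (pw X 3) (2 * X.dim) c) :
    MTC.IsHodge T (pw X 3) (2 * X.dim) c := by
  obtain ⟨P, hP⟩ := exists_end4 (frm W X 3 c)
  have h1 : ∀ (δ : Derivation D.K ℂ ℂ) ν,
      zz hrat δ C hs (pw X 1) ν * P = P * zz hrat δ C hs (pw X 1) ν := by
    intro δ ν
    rw [← kills_four_zz, ← hP]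
    exact zz_kills_drb hrat δ hs ν hc hd
  have h2 : dn W (pw X 1) * P = P * dn W (pw X 1) := by
    rw [← kills_four_dn, ← hP]
    intro v
    have h3 := (frm_dg_iff (M := 2 * X.dim) (j := 2 * X.dim) (by rw [dim_pw]; ring)).2 hc v
    rw [dn, sum_sub_smul, sum_one, Fintype.card_fin, h3]
    push_cast
    ring
  obtain ⟨P', hP'⟩ := exists_rat_end hrat hs h1 (dg_of_dn h2)
  refine ⟨hc, hh_of_kills fun ν => ?_⟩
  rw [hP, kills_four_yy]
  refine LinearMap.ext fun y => ?_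
  rw [Module.End.mul_apply, Module.End.mul_apply]
  -- the relation
  have h3 : ∀ f : D.H (pw X 1) →ₗ[D.K] D.K,
      xf f (CL C hs (pw X 1) ((1 : ℂ) ⊗ₜ[W.K] (P (yy T (pw X 1) ν y) -
        yy T (pw X 1) ν (P y)))) = 0 := by
    intro f
    have h4' := rel_sq hrat hs h4 hdim (ι := Fin 2) ![f.comp P', -f] ![y, P y] (by
      rw [Fin.sum_univ_two]
      change xf (f.comp P') (CL C hs (pw X 1) ((1 : ℂ) ⊗ₜ[W.K] y)) +
        xf (-f) (CL C hs (pw X 1) ((1 : ℂ) ⊗ₜ[W.K] P y)) = 0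
      have h5 := hP' ((1 : ℂ) ⊗ₜ[W.K] y)
      rw [LinearMap.baseChange_tmul] at h5
      have h6 : ∀ z, xf (-f) z = -xf f z := by
        intro z
        induction z with
        | zero => rw [map_zero, map_zero, neg_zero]
        | add a b ha hb => rw [map_add, map_add, ha, hb, neg_add]
        | tmul l a => rw [xf_tmul, xf_tmul, LinearMap.neg_apply, map_neg, neg_mul]
      rw [xf_comp, h6, h5, add_neg_cancel]) ν
    rw [Fin.sum_univ_two] at h4'
    change xf (f.comp P') (CL C hs (pw X 1) ((1 : ℂ) ⊗ₜ[W.K] yy T (pw X 1) ν y)) +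
      xf (-f) (CL C hs (pw X 1) ((1 : ℂ) ⊗ₜ[W.K] yy T (pw X 1) ν (P y))) = 0 at h4'
    have h5 := hP' ((1 : ℂ) ⊗ₜ[W.K] yy T (pw X 1) ν y)
    rw [LinearMap.baseChange_tmul] at h5
    have h6 : ∀ z, xf (-f) z = -xf f z := by
      intro z
      induction z with
      | zero => rw [map_zero, map_zero, neg_zero]
      | add a b ha hb => rw [map_add, map_add, ha, hb, neg_add]
      | tmul l a => rw [xf_tmul, xf_tmul, LinearMap.neg_apply, map_neg, neg_mul]
    rw [xf_comp, h6, ← h5] at h4'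
    rw [TensorProduct.tmul_sub, map_sub, map_sub]
    linear_combination h4'
  have h5 := eq_zero_of_xf h3
  have h6 := eq_zero_of_tmul ((map_eq_zero_iff _ (CL C hs (pw X 1)).injective).1 h5)
  exact (sub_eq_zero.1 h6).symm

/-- The section of the projection. -/
theorem exists_section (X : 𝒱.Obj) : ∃ s : X ⟶ pw X 1, s ≫ prj X 1 0 = 𝟙 X :=
  ⟨liftN X 1 fun _ => 𝟙 X, liftN_prj 1 _ 0⟩

theorem xf_map {Y Z : 𝒱.Obj} (s : Y ⟶ Z) (f : D.H Y →ₗ[D.K] D.K) (z : (baseW D ℂ).H Z) :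
    xf (f.comp (D.map s).toLinearMap) (show ℂ ⊗[D.K] D.H Z from z) =
      xf f (show ℂ ⊗[D.K] D.H Y from (baseW D ℂ).map s z) := by
  refine base_ind (p := fun z => xf (f.comp (D.map s).toLinearMap) (show ℂ ⊗[D.K] D.H Z from z) =
      xf f (show ℂ ⊗[D.K] D.H Y from (baseW D ℂ).map s z)) ?_ ?_ z
  · intro l a
    have h1 : (baseW D ℂ).map s (l • em D ℂ a) = l • em D ℂ (D.map s a) := by
      rw [map_smul, em_map]
    have h2 : ∀ {Y : 𝒱.Obj} (a : D.H Y) (f : D.H Y →ₗ[D.K] D.K),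
        xf f (show ℂ ⊗[D.K] D.H Y from l • em D ℂ a) =
          (show ℂ from l) * algebraMap D.K ℂ (f a) := by
      intro Y a f
      have h3 : xf f ((show ℂ from l) • ((1 : ℂ) ⊗ₜ[D.K] a)) =
          (show ℂ from l) * algebraMap D.K ℂ (f a) := by
        rw [map_smul, xf_tmul, mul_one, smul_eq_mul]
      exact h3
    rw [h1, h2, h2]
    rfl
  · intro a b ha hb
    have h1 : (baseW D ℂ).map s (a + b) = (baseW D ℂ).map s a + (baseW D ℂ).map s b :=
      map_add _ a b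
    rw [h1]
    exact (map_add (xf (f.comp (D.map s).toLinearMap)) _ _).trans
      ((congrArg₂ (· + ·) ha hb).trans (map_add (xf f) _ _).symm)

include hrat h4 hdim in
/-- **The sub-objects are Hodge substructures.** -/
theorem yy_stab [IsAlgClosed D.K] {U : Submodule W.K (W.H X)} (hU : SubObj C X U)
    (ν : ℂ →ₗ[W.K] W.K) : ∀ u ∈ U, yy T X ν u ∈ U := by
  obtain ⟨-, U', h2⟩ := hU
  intro u hu
  obtain ⟨s, hs'⟩ := exists_section X
  refine mem_of_tmul ((h2 _).2 (mem_of_xf fun f hf => ?_))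
  -- the pull-back
  have key : ∀ u : W.H X, xf (f.comp (D.map s).toLinearMap)
      (CL C hs (pw X 1) ((1 : ℂ) ⊗ₜ[W.K] W.map (prj X 1 0) u)) =
        xf f (show ℂ ⊗[D.K] D.H X from C.e X (em W ℂ u)) := by
    intro u
    have h3 : CL C hs (pw X 1) ((1 : ℂ) ⊗ₜ[W.K] W.map (prj X 1 0) u) =
        (show ℂ ⊗[D.K] D.H (pw X 1) from (baseW D ℂ).map (prj X 1 0) (C.e X (em W ℂ u))) := by
      have h4 : C.e (pw X 1) (em W ℂ (W.map (prj X 1 0) u)) =
          (baseW D ℂ).map (prj X 1 0) (C.e X (em W ℂ u)) := by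
        rw [← em_map, C.nat]
      exact h4
    rw [h3, xf_map]
    congr 1
    change (baseW D ℂ).map s ((baseW D ℂ).map (prj X 1 0) (C.e X (em W ℂ u))) = _
    rw [← (baseW D ℂ).map_comp, hs', (baseW D ℂ).map_id]
  have h3 := rel_sq hrat hs h4 hdim (ι := Fin 1) (fun _ => f.comp (D.map s).toLinearMap)
    (fun _ => W.map (prj X 1 0) u) (by
      rw [Fin.sum_univ_one, key]
      exact xf_of_mem ((h2 _).1 (Submodule.tmul_mem_baseChange_of_mem _ hu)) hf) ν
  rw [Fin.sum_univ_one] at h3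
  have h5 : yy T (pw X 1) ν (W.map (prj X 1 0) u) = W.map (prj X 1 0) (yy T X ν u) :=
    cE_map (hh_drv T) ν _ u
  rw [h5, key] at h3
  exact h3

include hrat hs h4 hdim in
/-- **Semisimplicity.** -/
theorem semi_of_dim [IsAlgClosed D.K] (U : Submodule W.K (W.H X)) (hU : SubObj C X U) :
    ∃ U', SubObj C X U' ∧ IsCompl U U' := by
  have h1 := yy_stab hrat hs h4 hdim hU
  have hd := dg_of_graded hU.1
  obtain ⟨U', h2, h3, h5⟩ := exists_complement (T := T) h1 hd
  refine ⟨U', subObj_of_stab hrat hs (fun δ ν u hu => ?_) h3, h5⟩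
  let P : Module.End W.K (W.H X) := U'.projection U h5.symm
  have hP1 : ∀ ν, yy T X ν * P = P * yy T X ν := fun ν =>
    LinearMap.ext fun x => proj_comm h5.symm (h2 ν) (h1 ν) x
  have hP2 : dg W X * P = P * dg W X :=
    LinearMap.ext fun x => proj_comm h5.symm h3 hd x
  have hP3 : ∀ Z ∈ mtp T X, Z * P = P * Z := by
    intro Z hZ
    obtain ⟨A, hA, r, rfl⟩ := mem_mtp.1 hZ
    have h6 : dn W X * P = P * dn W X := by
      rw [dn, mul_sub, sub_mul, hP2, mul_smul_comm, smul_mul_assoc, mul_one, one_mul]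
    rw [add_mul, mul_add, mt_comm hP1 hA, smul_mul_assoc, mul_smul_comm, h6]
  have h6 := zz_comm (T := T) hrat δ hs h4 ν hP3
  have h7 : P u = u := Submodule.projection_apply_of_mem_left h5.symm hu
  have h8 : zz hrat δ C hs X ν u = P (zz hrat δ C hs X ν u) := by
    conv_lhs => rw [← h7]
    exact LinearMap.congr_fun h6 u
  rw [h8]
  change U'.projection U h5.symm _ ∈ U'
  rw [Submodule.projection_apply]
  exact SetLike.coe_mem _

end main

/-- **The main theorem.** -/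
theorem main2 (T : HodgeDecomposition W) (C : Pool.Agent.Y121.AHS.Comparison W D ℂ)
    (hC : C.s = RingEquiv.refl ℂ) [IsAlgClosed D.K] (X : 𝒱.Obj)
    (h4 : ∀ c, MTC.IsHodge T (pw X 3) (2 * X.dim) c → IsDRB C (pw X 3) (2 * X.dim) c)
    (hdim : dimEnd (CommHodge (W.gr (pw X 1)) (T.h (pw X 1))) ≤
      dimSpan D.K (periods C (pw X 1))) (n j : ℕ) (c : W.H (pw X n))
    (hc : MTC.Mem (W.gr (pw X n) (2 * j)) c)
    (hz : ∀ Z, InCentre T X Z → ActsBy W X Z n c 0) :
    MTC.IsHodge T (pw X n) j c ↔ IsDRB C (pw X n) j c := by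
  have hs : ∀ z : ℂ, (show ℂ from (toC C).s z) = z := by
    intro z
    change C.s z = z
    rw [hC]
    rfl
  have h1 : finrank W.K (cmt T (pw X 1)) ≤ finrank D.K (pspace (CL (toC C) hs (pw X 1))) := by
    have h2 : Submodule.span W.K {Z | CommHodge (W.gr (pw X 1)) (T.h (pw X 1)) Z} =
        cmt T (pw X 1) := Submodule.span_eq (cmt T (pw X 1))
    have h3 : periods C (pw X 1) = Set.range (pd (CL (toC C) hs (pw X 1))) := by
      rw [periods_eq]
      rfl
    unfold dimEnd dimSpan at hdim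
    rw [h2, h3] at hdim
    exact hdim
  constructor
  · intro h
    exact drb_of_hodge T.rat hs h4 h hz
  · intro h
    exact hodge_of_drb T.rat hs (semi_of_dim T.rat hs h4 h1) h4
      (fun c hc hd => hodge_of_dim T.rat hs h4 h1 hc hd) hc h hz

end Pool.Agent.Q50.DR
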