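import Pool.Agent.Q50.DR.Thm
import Pool.Agent.Q50.DR.Per
import Pool.Agent.Q50.DR.Defs3

/-!
# The classes on the fourth power decide
-/

open CategoryTheory AlgebraicGeometry TensorProduct

universe u

set_option linter.unusedSectionVars false

namespace Pool.Agent.Q50.DR

open Module Pool.Agent.H204R3.SP Pool.Agent.W516.DR
open Pool.Agent.H914 Pool.Agent.H914.VarClass Pool.Agent.H914.VarClass.Obj
  Pool.Agent.H914.WeilCohomology
open Pool.Agent.Y133.Half Pool.Agent.Y121.AH Pool.Agent.Q50.FP Pool.Agent.W516.KC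
open Pool.Agent.Q50.MTC (HodgeDecomposition mt mtp mtp_semi mtp_br mtp_skew mem_mtp dn_mtp mt_le
  hodge_of_mtp kills_of_comm yy yy_apply yy_kills yy_mt mt_comm mt_dn mt_br hh hC hh_cl hh_of_kills
  yy_skew yy_dn em_dg cC_dg hh_drv exists_complement)
open Pool.Agent.Y121.AHS (extMap Ext extForm emL toC toE)

variable {k : Type u} [Field k] {𝒱 : VarClass k} {ops : CycleOps 𝒱}
  {W D : WeilCohomology.{u, 0} ops} [Algebra W.K ℂ] [Algebra D.K ℂ] {T : HodgeDecomposition W}
  {X Y : 𝒱.Obj} {n : ℕ}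

/-- An endomorphism preserves the degrees if and only if it commutes with the degree operator. -/
theorem resp_gr_iff {P : Module.End W.K (W.H Y)} :
    (∀ i, ∀ a ∈ W.gr Y i, P a ∈ W.gr Y i) ↔ dg W Y * P = P * dg W Y := by
  constructor
  · intro h1
    refine LinearMap.ext fun x => ?_
    rw [Module.End.mul_apply, Module.End.mul_apply]
    refine dg_ind (p := fun x => dg W Y (P x) = P (dg W Y x)) ?_ ?_ x
    · intro i x hx
      rw [dg_of hx, dg_of (h1 i x hx), map_smul]
    · intro a b ha hb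
      rw [map_add, map_add, ha, hb, map_add, map_add]
  · intro h i x hx
    have h3 : dg W Y (P x) = P (dg W Y x) := LinearMap.congr_fun h x
    exact mem_gr_iff.2 (by rw [h3, dg_of hx, map_smul])

theorem dn_comm_of_dg {P : Module.End W.K (W.H Y)} (h : dg W Y * P = P * dg W Y) :
    P * dn W Y = dn W Y * P := by
  rw [dn, mul_sub, sub_mul, h, mul_smul_comm, smul_mul_assoc, mul_one, one_mul]

/-- The form of the class of the diagonal. -/
theorem exists_diag (W : WeilCohomology.{u, 0} ops) (X : 𝒱.Obj) :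
    ∃ z, (pw X 1).IsCyc X.dim z ∧ frm W X 1 (W.cl (pw X 1) z) = two (prg W X) := by
  let s : X ⟶ pw X 1 := liftN X 1 fun _ => 𝟙 X
  refine ⟨ops.push s X.V.fundCycle, ops.push_mem s (p := 0) X.V.fundCycle_mem ?_, ?_⟩
  · rw [dim_pw]
    ring
  · refine MultilinearMap.ext fun v => ?_
    rw [two_apply, frm_apply, W.cl_push, W.cl_fund, W.tr_push, one_mul, mpr_apply, map_list_prod,
      List.map_ofFn, prg_apply]
    have h1 : ∀ i, W.map s (W.map (prj X 1 i) (v i)) = v i := by
      intro i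
      rw [← W.map_comp, liftN_prj, W.map_id]
    have h2 : (List.ofFn (W.map s ∘ fun i => W.map (prj X 1 i) (v i))).prod = v 0 * v 1 := by
      have h3 : (W.map s ∘ fun i => W.map (prj X 1 i) (v i)) = v := funext h1
      rw [h3]
      simp [List.ofFn_succ]
    rw [h2]

theorem killsClass_iff {Z : Module.End W.K (W.H X)} {n : ℕ} {c : W.H (pw X n)} :
    KillsClass W X Z n c ↔ ActsBy W X Z n c 0 := by
  have h1 : ∀ a : Fin (n + 1) → W.H X, (0 : W.K) * W.tr (pw X n) (c * cross W X n a) = 0 :=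
    fun a => zero_mul _
  constructor
  · intro h a
    exact (h a).trans (h1 a).symm
  · intro h a
    exact (h a).trans (h1 a)

/-- The operators which kill the classes of the cycles are skew. -/
theorem skew_of_cycles {Z : Module.End W.K (W.H X)} (h : KillsCycles W X Z) :
    IsSkew (prg W X) Z := by
  obtain ⟨z, hz, h1⟩ := exists_diag W X
  have h2 := kills_of_actsBy (killsClass_iff.1 (h 1 _ z hz))
  rw [h1, kills_two] at h2
  exact h2

theorem skew_of_centre {Z : Module.End W.K (W.H X)} (hZ : DR.InCentre T X Z) :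
    IsSkew (prg W X) Z :=
  skew_of_cycles fun n j z hz => killsClass_iff.2 (hZ.2 n j z hz)

/-! ### The Hodge classes -/

section one

variable (hrat : ∀ r : W.K, ∃ q : ℚ, (q : W.K) = r) (δ : Derivation D.K ℂ ℂ)
  {C : Comparison (baseW W ℂ) (baseW D ℂ)} (hs : ∀ z : ℂ, (show ℂ from C.s z) = z)

variable (h4 : ∀ c, MTC.IsHodge T (pw X 3) (2 * X.dim) c →
  (∀ Z, DR.InCentre T X Z → Kills Z (frm W X 3 c)) → Drb C (pw X 3) (2 * X.dim) c)

include h4 in
/-- The forms killed by the extended Mumford-Tate algebra and the centre, in four variables. -/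
theorem zz_kills4' (ν : ℂ →ₗ[W.K] W.K)
    {φ : MultilinearMap W.K (fun _ : Fin 4 => W.H X) W.K}
    (h : ∀ Z ∈ mtp T X, Kills Z φ) (h' : ∀ Z, DR.InCentre T X Z → Kills Z φ) :
    Kills (zz hrat δ C hs X ν) φ := by
  obtain ⟨c, rfl⟩ := frm_surjective (n := 3) φ
  have h1 : MTC.IsHodge T (pw X 3) (2 * X.dim) c := hodge_of_mtp (by ring) h
  exact zz_kills_drb hrat δ hs ν h1.1 (h4 c h1 h')

/-- The centre commutes with the extended Mumford-Tate algebra. -/
theorem centre_comm {Z : Module.End W.K (W.H X)} (hZ : DR.InCentre T X Z) :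
    ∀ A ∈ mtp T X, A * Z = Z * A := by
  obtain ⟨h1, h2⟩ := respHodge_iff.1 hZ.1.1
  intro A hA
  obtain ⟨A', hA', r, rfl⟩ := mem_mtp.1 hA
  rw [add_mul, mul_add, mt_comm h2 hA', smul_mul_assoc, mul_smul_comm, h1]

/-- The endomorphisms which commute with the extended algebra respect the Hodge structure. -/
theorem resp_of_comm {P : Module.End W.K (W.H X)} (hP : ∀ Z ∈ mtp T X, Z * P = P * Z) :
    RespHodge (W.gr X) (T.h X) P :=
  respHodge_iff.2 ⟨(hP _ dn_mtp).symm, fun ν => hP _ (mt_le (yy_mt ν))⟩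

include h4 in
/-- The operators commute with the endomorphisms of the Hodge structure. -/
theorem zz_comm2 (ν : ℂ →ₗ[W.K] W.K) {P : Module.End W.K (W.H X)}
    (hP : ∀ Z ∈ mtp T X, Z * P = P * Z) :
    zz hrat δ C hs X ν * P = P * zz hrat δ C hs X ν := by
  rcases exists_prg W X with ⟨a, b, hab⟩ | h
  · have hsk := zz_skew hrat δ C hs (X := X) ν
    refine comm_of_kills_comp prg_nondeg hsk ?_
    rw [kills_two]
    refine skew_of_mulF (zz_kills4' (T := T) hrat δ hs h4 ν (fun Z hZ => kills_mulF ?_ ?_)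
      fun Z hZ => kills_mulF ?_ ?_) hsk hab
    · have h1 := kills_of_comm hP hZ
      rw [kills_two] at h1
      exact h1
    · exact mtp_skew hZ
    · have h0 : Z * P = P * Z := LinearMap.ext fun a => hZ.1.2 P (resp_of_comm hP) a
      have h1 := kills_comp_of_comm (skew_of_centre hZ) h0
      rw [kills_two] at h1
      exact h1
    · exact skew_of_centre hZ
  · refine LinearMap.ext fun x => Subsingleton.elim _ _

include h4 in
/-- **The decomposition of the components.** -/
theorem zz_decomp2 (ν : ℂ →ₗ[W.K] W.K) :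
    ∃ s ∈ mt T X, DR.InCentre T X (zz hrat δ C hs X ν - s) := by
  have hskew := zz_skew hrat δ C hs (X := X) ν
  obtain ⟨s, hs', hcen⟩ := decomp (mtp T X) mtp_semi mtp_br (prg W X) prg_nondeg hskew (by
    let e : Fin 2 × Fin 2 ≃ Fin 4 := finProdFinEquiv
    refine (kills_reindex e).1 (zz_kills4' (T := T) hrat δ hs h4 ν (fun Z hZ => ?_)
      fun Z hZ => ?_)
    · refine (kills_reindex e).2 ?_
      exact Pool.Agent.W516.KC2.casimir_kills _ _ _ (mtp_skew hZ) fun A hA =>
        der_ideal (mtp T X) mtp_br hZ hA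
    · refine (kills_reindex e).2 ?_
      refine Pool.Agent.W516.KC2.casimir_kills _ _ _ (skew_of_centre hZ) fun A hA => ?_
      have h1 := centre_comm hZ A (der_sub (mtp T X) mtp_br hA)
      rw [h1, sub_self]
      exact Submodule.zero_mem _) (fun P hP => zz_comm2 hrat δ hs h4 ν hP)
  have hsm := der_mtp hs'
  refine ⟨s, hsm, isCentral_of_inCentre hcen, fun n j z hz => actsBy_zero ?_⟩
  have h1 := zz_kills_drb hrat δ hs ν (W.cl_mem hz) (drb_cl hz)
  have h3 : Kills s (frm W X n (W.cl _ z)) := hsm n _ fun ν => yy_kills ν (hh_cl (T := T) hz)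
  intro v
  have h4 : ∀ i, frm W X n (W.cl _ z) (Function.update v i
      ((zz hrat δ C hs X ν - s) (v i))) = frm W X n (W.cl _ z) (Function.update v i
        (zz hrat δ C hs X ν (v i))) - frm W X n (W.cl _ z) (Function.update v i (s (v i))) := by
    intro i
    rw [LinearMap.sub_apply, MultilinearMap.map_update_sub]
  rw [Finset.sum_congr rfl fun i _ => h4 i, Finset.sum_sub_distrib, h1 v, h3 v, sub_zero]

include hrat hs h4 in
/-- **The Hodge classes which are killed by the centre are de Rham-Betti classes.** -/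
theorem drb_of_hodge2 [IsAlgClosed D.K] {n j : ℕ} {c : W.H (pw X n)}
    (hc : MTC.IsHodge T (pw X n) j c)
    (hz : ∀ Z : W.H X →ₗ[W.K] W.H X, DR.InCentre T X Z → Kills Z (frm W X n c)) :
    Drb C (pw X n) j c := by
  refine drb_of_kills hrat hs hc.1 fun δ ν => ?_
  obtain ⟨s, hs', hcen⟩ := zz_decomp2 hrat δ hs h4 ν
  exact kills_sub_add (hs' n _ fun ν => yy_kills ν hc.2) (hz _ hcen)

end one

/-! ### The de Rham-Betti classes -/

section two

variable (hrat : ∀ r : W.K, ∃ q : ℚ, (q : W.K) = r) (δ : Derivation D.K ℂ ℂ)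
  {C : Comparison (baseW W ℂ) (baseW D ℂ)} (hs : ∀ z : ℂ, (show ℂ from C.s z) = z)

/-- The endomorphisms of the de Rham-Betti structure commute with the components of the
operators. -/
theorem zz_of_resp {P : Module.End W.K (W.H Y)} {P' : Module.End D.K (D.H Y)}
    (hg : dg W Y * P = P * dg W Y)
    (h : ∀ x : (baseW W ℂ).H Y, C.e Y (bc ℂ P x) = bc ℂ P' (C.e Y x)) (ν : ℂ →ₗ[W.K] W.K) :
    zz hrat δ C hs Y ν * P = P * zz hrat δ C hs Y ν := by
  have h1 : ∀ x, (C.e Y).symm (bc ℂ P' x) = bc ℂ P ((C.e Y).symm x) := by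
    intro x
    obtain ⟨x, rfl⟩ := (C.e Y).surjective x
    rw [← h, (C.e Y).symm_apply_apply, (C.e Y).symm_apply_apply]
  have h0 : ∀ x, dX (dD δ) Y (bc ℂ P' x) = bc ℂ P' (dX (dD δ) Y x) := fun x => dX_bc _ _ x
  have h2 : ∀ x, Dd hrat δ C hs Y (bc ℂ P x) = bc ℂ P (Dd hrat δ C hs Y x) := by
    intro x
    rw [Dd_apply, Dd_apply, h, h0, h1, dX_bc, map_sub]
  have h3 : ∀ x, Dn hrat δ C hs Y (bc ℂ P x) = bc ℂ P (Dn hrat δ C hs Y x) := by
    intro x
    have h4 := h2 x
    rw [Dd_eq, Dd_eq, dg_bc hg, map_add, map_smul] at h4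
    exact add_right_cancel h4
  refine LinearMap.ext fun a => ?_
  change cC ν (Dn hrat δ C hs Y (em W ℂ (P a))) = P (cC ν (Dn hrat δ C hs Y (em W ℂ a)))
  rw [← bc_em, h3, cC_bc]

/-- The endomorphisms of the de Rham-Betti structure. -/
def RespD (C : Comparison (baseW W ℂ) (baseW D ℂ)) (X : 𝒱.Obj) (P : Module.End W.K (W.H X)) :
    Prop :=
  dg W X * P = P * dg W X ∧ ∃ P' : Module.End D.K (D.H X), ∀ x : (baseW W ℂ).H X,
    C.e X (bc ℂ P x) = bc ℂ P' (C.e X x)

/-- The centre. -/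
def InCD (C : Comparison (baseW W ℂ) (baseW D ℂ)) (X : 𝒱.Obj) (Z : Module.End W.K (W.H X)) :
    Prop :=
  RespD C X Z ∧ (∀ P, RespD C X P → Z * P = P * Z) ∧ KillsCycles W X Z

/-- The endomorphisms of the de Rham-Betti structure commute with the de Rham-Betti Lie algebra. -/
theorem RespD.comm {P : Module.End W.K (W.H X)} (hP : RespD C X P) :
    ∀ Z ∈ gdp hrat C hs X, Z * P = P * Z := by
  obtain ⟨hP1, P', hP'⟩ := hP
  exact fun Z hZ => comm_kilp prg_nondeg (fam_skew hrat hs)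
    (fun p => zz_of_resp hrat p.1 hs hP1 hP' p.2) (dn_comm_of_dg hP1).symm hZ

/-- The converse. -/
theorem respD_of_comm [IsAlgClosed D.K] {P : Module.End W.K (W.H X)}
    (h : ∀ Z ∈ gdp hrat C hs X, Z * P = P * Z) : RespD C X P := by
  have h1 : dg W X * P = P * dg W X := by
    have h2 : dn W X * P = P * dn W X := h _ N_kilp
    exact LinearMap.ext fun x => comm_dg_of_dn h2 x
  obtain ⟨P', hP'⟩ := exists_rat_end hrat hs (P := P)
    (fun δ μ => h _ (kil_le (y_kil (y := fam hrat C hs X) (δ, μ)))) h1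
  exact ⟨h1, P', hP'⟩

variable (hss : ∀ U : Submodule W.K (W.H X), SubObj C X U →
    ∃ U', SubObj C X U' ∧ IsCompl U U')
  (h4' : ∀ c ∈ W.gr (pw X 3) (2 * (2 * X.dim)), Drb C (pw X 3) (2 * X.dim) c →
    (∀ Z, InCD C X Z → Kills Z (frm W X 3 c)) → MTC.IsHodge T (pw X 3) (2 * X.dim) c)

include h4' in
theorem yy_kills42 [IsAlgClosed D.K] (ν : ℂ →ₗ[W.K] W.K)
    {φ : MultilinearMap W.K (fun _ : Fin 4 => W.H X) W.K}
    (h : ∀ Z ∈ gdp hrat C hs X, Kills Z φ) (h' : ∀ Z, InCD C X Z → Kills Z φ) :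
    Kills (yy T X ν) φ := by
  obtain ⟨c, rfl⟩ := frm_surjective (n := 3) φ
  have h1 : c ∈ W.gr (pw X 3) (2 * (2 * X.dim)) := by
    refine (frm_dg_iff (M := 2 * X.dim) (j := 2 * X.dim) (by rw [dim_pw]; ring)).1 fun v => ?_
    have h2 := h _ N_kilp v
    rw [dn, sum_sub_smul, sum_one, Fintype.card_fin] at h2
    push_cast at h2 ⊢
    linear_combination h2
  exact yy_kills ν (h4' c h1 (drb_of_kills hrat hs h1 fun δ ν =>
    h _ (kil_le (y_kil (y := fam hrat C hs X) (δ, ν)))) h').2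

include h4' in
theorem yy_comm2 [IsAlgClosed D.K] (ν : ℂ →ₗ[W.K] W.K) {P : Module.End W.K (W.H X)}
    (hP : ∀ Z ∈ gdp hrat C hs X, Z * P = P * Z) : yy T X ν * P = P * yy T X ν := by
  rcases exists_prg W X with ⟨a, b, hab⟩ | h
  · refine comm_of_kills_comp prg_nondeg (yy_skew ν) ?_
    rw [kills_two]
    refine skew_of_mulF (yy_kills42 hrat hs h4' ν (fun Z hZ => kills_mulF ?_ ?_)
      fun Z hZ => kills_mulF ?_ ?_) (yy_skew ν) hab
    · have h1 := kills_comp_of_comm (kilp_skew (fam_skew hrat hs) dn_skew hZ) (hP Z hZ)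
      rw [kills_two] at h1
      exact h1
    · exact kilp_skew (fam_skew hrat hs) dn_skew hZ
    · have h1 := kills_comp_of_comm (skew_of_cycles hZ.2.2)
        (hZ.2.1 P (respD_of_comm hrat hs hP))
      rw [kills_two] at h1
      exact h1
    · exact skew_of_cycles hZ.2.2
  · exact LinearMap.ext fun x => Subsingleton.elim _ _

include hss h4' in
/-- **The decomposition of the components of the Hodge operator.** -/
theorem yy_decomp2 [IsAlgClosed D.K] (ν : ℂ →ₗ[W.K] W.K) :
    ∃ s ∈ kil (fam hrat C hs X), InCD C X (yy T X ν - s) := by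
  have hbr : ∀ A ∈ gdp hrat C hs X, ∀ B ∈ gdp hrat C hs X, A * B - B * A ∈ gdp hrat C hs X :=
    kilp_br prg_nondeg (fam_skew hrat hs) (fam_dn hrat hs)
  have hsemi := gdp_semi hrat hs hss
  obtain ⟨s, hs', hcen⟩ := decomp (gdp hrat C hs X) hsemi hbr (prg W X) prg_nondeg (yy_skew ν) (by
    let e : Fin 2 × Fin 2 ≃ Fin 4 := finProdFinEquiv
    refine (kills_reindex e).1 (yy_kills42 hrat hs h4' ν (fun Z hZ => ?_) fun Z hZ => ?_)
    · refine (kills_reindex e).2 ?_
      exact Pool.Agent.W516.KC2.casimir_kills _ _ _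
        (kilp_skew (fam_skew hrat hs) dn_skew hZ) fun A hA =>
          der_ideal (gdp hrat C hs X) hbr hZ hA
    · refine (kills_reindex e).2 ?_
      refine Pool.Agent.W516.KC2.casimir_kills _ _ _ (skew_of_cycles hZ.2.2) fun A hA => ?_
      have h1 := hZ.1.comm hrat hs A (der_sub (gdp hrat C hs X) hbr hA)
      rw [h1, sub_self]
      exact Submodule.zero_mem _) (fun P hP => yy_comm2 hrat hs h4' ν hP)
  have hsm : s ∈ kil (fam hrat C hs X) :=
    der_le_kil prg_nondeg (fam_skew hrat hs) (fam_dn hrat hs) hs'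
  refine ⟨s, hsm, respD_of_comm hrat hs fun Z hZ => hcen.1 Z hZ,
    fun P hP => hcen.2 P fun Z hZ => hP.comm hrat hs Z hZ,
    fun n j z hz => killsClass_iff.2 (actsBy_zero ?_)⟩
  have h1 : Kills (yy T X ν) (frm W X n (W.cl _ z)) := yy_kills ν (hh_cl (T := T) hz)
  have h3 : Kills s (frm W X n (W.cl _ z)) := hsm n _ fun p =>
    zz_kills_drb hrat p.1 hs p.2 (W.cl_mem hz) (drb_cl hz)
  intro v
  have h4 : ∀ i, frm W X n (W.cl _ z) (Function.update v i ((yy T X ν - s) (v i))) =
      frm W X n (W.cl _ z) (Function.update v i (yy T X ν (v i))) -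
        frm W X n (W.cl _ z) (Function.update v i (s (v i))) := by
    intro i
    rw [LinearMap.sub_apply, MultilinearMap.map_update_sub]
  rw [Finset.sum_congr rfl fun i _ => h4 i, Finset.sum_sub_distrib, h1 v, h3 v, sub_zero]

include hrat hs hss h4' in
/-- **The de Rham-Betti classes which are killed by the centre are Hodge classes.** -/
theorem hodge_of_drb2 [IsAlgClosed D.K] {n j : ℕ} {c : W.H (pw X n)}
    (hc : c ∈ W.gr (pw X n) (2 * j)) (hd : Drb C (pw X n) j c)
    (hz : ∀ Z : Module.End W.K (W.H X), InCD C X Z → Kills Z (frm W X n c)) :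
    MTC.IsHodge T (pw X n) j c := by
  refine ⟨hc, hh_of_kills fun ν => ?_⟩
  obtain ⟨s, hs', hcen⟩ := yy_decomp2 hrat hs hss h4' ν
  exact kills_sub_add (hs' n _ fun p => zz_kills_drb hrat p.1 hs p.2 hc hd) (hz _ hcen)

end two

/-- **The main theorem.** -/
theorem main3 (T : HodgeDecomposition W) (C : Pool.Agent.Y121.AHS.Comparison W D ℂ)
    (hC : C.s = RingEquiv.refl ℂ) [IsAlgClosed D.K] (X : 𝒱.Obj) :
    (HodgeToDRB T C X 3 (2 * X.dim) → ∀ n j, HodgeToDRB T C X n j) ∧
    (IsSemi (W.gr X) (C.e X) → DRBToHodge T C X 3 (2 * X.dim) → ∀ n j, DRBToHodge T C X n j) := by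
  have hs : ∀ z : ℂ, (show ℂ from (toC C).s z) = z := by
    intro z
    change C.s z = z
    rw [hC]
    rfl
  constructor
  · intro h4 n j c h hz
    refine drb_of_hodge2 (C := toC C) (T := T) T.rat hs (fun c hc hz' => ?_) h fun Z hZ =>
      kills_of_actsBy (killsClass_iff.1 (hz Z hZ.1 fun n j z h => killsClass_iff.2 (hZ.2 n j z h)))
    exact h4 c hc fun Z h1 h2 => killsClass_iff.2 (actsBy_zero
      (hz' Z ⟨h1, fun n j z h => killsClass_iff.1 (h2 n j z h)⟩))
  · intro hss h4 n j c hc h hz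
    have key : ∀ Z : Module.End W.K (W.H X), InCD (toC C) X Z →
        IsCentralDRB (W.gr X) (C.e X) Z := by
      intro Z hZ
      refine ⟨⟨resp_gr_iff.2 hZ.1.1, hZ.1.2⟩, ?_⟩
      rintro P ⟨h1, h2⟩ a
      exact LinearMap.congr_fun (hZ.2.1 P ⟨resp_gr_iff.1 h1, h2⟩) a
    have key' : ∀ Z : Module.End W.K (W.H X), IsCentralDRB (W.gr X) (C.e X) Z →
        KillsCycles W X Z → InCD (toC C) X Z := by
      intro Z h1 h2
      refine ⟨⟨resp_gr_iff.1 h1.1.1, h1.1.2⟩, fun P hP => ?_, h2⟩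
      exact LinearMap.ext fun a => h1.2 P ⟨resp_gr_iff.2 hP.1, hP.2⟩ a
    refine hodge_of_drb2 (C := toC C) T.rat hs hss (fun c hc hd hz' => ?_) hc h fun Z hZ =>
      kills_of_actsBy (killsClass_iff.1 (hz Z (key Z hZ) hZ.2.2))
    exact h4 c hc hd fun Z h1 h2 => killsClass_iff.2 (actsBy_zero (hz' Z (key' Z h1 h2)))

end Pool.Agent.Q50.DR
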