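import Pool.Agent.Q50.FP.Core
import Pool.Agent.Q50.FP.GCore

/-!
# The Lie algebra generated by a family of skew endomorphisms, through its invariants
-/

set_option linter.unusedSectionVars false

namespace Pool.Agent.Q50.DR

open Module Pool.Agent.H204R3.SP Pool.Agent.W516.KC Pool.Agent.Q50.FP

section gen

variable {K V : Type*} [Field K] [CharZero K] [AddCommGroup V] [Module K V]
  [FiniteDimensional K V] {ι : Type*} (y : ι → Module.End K V)

/-- The endomorphisms which kill all forms killed by the family `y`. -/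
def kil : Submodule K (Module.End K V) where
  carrier := {Z | ∀ (n : ℕ) (φ : MultilinearMap K (fun _ : Fin (n + 1) => V) K),
    (∀ i, Kills (y i) φ) → Kills Z φ}
  zero_mem' := by
    intro n φ _ v
    refine Finset.sum_eq_zero fun k _ => ?_
    rw [LinearMap.zero_apply]
    exact φ.map_coord_zero k (Function.update_self _ _ _)
  add_mem' := by
    intro A B hA hB n φ hφ v
    have h1 := hA n φ hφ v
    have h2 := hB n φ hφ v
    have h3 := congrArg₂ (fun x y : K => x + y) h1 h2
    simp only [add_zero] at h3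
    rw [← h3, ← Finset.sum_add_distrib]
    refine Finset.sum_congr rfl fun k _ => ?_
    rw [LinearMap.add_apply, MultilinearMap.map_update_add]
  smul_mem' := by
    intro c A hA n φ hφ v
    have h1 := hA n φ hφ v
    rw [← mul_zero c, ← h1, Finset.mul_sum]
    refine Finset.sum_congr rfl fun k _ => ?_
    rw [LinearMap.smul_apply, MultilinearMap.map_update_smul, smul_eq_mul]

variable {y}

theorem mem_kil {Z : Module.End K V} : Z ∈ kil y ↔
    ∀ (n : ℕ) (φ : MultilinearMap K (fun _ : Fin (n + 1) => V) K),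
      (∀ i, Kills (y i) φ) → Kills Z φ := Iff.rfl

theorem y_kil (i : ι) : y i ∈ kil y := fun _ _ h => h i

theorem kil_br : ∀ A ∈ kil y, ∀ B ∈ kil y, A * B - B * A ∈ kil y :=
  fun _ hA _ hB n φ hφ => kills_bracket (hA n φ hφ) (hB n φ hφ)

/-- The same for the forms of any index set. -/
theorem kil_kills {κ : Type} [Fintype κ] [DecidableEq κ]
    {φ : MultilinearMap K (fun _ : κ => V) K} (hφ : ∀ i, Kills (y i) φ)
    {Z : Module.End K V} (hZ : Z ∈ kil y) : Kills Z φ := by
  rcases isEmpty_or_nonempty κ with h | h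
  · intro v
    rw [Finset.univ_eq_empty, Finset.sum_empty]
  · obtain ⟨n, hn⟩ : ∃ n, Fintype.card κ = n + 1 :=
      ⟨Fintype.card κ - 1, by have := Fintype.card_pos (α := κ); omega⟩
    let e : κ ≃ Fin (n + 1) := Fintype.equivFinOfCardEq hn
    exact (kills_reindex e).1 (hZ n _ fun i => (kills_reindex e).2 (hφ i))

variable {ω : V →ₗ[K] V →ₗ[K] K} (hnd : ∀ u, (∀ v, ω u v = 0) → u = 0)
  (hskew : ∀ i, IsSkew ω (y i))

include hskew in
theorem kil_skew {Z : Module.End K V} (hZ : Z ∈ kil y) : IsSkew ω Z :=
  (kills_two _ _).1 (kil_kills (fun i => (kills_two _ _).2 (hskew i)) hZ)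

/-- The form given by an endomorphism which commutes with a skew endomorphism. -/
theorem kills_comp_of_comm {P A : Module.End K V} (hA : IsSkew ω A) (hP : A * P = P * A) :
    Kills A (two (ω.comp P)) := by
  rw [kills_two]
  intro u v
  rw [LinearMap.comp_apply, LinearMap.comp_apply]
  have h1 := hA (P u) v
  have h2 : A (P u) = P (A u) := LinearMap.congr_fun hP u
  rwa [h2] at h1

include hnd in
/-- The converse. -/
theorem comm_of_kills_comp {P A : Module.End K V} (hA : IsSkew ω A)
    (h : Kills A (two (ω.comp P))) : A * P = P * A := by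
  rw [kills_two] at h
  refine LinearMap.ext fun u => ?_
  rw [← sub_eq_zero]
  apply hnd
  intro v
  have h4 := h u v
  have h5 := hA (P u) v
  rw [LinearMap.comp_apply, LinearMap.comp_apply] at h4
  rw [Module.End.mul_apply, Module.End.mul_apply, map_sub, LinearMap.sub_apply]
  linear_combination h5 - h4

include hnd hskew in
theorem kil_comm {P : Module.End K V} (hP : ∀ i, y i * P = P * y i)
    {Z : Module.End K V} (hZ : Z ∈ kil y) : Z * P = P * Z :=
  comm_of_kills_comp hnd (kil_skew hskew hZ)
    (kil_kills (fun i => kills_comp_of_comm (hskew i) (hP i)) hZ)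

variable (y) (N : Module.End K V)

/-- The Lie algebra, extended by an endomorphism. -/
def kilp : Submodule K (Module.End K V) := kil y ⊔ Submodule.span K {N}

variable {y N}

theorem mem_kilp {Z : Module.End K V} :
    Z ∈ kilp y N ↔ ∃ A ∈ kil y, ∃ r : K, Z = A + r • N := by
  rw [kilp, Submodule.mem_sup]
  constructor
  · rintro ⟨A, hA, B, hB, rfl⟩
    obtain ⟨r, rfl⟩ := Submodule.mem_span_singleton.1 hB
    exact ⟨A, hA, r, rfl⟩
  · rintro ⟨A, hA, r, rfl⟩
    exact ⟨A, hA, _, Submodule.smul_mem _ _ (Submodule.mem_span_singleton_self _), rfl⟩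

theorem kil_le : kil y ≤ kilp y N := le_sup_left

theorem N_kilp : N ∈ kilp y N :=
  Submodule.mem_sup_right (Submodule.mem_span_singleton_self _)

variable (hN : ∀ i, y i * N = N * y i) (hNs : IsSkew ω N)

include hnd hskew hN in
theorem der_kilp : ∀ A ∈ kilp y N, ∀ B ∈ kilp y N, A * B - B * A ∈ kil y := by
  intro A hA B hB
  obtain ⟨A, hA', r, rfl⟩ := mem_kilp.1 hA
  obtain ⟨B, hB', t, rfl⟩ := mem_kilp.1 hB
  have h1 : (A + r • N) * (B + t • N) - (B + t • N) * (A + r • N) = A * B - B * A := by
    have h2 := kil_comm hnd hskew hN hA'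
    have h3 := kil_comm hnd hskew hN hB'
    simp only [add_mul, mul_add, mul_smul_comm, smul_mul_assoc, h2, h3, smul_add, smul_smul,
      mul_comm t r]
    abel
  rw [h1]
  exact kil_br A hA' B hB'

include hnd hskew hN in
theorem kilp_br : ∀ A ∈ kilp y N, ∀ B ∈ kilp y N, A * B - B * A ∈ kilp y N :=
  fun A hA B hB => kil_le (der_kilp hnd hskew hN A hA B hB)

include hnd hskew hN in
theorem der_le_kil : der (kilp y N) ≤ kil y := by
  rw [der, Submodule.span_le]
  rintro _ ⟨A, hA, B, hB, rfl⟩
  exact der_kilp hnd hskew hN A hA B hB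

include hskew hNs in
theorem kilp_skew {Z : Module.End K V} (hZ : Z ∈ kilp y N) : IsSkew ω Z := by
  obtain ⟨A, hA, r, rfl⟩ := mem_kilp.1 hZ
  intro u v
  have h1 := kil_skew hskew hA u v
  have h2 := hNs u v
  simp only [LinearMap.add_apply, LinearMap.smul_apply, map_add, map_smul, smul_eq_mul]
  linear_combination h1 + r * h2

include hnd hskew in
/-- The endomorphisms which commute with the family and with `N`. -/
theorem comm_kilp {P : Module.End K V} (h1 : ∀ i, y i * P = P * y i) (h2 : N * P = P * N)
    {Z : Module.End K V} (hZ : Z ∈ kilp y N) : Z * P = P * Z := by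
  obtain ⟨A, hA, r, rfl⟩ := mem_kilp.1 hZ
  rw [add_mul, mul_add, kil_comm hnd hskew h1 hA, smul_mul_assoc, mul_smul_comm, h2]

end gen

end Pool.Agent.Q50.DR
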