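import Pool.Agent.Q50.DR.Cst
import Pool.Agent.Q50.DR.Cen
import Pool.Agent.Q50.DR.Gen

/-!
# Classes killed by the operators are de Rham-Betti classes
-/

open CategoryTheory AlgebraicGeometry TensorProduct

universe u

set_option linter.unusedSectionVars false

namespace Pool.Agent.Q50.DR

open Module Pool.Agent.H204R3.SP Pool.Agent.W516.DR
open Pool.Agent.H914 Pool.Agent.H914.VarClass Pool.Agent.H914.VarClass.Obj
  Pool.Agent.H914.WeilCohomology
open Pool.Agent.Y133.Half Pool.Agent.Y121.AH Pool.Agent.Q50.FP Pool.Agent.W516.KC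
open Pool.Agent.Q50.MTC (HodgeDecomposition mt mtp mtp_semi mtp_br mtp_skew mem_mtp dn_mtp mt_le
  hodge_of_mtp kills_of_comm yy yy_apply yy_kills yy_mt mt_comm mt_dn mt_br hh hC hh_cl hh_of_kills
  yy_skew yy_dn)

variable {k : Type u} [Field k] {𝒱 : VarClass k} {ops : CycleOps 𝒱}
  {W D : WeilCohomology.{u, 0} ops} [Algebra W.K ℂ] [Algebra D.K ℂ] {T : HodgeDecomposition W}
  {X Y : 𝒱.Obj} {n : ℕ}

variable (hrat : ∀ r : W.K, ∃ q : ℚ, (q : W.K) = r) (δ : Derivation D.K ℂ ℂ)
  {C : Comparison (baseW W ℂ) (baseW D ℂ)} (hs : ∀ z : ℂ, (show ℂ from C.s z) = z)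

/-- The operator `Dd` in terms of the normalised operator. -/
theorem Dd_eq (Y : 𝒱.Obj) (x : (baseW W ℂ).H Y) : Dd hrat δ C hs Y x =
    Dn hrat δ C hs Y x +
      (show (baseW W ℂ).K from (lc δ C / 2 : ℂ)) • dg (baseW W ℂ) Y x := by
  rw [Dn, LinearMap.sub_apply, LinearMap.smul_apply, sub_add_cancel]

theorem dX_cmp (Y : 𝒱.Obj) (c : W.H Y) : dX (dD δ) Y (C.e Y (em W ℂ c)) =
    C.e Y (Dd hrat δ C hs Y (em W ℂ c)) := by
  rw [Dd_apply, dX_em _ (dW_mul hrat δ), sub_zero, (C.e Y).apply_symm_apply]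

/-- **A class of degree `2 j` killed by all normalised operators is a de Rham-Betti class.** -/
theorem drb_of_Dn [IsAlgClosed D.K] {c : W.H Y} {j : ℕ} (hc : c ∈ W.gr Y (2 * j))
    (h : ∀ δ : Derivation D.K ℂ ℂ, Dn hrat δ C hs Y (em W ℂ c) = 0) : Drb C Y j c := by
  have hc0 : (show ℂ from C.c) ≠ 0 := C.ne
  have hcj : (show ℂ from C.c) ^ j ≠ 0 := pow_ne_zero _ hc0
  -- the operators
  have h1 : ∀ δ : Derivation D.K ℂ ℂ, δ.toLinearMap.rTensor (D.H Y)
      (show ℂ ⊗[D.K] D.H Y from C.e Y (em W ℂ c)) =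
        (j * lc δ C : ℂ) • (show ℂ ⊗[D.K] D.H Y from C.e Y (em W ℂ c)) := by
    intro δ
    have h2 := dX_cmp hrat δ hs Y c
    have h3 : Dd hrat δ C hs Y (em W ℂ c) =
        (show (baseW W ℂ).K from (j * lc δ C : ℂ)) • em W ℂ c := by
      rw [Dd_eq, h δ, zero_add, dg_of (em_gr hc), smul_smul]
      congr 1
      change lc δ C / 2 * ((2 * j : ℕ) : ℂ) = (j * lc δ C : ℂ)
      push_cast
      ring
    rw [h3, C.semi] at h2
    have h4 : (show ℂ from C.s (show (baseW W ℂ).K from (j * lc δ C : ℂ))) = (j * lc δ C : ℂ) :=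
      hs _
    exact h2.trans (congrArg (fun z : ℂ => z • (show ℂ ⊗[D.K] D.H Y from C.e Y (em W ℂ c))) h4)
  have h2 : ∀ δ : Derivation D.K ℂ ℂ, δ.toLinearMap.rTensor (D.H Y)
      (((show ℂ from C.c) ^ j)⁻¹ • (show ℂ ⊗[D.K] D.H Y from C.e Y (em W ℂ c))) = 0 := by
    intro δ
    rw [rTensor_smul, h1, smul_smul, ← add_smul, Derivation.leibniz_inv, delta_pow, smul_eq_mul]
    have h5 : -((show ℂ from C.c) ^ j)⁻¹ ^ 2 * (j * lc δ C * (show ℂ from C.c) ^ j) +
        ((show ℂ from C.c) ^ j)⁻¹ * (j * lc δ C) = 0 := by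
      field_simp
      ring
    rw [h5, zero_smul]
  obtain ⟨c', hc'⟩ := em_of_const h2
  refine ⟨c', ?_⟩
  have h3 : (show ℂ ⊗[D.K] D.H Y from C.e Y (em W ℂ c)) =
      (show ℂ from C.c) ^ j • ((1 : ℂ) ⊗ₜ[D.K] c') := by
    rw [hc', smul_smul, mul_inv_cancel₀ hcj, one_smul]
  exact h3

/-- A class of degree `2 j` on a power of `X` whose form is killed by the components of all
operators is a de Rham-Betti class. -/
theorem drb_of_kills [IsAlgClosed D.K] {c : W.H (pw X n)} {j : ℕ}
    (hc : c ∈ W.gr (pw X n) (2 * j))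
    (h : ∀ (δ : Derivation D.K ℂ ℂ) (ν : ℂ →ₗ[W.K] W.K),
      Kills (zz hrat δ C hs X ν) (frm W X n c)) : Drb C (pw X n) j c :=
  drb_of_Dn hrat hs hc fun δ => drv_of_kills (Dn_drv hrat δ C hs) (h δ)

/-! ### Products of forms -/

section mulf

variable {K V : Type*} [Field K] [AddCommGroup V] [Module K V]

/-- The product of two bilinear forms. -/
def mulF (A B : V →ₗ[K] V →ₗ[K] K) : MultilinearMap K (fun _ : Fin 4 => V) K where
  toFun v := A (v 0) (v 1) * B (v 2) (v 3)
  map_update_add' := by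
    intro hd v i x y
    have : hd = instDecidableEqFin 4 := Subsingleton.elim _ _
    subst this
    fin_cases i <;> simp [add_mul, mul_add]
  map_update_smul' := by
    intro hd v i c x
    have : hd = instDecidableEqFin 4 := Subsingleton.elim _ _
    subst this
    fin_cases i <;> simp <;> ring

theorem mulF_apply (A B : V →ₗ[K] V →ₗ[K] K) (v : Fin 4 → V) :
    mulF A B v = A (v 0) (v 1) * B (v 2) (v 3) := rfl

theorem sum_mulF (A B : V →ₗ[K] V →ₗ[K] K) (Z : Module.End K V) (v : Fin 4 → V) :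
    ∑ i, mulF A B (Function.update v i (Z (v i))) =
      (A (Z (v 0)) (v 1) + A (v 0) (Z (v 1))) * B (v 2) (v 3) +
        A (v 0) (v 1) * (B (Z (v 2)) (v 3) + B (v 2) (Z (v 3))) := by
  rw [Fin.sum_univ_four]
  simp only [mulF_apply]
  simp
  ring

/-- The product of two killed forms is killed. -/
theorem kills_mulF {A B : V →ₗ[K] V →ₗ[K] K} {Z : Module.End K V} (hA : IsSkew A Z)
    (hB : IsSkew B Z) : Kills Z (mulF A B) := by
  intro v
  rw [sum_mulF, hA, hB, zero_mul, mul_zero, add_zero]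

/-- If the product is killed and the second factor is killed and not zero, then the first factor is
killed. -/
theorem skew_of_mulF {A B : V →ₗ[K] V →ₗ[K] K} {Z : Module.End K V} (h : Kills Z (mulF A B))
    (hB : IsSkew B Z) {a b : V} (hab : B a b ≠ 0) : IsSkew A Z := by
  intro u v
  have h1 := h ![u, v, a, b]
  rw [sum_mulF] at h1
  change (A (Z u) v + A u (Z v)) * B a b + A u v * (B (Z a) b + B a (Z b)) = 0 at h1
  rw [hB, mul_zero, add_zero] at h1
  exact (mul_eq_zero.1 h1).resolve_right hab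

end mulf

/-! ### The Hodge classes -/

section one

variable (h4 : ∀ c, MTC.IsHodge T (pw X 3) (2 * X.dim) c → Drb C (pw X 3) (2 * X.dim) c)

include h4 in
/-- The forms killed by the extended Mumford-Tate algebra, in four variables. -/
theorem zz_kills4 (ν : ℂ →ₗ[W.K] W.K)
    {φ : MultilinearMap W.K (fun _ : Fin 4 => W.H X) W.K}
    (h : ∀ Z ∈ mtp T X, Kills Z φ) : Kills (zz hrat δ C hs X ν) φ := by
  obtain ⟨c, rfl⟩ := frm_surjective (n := 3) φ
  have h1 : MTC.IsHodge T (pw X 3) (2 * X.dim) c := hodge_of_mtp (by ring) h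
  exact zz_kills_drb hrat δ hs ν h1.1 (h4 c h1)

theorem exists_prg (W : WeilCohomology.{u, 0} ops) (X : 𝒱.Obj) :
    (∃ a b : W.H X, prg W X a b ≠ 0) ∨ Subsingleton (W.H X) := by
  rcases subsingleton_or_nontrivial (W.H X) with h | h
  · exact Or.inr h
  · left
    obtain ⟨a, ha⟩ := exists_ne (0 : W.H X)
    by_contra hcon
    push Not at hcon
    exact ha (prg_nondeg a fun v => hcon a v)

include h4 in
/-- The operators commute with the endomorphisms of the Hodge structure. -/
theorem zz_comm (ν : ℂ →ₗ[W.K] W.K) {P : Module.End W.K (W.H X)}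
    (hP : ∀ Z ∈ mtp T X, Z * P = P * Z) :
    zz hrat δ C hs X ν * P = P * zz hrat δ C hs X ν := by
  rcases exists_prg W X with ⟨a, b, hab⟩ | h
  · have hsk := zz_skew hrat δ C hs (X := X) ν
    refine comm_of_kills_comp prg_nondeg hsk ?_
    rw [kills_two]
    refine skew_of_mulF (zz_kills4 (T := T) hrat δ hs h4 ν fun Z hZ => kills_mulF ?_ ?_) hsk hab
    · have h1 := kills_of_comm hP hZ
      rw [kills_two] at h1
      exact h1
    · exact mtp_skew hZ
  · refine LinearMap.ext fun x => Subsingleton.elim _ _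

include h4 in
/-- **The decomposition of the components.** -/
theorem zz_decomp' (ν : ℂ →ₗ[W.K] W.K) :
    ∃ s ∈ mt T X, InCentre T X (zz hrat δ C hs X ν - s) := by
  have hskew := zz_skew hrat δ C hs (X := X) ν
  obtain ⟨s, hs', hcen⟩ := decomp (mtp T X) mtp_semi mtp_br (prg W X) prg_nondeg hskew (by
    let e : Fin 2 × Fin 2 ≃ Fin 4 := finProdFinEquiv
    refine (kills_reindex e).1 (zz_kills4 (T := T) hrat δ hs h4 ν fun Z hZ => ?_)
    refine (kills_reindex e).2 ?_
    exact Pool.Agent.W516.KC2.casimir_kills _ _ _ (mtp_skew hZ) fun A hA =>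
      der_ideal (mtp T X) mtp_br hZ hA) (fun P hP => zz_comm hrat δ hs h4 ν hP)
  have hsm := der_mtp hs'
  refine ⟨s, hsm, isCentral_of_inCentre hcen, fun n j z hz => actsBy_zero ?_⟩
  have h1 := zz_kills_drb hrat δ hs ν (W.cl_mem hz) (drb_cl hz)
  have h3 : Kills s (frm W X n (W.cl _ z)) := hsm n _ fun ν => yy_kills ν (hh_cl (T := T) hz)
  intro v
  have h4 : ∀ i, frm W X n (W.cl _ z) (Function.update v i
      ((zz hrat δ C hs X ν - s) (v i))) = frm W X n (W.cl _ z) (Function.update v i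
        (zz hrat δ C hs X ν (v i))) - frm W X n (W.cl _ z) (Function.update v i (s (v i))) := by
    intro i
    rw [LinearMap.sub_apply, MultilinearMap.map_update_sub]
  rw [Finset.sum_congr rfl fun i _ => h4 i, Finset.sum_sub_distrib, h1 v, h3 v, sub_zero]

theorem kills_of_actsBy {Z : Module.End W.K (W.H X)} {c : W.H (pw X n)}
    (h : ActsBy W X Z n c 0) : Kills Z (frm W X n c) := by
  intro v
  have h1 := actsBy_iff.1 h v
  rwa [zero_mul] at h1

theorem kills_sub_add {Z s : Module.End W.K (W.H X)} {c : W.H (pw X n)}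
    (h1 : Kills s (frm W X n c)) (h2 : Kills (Z - s) (frm W X n c)) :
    Kills Z (frm W X n c) := by
  intro v
  have h4 : ∀ i, frm W X n c (Function.update v i (Z (v i))) =
      frm W X n c (Function.update v i (s (v i))) +
        frm W X n c (Function.update v i ((Z - s) (v i))) := by
    intro i
    rw [← MultilinearMap.map_update_add, LinearMap.sub_apply, add_sub_cancel]
  rw [Finset.sum_congr rfl fun i _ => h4 i, Finset.sum_add_distrib, h1 v, h2 v, add_zero]

include hrat hs h4 in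
/-- **The Hodge classes which are killed by the centre are de Rham-Betti classes.** -/
theorem drb_of_hodge [IsAlgClosed D.K] {n j : ℕ} {c : W.H (pw X n)}
    (hc : MTC.IsHodge T (pw X n) j c)
    (hz : ∀ Z : W.H X →ₗ[W.K] W.H X, InCentre T X Z → ActsBy W X Z n c 0) :
    Drb C (pw X n) j c := by
  refine drb_of_kills hrat hs hc.1 fun δ ν => ?_
  obtain ⟨s, hs', hcen⟩ := zz_decomp' hrat δ hs h4 ν
  exact kills_sub_add (hs' n _ fun ν => yy_kills ν hc.2) (kills_of_actsBy (hz _ hcen))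

end one

end Pool.Agent.Q50.DR
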