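import Mathlib

/-!
# Derivations and the transcendence degree
-/

universe u

set_option linter.unusedSectionVars false

namespace Pool.Agent.Q50.DR

open Module MvPolynomial

section ext

variable {F L : Type} [Field F] [Field L] [Algebra F L] [CharZero F]

/-- Derivations of a formally etale extension. -/
theorem exists_derivation_extend {S : Type} [CommRing S] [Algebra F S] [Algebra S L]
    [IsScalarTower F S L] [Algebra.FormallyEtale S L] (d : Derivation F S L) :
    ∃ D : Derivation F L L, ∀ s, D (algebraMap S L s) = d s := by
  let e := KaehlerDifferential.tensorKaehlerEquivOfFormallyEtale F S L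
  let f : Ω[S⁄F] →ₗ[S] L := d.liftKaehlerDifferential
  let g : TensorProduct S L (Ω[S⁄F]) →ₗ[L] L := f.liftBaseChange L
  let h : Ω[L⁄F] →ₗ[L] L := g ∘ₗ e.symm.toLinearMap
  refine ⟨h.compDer (KaehlerDifferential.D F L), fun s => ?_⟩
  change g (e.symm (KaehlerDifferential.D F L (algebraMap S L s))) = d s
  rw [KaehlerDifferential.tensorKaehlerEquivOfFormallyEtale_symm_D_algebraMap]
  rw [LinearMap.liftBaseChange_tmul, one_smul]
  exact d.liftKaehlerDifferential_comp_D s

/-- The derivation with given values on a transcendence basis. -/
theorem exists_derivation_basis {ι : Type} {x : ι → L} (hx : IsTranscendenceBasis F x)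
    (c : ι → L) : ∃ D : Derivation F L L, ∀ j, D (x j) = c j := by
  classical
  let S := MvPolynomial ι F
  let _ : Algebra S L := (aeval x : S →ₐ[F] L).toRingHom.toAlgebra
  have : IsScalarTower F S L :=
    IsScalarTower.of_algebraMap_eq fun r => ((aeval x : S →ₐ[F] L).commutes r).symm
  have hinj : Function.Injective (algebraMap S L) := hx.1
  have : FaithfulSMul S L := (faithfulSMul_iff_algebraMap_injective S L).2 hinj
  let _ : Algebra (FractionRing S) L := FractionRing.liftAlgebra S L
  have : IsScalarTower S (FractionRing S) L := FractionRing.isScalarTower_liftAlgebra S L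
  have h1 : Algebra.IsAlgebraic S L := by
    have h2 := hx.isAlgebraic
    refine ⟨fun z => ?_⟩
    obtain ⟨p, hp, hpz⟩ := h2.isAlgebraic z
    let e : S ≃ₐ[F] Algebra.adjoin F (Set.range x) := hx.1.aevalEquiv
    refine ⟨p.map e.symm.toRingHom, ?_, ?_⟩
    · exact (Polynomial.map_ne_zero_iff e.symm.injective).2 hp
    · rw [Polynomial.aeval_def, Polynomial.eval₂_map]
      rw [Polynomial.aeval_def] at hpz
      rw [← hpz]
      congr 1
      ext a
      obtain ⟨s, rfl⟩ := e.surjective a
      change (aeval x : S →ₐ[F] L) (e.symm (e s)) = ((e s : Algebra.adjoin F (Set.range x)) : L)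
      rw [e.symm_apply_apply]
      exact (hx.1.algebraMap_aevalEquiv s).symm
  have : Algebra.IsAlgebraic (FractionRing S) L :=
    Algebra.IsAlgebraic.extendScalars (IsFractionRing.injective S (FractionRing S))
  have : Algebra.FormallyEtale (FractionRing S) L := Algebra.FormallyEtale.of_isSeparable _ _
  have : Algebra.FormallyEtale S (FractionRing S) :=
    Algebra.FormallyEtale.of_isLocalization (nonZeroDivisors S)
  have : Algebra.FormallyEtale S L := Algebra.FormallyEtale.comp S (FractionRing S) L
  let d : Derivation F S L := MvPolynomial.mkDerivation F c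
  obtain ⟨D, hD⟩ := exists_derivation_extend d
  refine ⟨D, fun j => ?_⟩
  have h := hD (X j)
  have h2 : algebraMap S L (X j) = x j := aeval_X x j
  rw [h2] at h
  rw [h]
  exact mkDerivation_X F c j

/-- The derivations which are dual to algebraically independent elements. -/
theorem exists_derivation {ι : Type} [DecidableEq ι] {x : ι → L} (hx : AlgebraicIndependent F x)
    (i : ι) : ∃ D : Derivation F L L, ∀ j, D (x j) = if j = i then 1 else 0 := by
  classical
  obtain ⟨t, ht, hb⟩ := exists_isTranscendenceBasis_superset (R := F)
    (hx.coe_range : AlgebraicIndependent F ((↑) : Set.range x → L))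
  obtain ⟨D, hD⟩ := exists_derivation_basis hb fun y => if (y : L) = x i then 1 else 0
  refine ⟨D, fun j => ?_⟩
  have h1 := hD ⟨x j, ht ⟨j, rfl⟩⟩
  change D (x j) = if x j = x i then 1 else 0 at h1
  rw [h1]
  simp only [hx.injective.eq_iff]

/-- **The transcendence degree is bounded by the dimension of the space of the derivatives.** -/
theorem trdeg_le {κ : Type} (p : κ → L) (U : Submodule L (κ → L)) [FiniteDimensional L U]
    (hU : ∀ D : Derivation F L L, (fun a => D (p a)) ∈ U) :
    Algebra.trdeg F (IntermediateField.adjoin F (Set.range p)) ≤ Module.finrank L U := by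
  classical
  set E := IntermediateField.adjoin F (Set.range p) with hE
  -- a transcendence basis consisting of elements of the family
  let q : κ → E := fun a => ⟨p a, IntermediateField.subset_adjoin F _ ⟨a, rfl⟩⟩
  have halg : Algebra.IsAlgebraic (Algebra.adjoin F (Set.range q)) E := by
    have hq : Algebra.adjoin F (Set.range p) =
        (Algebra.adjoin F (Set.range q)).map E.val := by
      rw [AlgHom.map_adjoin, ← Set.range_comp]
      rfl
    refine ⟨fun z => ?_⟩
    obtain ⟨r, hr, s, hs, hz⟩ := IntermediateField.mem_adjoin_iff_div.1 z.2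
    rw [hq] at hr hs
    obtain ⟨r, hr, rfl⟩ := hr
    obtain ⟨s, hs, rfl⟩ := hs
    have h1 : z = r / s := Subtype.ext hz
    rw [h1, div_eq_mul_inv]
    exact (isAlgebraic_algebraMap (⟨r, hr⟩ : Algebra.adjoin F (Set.range q))).mul
      (isAlgebraic_algebraMap (⟨s, hs⟩ : Algebra.adjoin F (Set.range q))).inv
  obtain ⟨t, ht, hb⟩ := exists_isTranscendenceBasis_subset (R := F) (Set.range q)
  rw [← hb.cardinalMk_eq_trdeg]
  -- the elements of the basis are values of the family
  choose s hs using fun y : t => ht y.2
  have hind : AlgebraicIndependent F fun y : t => p (s y) := by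
    have h1 := hb.1.map' (f := E.val) E.val.injective
    convert! h1 using 1
    funext y
    change p (s y) = ((y : E) : L)
    rw [← hs y]
  choose D hD using fun y : t => exists_derivation hind y
  have hli : LinearIndependent L fun y : t => (⟨fun a => D y (p a), hU (D y)⟩ : U) := by
    refine LinearIndependent.of_comp ((LinearMap.funLeft L L s).comp U.subtype) ?_
    have h1 : (⇑((LinearMap.funLeft L L s).comp U.subtype) ∘ fun y : t =>
        (⟨fun a => D y (p a), hU (D y)⟩ : U)) = fun y : t => Pi.single y (1 : L) := by
      funext y z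
      change D y (p (s z)) = _
      rw [hD, Pi.single_apply]
    rw [h1]
    rw [linearIndependent_iff']
    intro u g hg i hi
    have h2 := congrFun hg i
    rw [Finset.sum_apply, Finset.sum_eq_single i] at h2
    · simpa using h2
    · intro j _ hj
      rw [Pi.smul_apply, Pi.single_apply, if_neg (Ne.symm hj), smul_zero]
    · intro h
      exact absurd hi h
  exact hli.cardinal_le_rank.trans (by rw [Module.finrank_eq_rank])

end ext

end Pool.Agent.Q50.DR
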