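import Pool.Agent.Q50.MTC.Mt
import Pool.Agent.Q50.DR.Trd
import Pool.Agent.Y121.AHS.Conv

/-!
# The operators given by the derivations of the complex numbers
-/

open CategoryTheory AlgebraicGeometry TensorProduct

universe u

set_option linter.unusedSectionVars false

namespace Pool.Agent.Q50.DR

open Module Pool.Agent.H204R3.SP Pool.Agent.W516.DR
open Pool.Agent.H914 Pool.Agent.H914.VarClass Pool.Agent.H914.VarClass.Obj
  Pool.Agent.H914.WeilCohomology
open Pool.Agent.Y133.Half Pool.Agent.Y121.AH Pool.Agent.Q50.FP Pool.Agent.W516.KC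

variable {k : Type u} [Field k] {𝒱 : VarClass k} {ops : CycleOps 𝒱}
  {W D : WeilCohomology.{u, 0} ops} [Algebra W.K ℂ] [Algebra D.K ℂ] {X Y : 𝒱.Obj} {n : ℕ}

section one

variable (d : ℂ →ₗ[W.K] ℂ)

/-- The operator `l ⊗ a ↦ d l ⊗ a`. -/
noncomputable def dX (X : 𝒱.Obj) (x : (baseW W ℂ).H X) : (baseW W ℂ).H X :=
  d.rTensor (W.H X) (show ℂ ⊗[W.K] W.H X from x)

theorem dX_add (x y : (baseW W ℂ).H X) : dX d X (x + y) = dX d X x + dX d X y :=
  map_add (d.rTensor (W.H X)) _ _

theorem dX_zero : dX d X (0 : (baseW W ℂ).H X) = 0 := map_zero (d.rTensor (W.H X))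

/-- The derivation on the coefficients. -/
def dk (x : (baseW W ℂ).K) : (baseW W ℂ).K := d x

theorem dX_smul_em (l : (baseW W ℂ).K) (a : W.H X) :
    dX d X (l • em W ℂ a) = dk d l • em W ℂ a := by
  have h2 : ∀ l : ℂ, (show (baseW W ℂ).K from l) • em W ℂ a =
      (show (baseW W ℂ).H X from (l ⊗ₜ[W.K] a : ℂ ⊗[W.K] W.H X)) := by
    intro l
    change l • ((1 : ℂ) ⊗ₜ[W.K] a) = _
    rw [TensorProduct.smul_tmul', smul_eq_mul, mul_one]
  have h3 := h2 l
  have h4 := h2 (d l)
  refine (congrArg (dX d X) h3).trans (Eq.trans ?_ h4.symm)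
  exact LinearMap.rTensor_tmul _ _ _ _

variable (hd : ∀ x y, d (x * y) = d x * y + x * d y)

include hd in
theorem dX_smul (l : (baseW W ℂ).K) (x : (baseW W ℂ).H X) :
    dX d X (l • x) = dk d l • x + l • dX d X x := by
  refine base_ind (p := fun x => dX d X (l • x) = dk d l • x + l • dX d X x) ?_ ?_ x
  · intro m a
    rw [smul_smul, dX_smul_em, dX_smul_em, smul_smul, smul_smul, ← add_smul]
    congr 1
    exact hd l m
  · intro a b ha hb
    rw [smul_add, dX_add, ha, hb, dX_add, smul_add, smul_add]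
    abel

include hd in
theorem d_one : d 1 = 0 := by
  have h := hd 1 1
  rw [mul_one, mul_one, one_mul] at h
  have h2 : d 1 + d 1 = d 1 + 0 := by rw [← h, add_zero]
  exact add_left_cancel h2

include hd in
theorem dX_em (a : W.H X) : dX d X (em W ℂ a) = 0 := by
  have h1 := dX_smul_em d 1 a
  rw [one_smul] at h1
  rw [h1]
  have h2 : dk d (1 : (baseW W ℂ).K) = 0 := d_one d hd
  rw [h2, zero_smul]

include hd in
theorem dX_mul (x y : (baseW W ℂ).H X) : dX d X (x * y) = dX d X x * y + x * dX d X y := by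
  refine base_ind (p := fun x => dX d X (x * y) = dX d X x * y + x * dX d X y) ?_ ?_ x
  · intro l a
    refine base_ind (p := fun y => dX d X (l • em W ℂ a * y) =
      dX d X (l • em W ℂ a) * y + l • em W ℂ a * dX d X y) ?_ ?_ y
    · intro m b
      have h1 : l • em W ℂ a * m • em W ℂ b = (l * m) • em W ℂ (a * b) := by
        rw [smul_mul_smul_comm, em_mul]
      rw [h1, dX_smul_em, dX_smul_em, dX_smul_em, smul_mul_smul_comm, smul_mul_smul_comm, ← em_mul,
        ← add_smul]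
      congr 1
      exact hd l m
    · intro b b' hb hb'
      rw [mul_add, dX_add, hb, hb', dX_add, mul_add, mul_add]
      abel
  · intro a b ha hb
    rw [add_mul, dX_add, ha, hb, dX_add, add_mul, add_mul]
    abel

theorem dX_map (f : X ⟶ Y) (z : (baseW W ℂ).H Y) :
    dX d X ((baseW W ℂ).map f z) = (baseW W ℂ).map f (dX d Y z) := by
  refine base_ind (p := fun z => dX d X ((baseW W ℂ).map f z) =
    (baseW W ℂ).map f (dX d Y z)) ?_ ?_ z
  · intro l a
    rw [map_smul, em_map, dX_smul_em, dX_smul_em, map_smul, em_map]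
  · intro a b ha hb
    rw [map_add, dX_add, ha, hb, dX_add, map_add]

theorem dk_add (x y : (baseW W ℂ).K) : dk d (x + y) = dk d x + dk d y := map_add d _ _

theorem dk_mul_ex (l : (baseW W ℂ).K) (r : W.K) :
    dk d (l * ex W ℂ r) = dk d l * ex W ℂ r := by
  change d ((show ℂ from l) * algebraMap W.K ℂ r) = d (show ℂ from l) * algebraMap W.K ℂ r
  rw [mul_comm, ← Algebra.smul_def, map_smul, Algebra.smul_def, mul_comm]

theorem dX_tr (z : (baseW W ℂ).H X) :
    (baseW W ℂ).tr X (dX d X z) = dk d ((baseW W ℂ).tr X z) := by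
  refine base_ind (p := fun z => (baseW W ℂ).tr X (dX d X z) = dk d ((baseW W ℂ).tr X z))
    ?_ ?_ z
  · intro l a
    rw [dX_smul_em, map_smul, map_smul, em_tr, smul_eq_mul, smul_eq_mul, dk_mul_ex]
  · intro a b ha hb
    rw [dX_add, map_add, ha, hb, map_add, dk_add]

theorem dX_gr {i : ℕ} {z : (baseW W ℂ).H X} (hz : z ∈ (baseW W ℂ).gr X i) :
    dX d X z ∈ (baseW W ℂ).gr X i := by
  have hz' : z ∈ (W.gr X i).baseChange ℂ := hz
  refine base_induction (P := fun z : ℂ ⊗[W.K] W.H X => dX d X z ∈ (baseW W ℂ).gr X i)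
    ?_ ?_ ?_ hz'
  · exact (dX_zero d (X := X)).symm ▸ Submodule.zero_mem _
  · intro x y hx hy
    exact (dX_add d (X := X) x y).symm ▸ Submodule.add_mem _ hx hy
  · intro l a ha
    exact Submodule.tmul_mem_baseChange_of_mem _ ha

end one

section two

variable (hrat : ∀ r : W.K, ∃ q : ℚ, (q : W.K) = r) (δ : Derivation D.K ℂ ℂ)

include hrat in
theorem delta_smul (r : W.K) (z : ℂ) : δ (r • z) = r • δ z := by
  obtain ⟨q, rfl⟩ := hrat r
  have h1 : ∀ z : ℂ, (q : W.K) • z = (q : D.K) • z := by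
    intro z
    rw [Algebra.smul_def, Algebra.smul_def, map_ratCast, map_ratCast]
  rw [h1, h1, Derivation.map_smul]

/-- The derivation as a linear map over the rational numbers. -/
noncomputable def dW : ℂ →ₗ[W.K] ℂ where
  toFun := δ
  map_add' := map_add δ
  map_smul' r z := delta_smul hrat δ r z

/-- The derivation as a linear map. -/
noncomputable def dD : ℂ →ₗ[D.K] ℂ := δ.toLinearMap

theorem dW_mul (x y : ℂ) : dW hrat δ (x * y) = dW hrat δ x * y + x * dW hrat δ y := by
  change δ (x * y) = δ x * y + x * δ y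
  rw [Derivation.leibniz, smul_eq_mul, smul_eq_mul]
  ring

theorem dD_mul (x y : ℂ) : dD (D := D) δ (x * y) = dD δ x * y + x * dD δ y := by
  change δ (x * y) = δ x * y + x * δ y
  rw [Derivation.leibniz, smul_eq_mul, smul_eq_mul]
  ring

variable (C : Comparison (baseW W ℂ) (baseW D ℂ)) (hs : ∀ z : ℂ, (show ℂ from C.s z) = z)

include hs in
theorem s_symm (z : ℂ) : (show ℂ from C.s.symm z) = z := by
  have h1 := hs (show ℂ from C.s.symm z)
  have h2 : C.s (C.s.symm z) = (z : (baseW D ℂ).K) := C.s.apply_symm_apply z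
  exact h1.symm.trans h2

include hs in
theorem tr_eq (Y : 𝒱.Obj) (x : (baseW W ℂ).H Y) : (show ℂ from (baseW D ℂ).tr Y (C.e Y x)) =
    (show ℂ from C.c) ^ Y.dim * (show ℂ from (baseW W ℂ).tr Y x) := by
  have h5 : (show ℂ from (baseW D ℂ).tr Y (C.e Y x)) =
    (show ℂ from C.c) ^ Y.dim * (show ℂ from C.s ((baseW W ℂ).tr Y x)) := C.tr Y x
  have h6 : (show ℂ from C.s ((baseW W ℂ).tr Y x)) = (show ℂ from (baseW W ℂ).tr Y x) :=
    hs (show ℂ from (baseW W ℂ).tr Y x)
  exact h5.trans (congrArg (fun w => (show ℂ from C.c) ^ Y.dim * w) h6)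

/-- **The operator given by a derivation.** -/
noncomputable def Dd (Y : 𝒱.Obj) : Module.End (baseW W ℂ).K ((baseW W ℂ).H Y) where
  toFun x := (C.e Y).symm (dX (dD δ) Y (C.e Y x)) - dX (dW hrat δ) Y x
  map_add' x y := by
    rw [map_add, dX_add, map_add, dX_add]
    abel
  map_smul' r x := by
    rw [C.semi, dX_smul _ (dD_mul δ), map_add, Pool.Agent.Q50.MTC.cmp_symm_smul, Pool.Agent.Q50.MTC.cmp_symm_smul,
      (C.e Y).symm_apply_apply, (C.s).symm_apply_apply, dX_smul _ (dW_mul hrat δ), RingHom.id_apply,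
      smul_sub]
    have h1 : C.s.symm (dk (dD δ) (C.s r)) = dk (dW hrat δ) r := by
      have h2 : (show ℂ from C.s r) = (show ℂ from r) := hs r
      have h3 := s_symm C hs (δ (show ℂ from C.s r))
      have h4 : δ (show ℂ from C.s r) = δ (show ℂ from r) := congrArg δ h2
      exact h3.trans h4
    rw [h1]
    abel

theorem Dd_apply (Y : 𝒱.Obj) (x : (baseW W ℂ).H Y) : Dd hrat δ C hs Y x =
    (C.e Y).symm (dX (dD δ) Y (C.e Y x)) - dX (dW hrat δ) Y x := rfl

/-- The logarithmic derivative of the constant `c`. -/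
noncomputable def lc : ℂ := δ (show ℂ from C.c) / (show ℂ from C.c)

theorem delta_pow (n : ℕ) : δ ((show ℂ from C.c) ^ n) = n * lc δ C * (show ℂ from C.c) ^ n := by
  have hc : (show ℂ from C.c) ≠ 0 := C.ne
  rw [Derivation.leibniz_pow, lc]
  rcases n with _ | n
  · simp
  · rw [Nat.add_sub_cancel, nsmul_eq_mul, smul_eq_mul, pow_succ]
    field_simp

theorem Dd_drv : Drv (baseW W ℂ) (Dd hrat δ C hs) (show (baseW W ℂ).K from lc δ C) where
  mul Y x y := by
    rw [Dd_apply, Dd_apply, Dd_apply, map_mul, dX_mul _ (dD_mul δ), map_add, map_mul, map_mul,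
      (C.e Y).symm_apply_apply, (C.e Y).symm_apply_apply, dX_mul _ (dW_mul hrat δ), sub_mul,
      mul_sub]
    abel
  map {Y Z} f z := by
    rw [Dd_apply, Dd_apply, C.nat, dX_map, dX_map, map_sub]
    congr 1
    apply (C.e Y).injective
    rw [(C.e Y).apply_symm_apply, C.nat, (C.e Z).apply_symm_apply]
  tr Y x := by
    rw [Dd_apply, map_sub, dX_tr]
    have h1 : ∀ z : (baseW D ℂ).H Y, (show ℂ from (baseW W ℂ).tr Y ((C.e Y).symm z)) =
        ((show ℂ from C.c) ^ Y.dim)⁻¹ * (show ℂ from (baseW D ℂ).tr Y z) := by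
      intro z
      obtain ⟨z, rfl⟩ := (C.e Y).surjective z
      have hc : (show ℂ from C.c) ≠ 0 := C.ne
      rw [(C.e Y).symm_apply_apply, tr_eq C hs, ← mul_assoc,
        inv_mul_cancel₀ (pow_ne_zero _ hc), one_mul]
    have h2 := h1 (dX (dD δ) Y (C.e Y x))
    have h3 : (show ℂ from (baseW D ℂ).tr Y (dX (dD δ) Y (C.e Y x))) =
        δ ((show ℂ from C.c) ^ Y.dim * (show ℂ from (baseW W ℂ).tr Y x)) := by
      rw [dX_tr]
      exact congrArg δ (tr_eq C hs Y x)
    have h4 : (show ℂ from C.c) ≠ 0 := C.ne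
    have h5 : (show ℂ from (baseW W ℂ).tr Y ((C.e Y).symm (dX (dD δ) Y (C.e Y x)))) -
        δ (show ℂ from (baseW W ℂ).tr Y x) =
        lc δ C * (Y.dim : ℂ) * (show ℂ from (baseW W ℂ).tr Y x) := by
      rw [h2, h3, Derivation.leibniz, delta_pow, smul_eq_mul, smul_eq_mul]
      field_simp
      ring
    exact h5

theorem Dd_gr {i : ℕ} {z : (baseW W ℂ).H X} (hz : z ∈ (baseW W ℂ).gr X i) :
    Dd hrat δ C hs X z ∈ (baseW W ℂ).gr X i := by
  rw [Dd_apply]
  refine Submodule.sub_mem _ ?_ (dX_gr _ hz)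
  rw [← C.gr, (C.e X).apply_symm_apply]
  exact dX_gr _ (C.gr.2 hz)

/-- A de Rham-Betti class of degree `2 j`. -/
theorem Dd_class {c : W.H X} {c' : D.H X} {j : ℕ}
    (h : C.e X (em W ℂ c) = (show (baseW D ℂ).K from (show ℂ from C.c) ^ j) • em D ℂ c') :
    Dd hrat δ C hs X (em W ℂ c) =
      (show (baseW W ℂ).K from (j * lc δ C : ℂ)) • em W ℂ c := by
  rw [Dd_apply, dX_em _ (dW_mul hrat δ), sub_zero, h, dX_smul_em]
  have h1 : dk (dD δ) (show (baseW D ℂ).K from (show ℂ from C.c) ^ j) =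
      (show (baseW D ℂ).K from (j * lc δ C : ℂ)) *
        (show (baseW D ℂ).K from (show ℂ from C.c) ^ j) := delta_pow δ C j
  rw [h1, mul_smul, ← h, Pool.Agent.Q50.MTC.cmp_symm_smul, (C.e X).symm_apply_apply]
  congr 1
  exact s_symm C hs _

end two

end Pool.Agent.Q50.DR
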