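import Pool.Agent.Q50.DR.Sec

/-!
# The relations between the periods, if the space of periods has the expected dimension
-/

open TensorProduct

set_option linter.unusedSectionVars false

namespace Pool.Agent.Q50.DR

open Module Pool.Agent.W516.DR

section rel

variable {K F V V' : Type} [Field K] [Field F] [AddCommGroup V] [Module K V]
  [FiniteDimensional K V] [AddCommGroup V'] [Module F V'] [FiniteDimensional F V']
  [Algebra K ℂ] [Algebra F ℂ] (e : (ℂ ⊗[K] V) ≃ₗ[ℂ] (ℂ ⊗[F] V'))

/-- The extension of a linear form. -/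
noncomputable def xf (f : V' →ₗ[F] F) : (ℂ ⊗[F] V') →ₗ[ℂ] ℂ :=
  (TensorProduct.AlgebraTensorModule.rid F ℂ ℂ).toLinearMap ∘ₗ f.baseChange ℂ

theorem xf_tmul (f : V' →ₗ[F] F) (l : ℂ) (v : V') :
    xf f (l ⊗ₜ[F] v) = algebraMap F ℂ (f v) * l := by
  change TensorProduct.AlgebraTensorModule.rid F ℂ ℂ (f.baseChange ℂ (l ⊗ₜ[F] v)) = _
  rw [LinearMap.baseChange_tmul, TensorProduct.AlgebraTensorModule.rid_tmul, Algebra.smul_def]

theorem cmp_xf (μ : ℂ →ₗ[F] F) (f : V' →ₗ[F] F) (x : ℂ ⊗[F] V') :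
    f (cmp μ x) = μ (xf f x) := by
  induction x with
  | zero => simp only [map_zero]
  | add a b ha hb => simp only [map_add, ha, hb]
  | tmul l v =>
    rw [cmp_tmul, map_smul, smul_eq_mul, xf_tmul, ← Algebra.smul_def, map_smul, smul_eq_mul,
      mul_comm]

theorem cmp_bc (μ : ℂ →ₗ[F] F) (P : V' →ₗ[F] V') (x : ℂ ⊗[F] V') :
    cmp μ (P.baseChange ℂ x) = P (cmp μ x) := by
  induction x with
  | zero => simp only [map_zero]
  | add a b ha hb => simp only [map_add, ha, hb]
  | tmul l v => rw [LinearMap.baseChange_tmul, cmp_tmul, cmp_tmul, map_smul]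

/-- The period given by a linear form and a vector. -/
noncomputable def pd (p : (V' →ₗ[F] F) × V) : ℂ := xf p.1 (e ((1 : ℂ) ⊗ₜ[K] p.2))

/-- The component of the isomorphism. -/
noncomputable def cmu : (ℂ →ₗ[F] F) →ₗ[F] (V →+ V') where
  toFun μ :=
    { toFun := fun v => cmp μ (e ((1 : ℂ) ⊗ₜ[K] v))
      map_zero' := by rw [TensorProduct.tmul_zero, map_zero, map_zero]
      map_add' := fun a b => by rw [TensorProduct.tmul_add, map_add, map_add] }
  map_add' μ μ' := by
    ext v
    change cmp (μ + μ') (e ((1 : ℂ) ⊗ₜ[K] v)) =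
      cmp μ (e ((1 : ℂ) ⊗ₜ[K] v)) + cmp μ' (e ((1 : ℂ) ⊗ₜ[K] v))
    induction e ((1 : ℂ) ⊗ₜ[K] v) with
    | zero => simp only [map_zero, add_zero]
    | add a b ha hb =>
      rw [map_add, ha, hb, map_add, map_add]
      abel
    | tmul l v => rw [cmp_tmul, cmp_tmul, cmp_tmul, LinearMap.add_apply, add_smul]
  map_smul' r μ := by
    ext v
    change cmp (r • μ) (e ((1 : ℂ) ⊗ₜ[K] v)) = r • cmp μ (e ((1 : ℂ) ⊗ₜ[K] v))
    induction e ((1 : ℂ) ⊗ₜ[K] v) with
    | zero => simp only [map_zero, smul_zero]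
    | add a b ha hb => rw [map_add, ha, hb, map_add, smul_add]
    | tmul l v => rw [cmp_tmul, cmp_tmul, LinearMap.smul_apply, smul_eq_mul, mul_smul]

theorem cmu_apply (μ : ℂ →ₗ[F] F) (v : V) : cmu e μ v = cmp μ (e ((1 : ℂ) ⊗ₜ[K] v)) := rfl

theorem form_cmu (μ : ℂ →ₗ[F] F) (f : V' →ₗ[F] F) (v : V) :
    f (cmu e μ v) = μ (xf f (e ((1 : ℂ) ⊗ₜ[K] v))) := by rw [cmu_apply, cmp_xf]

variable (hK : ∀ r : K, ∃ q : ℚ, (q : K) = r)

include hK in
theorem add_smulK [CharZero F] (φ : V →+ V') (r : K) (v : V) : ∃ q : ℚ, (q : K) = r ∧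
    φ (r • v) = (q : F) • φ v := by
  obtain ⟨q, rfl⟩ := hK r
  refine ⟨q, rfl, ?_⟩
  exact map_ratCast_smul φ K F q v

include hK in
/-- The space of additive maps is of finite dimension. -/
theorem finite_add [CharZero F] : FiniteDimensional F (V →+ V') := by
  let b := Module.finBasis K V
  let T : (V →+ V') →ₗ[F] (Fin (finrank K V) → V') :=
    { toFun := fun φ i => φ (b i)
      map_add' := fun _ _ => rfl
      map_smul' := fun _ _ => rfl }
  refine FiniteDimensional.of_injective T fun φ ψ h => ?_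
  ext v
  rw [← b.sum_repr v, map_sum, map_sum]
  refine Finset.sum_congr rfl fun i _ => ?_
  obtain ⟨q, hq, h1⟩ := add_smulK (F := F) hK φ (b.repr v i) (b i)
  obtain ⟨q', hq', h2⟩ := add_smulK (F := F) hK ψ (b.repr v i) (b i)
  rw [h1, h2]
  have h3 : φ (b i) = ψ (b i) := congrFun h i
  have : CharZero K := (algebraMap K ℂ).charZero
  have h4 : q = q' := by
    have h5 : (q : K) = (q' : K) := hq.trans hq'.symm
    exact_mod_cast h5
  rw [h3, h4]

/-- The space of the periods. -/
noncomputable def pspace : Submodule F ℂ := Submodule.span F (Set.range (pd e))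

include hK in
/-- The dimension of the space of the periods. -/
theorem finrank_pspace [CharZero F] : finrank F (pspace e) ≤
    finrank F (LinearMap.range (cmu e)) := by
  have : FiniteDimensional F (V →+ V') := finite_add hK
  -- the kernel vanishes on the periods
  have h1 : ∀ μ ∈ LinearMap.ker (cmu e), ∀ z ∈ pspace e, μ z = 0 := by
    intro μ hμ z hz
    have h2 : pspace e ≤ LinearMap.ker μ := by
      unfold pspace
      rw [Submodule.span_le]
      rintro _ ⟨p, rfl⟩
      change μ (xf p.1 (e ((1 : ℂ) ⊗ₜ[K] p.2))) = 0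
      rw [← form_cmu]
      have h3 : cmu e μ = 0 := hμ
      rw [h3]
      exact map_zero p.1
    exact h2 hz
  let Θ : pspace e →ₗ[F] Module.Dual F ((ℂ →ₗ[F] F) ⧸ LinearMap.ker (cmu e)) :=
    { toFun := fun z => (LinearMap.ker (cmu e)).liftQ
        ({ toFun := fun μ => μ z
           map_add' := fun _ _ => rfl
           map_smul' := fun _ _ => rfl } : (ℂ →ₗ[F] F) →ₗ[F] F) (fun μ hμ => h1 μ hμ z z.2)
      map_add' := fun a b => by
        ext μ
        exact map_add μ (a : ℂ) (b : ℂ)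
      map_smul' := fun r a => by
        ext μ
        exact map_smul μ r (a : ℂ) }
  have hΘ : Function.Injective Θ := by
    rw [← LinearMap.ker_eq_bot, LinearMap.ker_eq_bot']
    intro z hz
    apply Subtype.ext
    refine eq_zero_of_dual (k := F) (L := ℂ) fun μ => ?_
    exact congrArg (fun g : Module.Dual F ((ℂ →ₗ[F] F) ⧸ LinearMap.ker (cmu e)) =>
      g (Submodule.Quotient.mk μ)) hz
  let E := (cmu e).quotKerEquivRange
  have : FiniteDimensional F ((ℂ →ₗ[F] F) ⧸ LinearMap.ker (cmu e)) := E.symm.finiteDimensional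
  refine (LinearMap.finrank_le_finrank_of_injective hΘ).trans ?_
  rw [Subspace.dual_finrank_eq, E.finrank_eq]

variable (A : Set ((V →ₗ[K] V) × (V' →ₗ[F] V')))

/-- The additive maps which are compatible with the pairs of endomorphisms. -/
def comp : Submodule F (V →+ V') where
  carrier := {φ | ∀ p ∈ A, ∀ v, φ (p.1 v) = p.2 (φ v)}
  zero_mem' := fun p _ v => (map_zero p.2).symm
  add_mem' := by
    intro a b ha hb p hp v
    change a (p.1 v) + b (p.1 v) = p.2 (a v + b v)
    rw [ha p hp, hb p hp, map_add]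
  smul_mem' := by
    intro r a ha p hp v
    change r • a (p.1 v) = p.2 (r • a v)
    rw [ha p hp, map_smul]

variable {A}

theorem cmu_comp (hA : ∀ p ∈ A, ∀ x, e (p.1.baseChange ℂ x) = p.2.baseChange ℂ (e x))
    (μ : ℂ →ₗ[F] F) : cmu e μ ∈ comp A := by
  intro p hp v
  rw [cmu_apply, cmu_apply, ← cmp_bc, ← hA p hp, LinearMap.baseChange_tmul]

/-- The endomorphism of the extension given by an additive map. -/
noncomputable def liftg [CharZero F] (φ : V →+ V') : V →ₗ[K] (ℂ ⊗[K] V) where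
  toFun v := e.symm ((1 : ℂ) ⊗ₜ[F] φ v)
  map_add' a b := by rw [map_add, TensorProduct.tmul_add, map_add]
  map_smul' r v := by
    obtain ⟨q, rfl, h1⟩ := add_smulK (F := F) hK φ r v
    rw [h1, RingHom.id_apply]
    have h2 : (1 : ℂ) ⊗ₜ[F] ((q : F) • φ v) = (q : ℂ) • ((1 : ℂ) ⊗ₜ[F] φ v) := by
      rw [TensorProduct.tmul_smul, ← algebraMap_smul (A := ℂ) (q : F), map_ratCast]
    rw [h2, map_smul, ← algebraMap_smul (A := ℂ) (q : K), map_ratCast]

theorem liftg_apply [CharZero F] (φ : V →+ V') (v : V) :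
    liftg e hK φ v = e.symm ((1 : ℂ) ⊗ₜ[F] φ v) := rfl

include hK in
/-- The dimension of the space of the compatible maps. -/
theorem finrank_comp [CharZero F]
    (hA : ∀ p ∈ A, ∀ x, e (p.1.baseChange ℂ x) = p.2.baseChange ℂ (e x))
    (B : Submodule K (Module.End K V)) (hB : ∀ b, b ∈ B ↔ ∀ p ∈ A, ∀ v, b (p.1 v) = p.1 (b v)) :
    finrank F (comp (K := K) A) ≤ finrank K B := by
  classical
  have : FiniteDimensional F (V →+ V') := finite_add hK
  obtain ⟨hfd, hle⟩ := finrank_span_le (K := K) (V := V) B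
  refine le_trans ?_ hle
  let b := Module.finBasis F (comp (K := K) A)
  let Z : Fin (finrank F (comp (K := K) A)) → Module.End ℂ (ℂ ⊗[K] V) := fun i =>
    LinearMap.liftBaseChange ℂ (liftg e hK (b i : V →+ V'))
  have hZ : ∀ i v, Z i ((1 : ℂ) ⊗ₜ[K] v) = e.symm ((1 : ℂ) ⊗ₜ[F] (b i : V →+ V') v) := by
    intro i v
    change LinearMap.liftBaseChange ℂ (liftg e hK (b i : V →+ V')) ((1 : ℂ) ⊗ₜ[K] v) = _
    rw [LinearMap.liftBaseChange_tmul, one_smul, liftg_apply]
  have hsymm : ∀ p ∈ A, ∀ y, e.symm (p.2.baseChange ℂ y) = p.1.baseChange ℂ (e.symm y) := by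
    intro p hp y
    apply e.injective
    rw [e.apply_symm_apply, hA p hp, e.apply_symm_apply]
  have hmem : ∀ i, Z i ∈
      Submodule.span ℂ ((fun A : Module.End K V => A.baseChange ℂ) '' (B : Set _)) := by
    intro i
    refine mem_span_of_cmp B _ fun ν => (hB _).2 fun p hp v => ?_
    rw [cmpE_apply, cmpE_apply, hZ, hZ, (b i).2 p hp v]
    have h1 : (1 : ℂ) ⊗ₜ[F] p.2 ((b i : V →+ V') v) =
        p.2.baseChange ℂ ((1 : ℂ) ⊗ₜ[F] (b i : V →+ V') v) := by
      rw [LinearMap.baseChange_tmul]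
    rw [h1, hsymm p hp, cmp_bc]
  have hli : LinearIndependent ℂ fun i => (⟨Z i, hmem i⟩ :
      Submodule.span ℂ ((fun A : Module.End K V => A.baseChange ℂ) '' (B : Set _))) := by
    refine LinearIndependent.of_comp (Submodule.subtype _) ?_
    rw [Fintype.linearIndependent_iff]
    intro z hz i
    refine eq_zero_of_dual (k := F) (L := ℂ) fun μ => ?_
    have h1 : ∀ v, ∑ j, (z j) ⊗ₜ[F] (b j : V →+ V') v = (0 : ℂ ⊗[F] V') := by
      intro v
      have h2 := LinearMap.congr_fun hz ((1 : ℂ) ⊗ₜ[K] v)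
      rw [LinearMap.sum_apply, LinearMap.zero_apply] at h2
      have h3 : ∀ j, (z j • ((Submodule.subtype _) ∘ fun i => (⟨Z i, hmem i⟩ :
          Submodule.span ℂ ((fun A : Module.End K V => A.baseChange ℂ) '' (B : Set _)))) j)
            ((1 : ℂ) ⊗ₜ[K] v) = e.symm (z j ⊗ₜ[F] (b j : V →+ V') v) := by
        intro j
        rw [LinearMap.smul_apply]
        change z j • Z j ((1 : ℂ) ⊗ₜ[K] v) = _
        rw [hZ, ← map_smul, TensorProduct.smul_tmul', smul_eq_mul, mul_one]
      rw [Finset.sum_congr rfl fun j _ => h3 j, ← map_sum] at h2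
      exact (map_eq_zero_iff e.symm e.symm.injective).1 h2
    have h2 : ∑ j, μ (z j) • b j = 0 := by
      apply Subtype.ext
      ext v
      have h3 := congrArg (cmp μ) (h1 v)
      rw [map_sum, map_zero] at h3
      refine Eq.trans ?_ h3
      have h4 : ((∑ j, μ (z j) • b j : comp (K := K) A) : V →+ V') =
          ∑ j, μ (z j) • (b j : V →+ V') := by
        have h5 := map_sum (Submodule.subtype (comp (K := K) A)) (fun j => μ (z j) • b j)
          Finset.univ
        simp only [map_smul, Submodule.subtype_apply] at h5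
        exact h5
      rw [h4, AddMonoidHom.finsetSum_apply]
      refine Finset.sum_congr rfl fun j _ => ?_
      rw [cmp_tmul]
      rfl
    exact (Fintype.linearIndependent_iff.1 b.linearIndependent) (fun j => μ (z j)) h2 i
  have h1 := hli.fintype_card_le_finrank
  rwa [Fintype.card_fin] at h1

include hK in
/-- **The relations between the periods are stable.** Let `A` be a set of pairs `(P, P')` of
corresponding endomorphisms, and let `B` be the commutant of the first components. If the dimension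
of the space of the periods is at least the dimension of `B`, then the relations between the periods
are stable under `B`. -/
theorem rel_stable [CharZero F]
    (hA : ∀ p ∈ A, ∀ x, e (p.1.baseChange ℂ x) = p.2.baseChange ℂ (e x))
    (B : Submodule K (Module.End K V)) (hB : ∀ b, b ∈ B ↔ ∀ p ∈ A, ∀ v, b (p.1 v) = p.1 (b v))
    (hdim : finrank K B ≤ finrank F (pspace e))
    {ι : Type} [Fintype ι] (f : ι → (V' →ₗ[F] F)) (v : ι → V)
    (h : ∑ i, xf (f i) (e ((1 : ℂ) ⊗ₜ[K] v i)) = 0) {b : Module.End K V} (hb : b ∈ B) :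
    ∑ i, xf (f i) (e ((1 : ℂ) ⊗ₜ[K] b (v i))) = 0 := by
  have : FiniteDimensional F (V →+ V') := finite_add hK
  have h1 : LinearMap.range (cmu e) ≤ comp (K := K) A := by
    rintro _ ⟨μ, rfl⟩
    exact cmu_comp e hA μ
  have h2 : LinearMap.range (cmu e) = comp (K := K) A :=
    Submodule.eq_of_le_of_finrank_le h1 (((finrank_comp e hK hA B hB).trans hdim).trans
      (finrank_pspace e hK))
  refine eq_zero_of_dual (k := F) (L := ℂ) fun μ => ?_
  -- the composition with `b`
  have h3 : (cmu e μ).comp b.toAddMonoidHom ∈ comp (K := K) A := by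
    intro p hp w
    change cmu e μ (b (p.1 w)) = p.2 (cmu e μ (b w))
    rw [(hB b).1 hb p hp, cmu_comp e hA μ p hp]
  rw [← h2] at h3
  obtain ⟨μ', hμ'⟩ := h3
  rw [map_sum]
  have h4 : ∀ i, μ (xf (f i) (e ((1 : ℂ) ⊗ₜ[K] b (v i)))) =
      μ' (xf (f i) (e ((1 : ℂ) ⊗ₜ[K] v i))) := by
    intro i
    rw [← form_cmu, ← form_cmu, hμ']
    rfl
  rw [Finset.sum_congr rfl fun i _ => h4 i, ← map_sum, h, map_zero]

end rel

end Pool.Agent.Q50.DR
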