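import Pool.Agent.Q50.DR.Hdg

/-!
# De Rham-Betti classes are Hodge classes
-/

open CategoryTheory AlgebraicGeometry TensorProduct

universe u

set_option linter.unusedSectionVars false

namespace Pool.Agent.Q50.DR

open Module Pool.Agent.H204R3.SP Pool.Agent.W516.DR
open Pool.Agent.H914 Pool.Agent.H914.VarClass Pool.Agent.H914.VarClass.Obj
  Pool.Agent.H914.WeilCohomology
open Pool.Agent.Y133.Half Pool.Agent.Y121.AH Pool.Agent.Q50.FP Pool.Agent.W516.KC
open Pool.Agent.Q50.MTC (HodgeDecomposition mt mtp mtp_semi mtp_br mtp_skew mem_mtp dn_mtp mt_le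
  hodge_of_mtp kills_of_comm yy yy_apply yy_kills yy_mt mt_comm mt_dn mt_br hh hC hh_cl hh_of_kills
  yy_skew yy_dn em_dg cC_dg)

variable {k : Type u} [Field k] {𝒱 : VarClass k} {ops : CycleOps 𝒱}
  {W D : WeilCohomology.{u, 0} ops} [Algebra W.K ℂ] [Algebra D.K ℂ] {T : HodgeDecomposition W}
  {X Y : 𝒱.Obj} {n : ℕ}

section cmp

variable {K V : Type} [Field K] [AddCommGroup V] [Module K V] [FiniteDimensional K V]
  [Algebra K ℂ]

theorem cmp_mem {U : Submodule K V} {z : ℂ ⊗[K] V} (hz : z ∈ U.baseChange ℂ)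
    (ν : ℂ →ₗ[K] K) : cmp ν z ∈ U := by
  rw [Submodule.baseChange_eq_span] at hz
  refine Submodule.span_induction (p := fun z _ => ∀ ν : ℂ →ₗ[K] K, cmp ν z ∈ U)
    ?_ ?_ ?_ ?_ hz ν
  · rintro _ ⟨v, hv, rfl⟩ ν
    change cmp ν ((1 : ℂ) ⊗ₜ[K] v) ∈ U
    rw [cmp_tmul]
    exact U.smul_mem _ hv
  · intro ν
    rw [map_zero]
    exact U.zero_mem
  · intro a b _ _ ha hb ν
    rw [map_add]
    exact U.add_mem (ha ν) (hb ν)
  · intro l a _ ha ν
    have h1 : ∀ a : ℂ ⊗[K] V, cmp ν (l • a) = cmp (ν ∘ₗ LinearMap.mulLeft K l) a := by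
      intro a
      induction a with
      | zero => rw [smul_zero, map_zero, map_zero]
      | add a b ha hb => rw [smul_add, map_add, ha, hb, map_add]
      | tmul x v =>
        rw [TensorProduct.smul_tmul', cmp_tmul, cmp_tmul]
        rfl
    rw [h1 a]
    exact ha _

end cmp

/-- The subspace is the sum of its homogeneous parts. -/
theorem graded_of_dg {V : WeilCohomology.{u, 0} ops} {U : Submodule V.K (V.H X)}
    (h : ∀ u ∈ U, dg V X u ∈ U) : U ≤ ⨆ i, U ⊓ V.gr X i := by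
  have h1 := Submodule.inf_iSup_genEigenspace (f := dg V X) (p := U) h 1
  have h2 : (⨆ μ, (dg V X).genEigenspace μ 1) = ⊤ := by
    rw [eq_top_iff]
    intro x _
    refine dg_ind (p := fun x => x ∈ ⨆ μ, (dg V X).genEigenspace μ 1) ?_ ?_ x
    · intro i x hx
      refine Submodule.mem_iSup_of_mem (i : V.K) ?_
      have h3 : x ∈ (dg V X).eigenspace (i : V.K) := Module.End.mem_eigenspace_iff.2 (dg_of hx)
      exact h3
    · intro a b ha hb
      exact Submodule.add_mem _ ha hb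
  rw [h2, inf_top_eq] at h1
  conv_lhs => rw [h1]
  refine iSup_le fun μ => ?_
  by_cases hμ : ∃ i : ℕ, (i : V.K) = μ
  · obtain ⟨i, rfl⟩ := hμ
    refine le_iSup_of_le i (inf_le_inf le_rfl ?_)
    intro x hx
    have h3 : x ∈ (dg V X).eigenspace (i : V.K) := hx
    exact mem_gr_iff.2 (Module.End.mem_eigenspace_iff.1 h3)
  · push Not at hμ
    intro x hx
    have h3 : x ∈ (dg V X).eigenspace μ := hx.2
    rw [eq_zero_of_dg (Module.End.mem_eigenspace_iff.1 h3) hμ]
    exact Submodule.zero_mem _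

theorem dg_of_graded {V : WeilCohomology.{u, 0} ops} {U : Submodule V.K (V.H X)}
    (h : U ≤ ⨆ i, U ⊓ V.gr X i) : ∀ u ∈ U, dg V X u ∈ U := by
  intro u hu
  have h1 : (⨆ i, U ⊓ V.gr X i) ≤ U.comap (dg V X) := by
    refine iSup_le fun i x hx => ?_
    change dg V X x ∈ U
    rw [dg_of hx.2]
    exact U.smul_mem _ hx.1
  exact h1 (h hu)

variable (hrat : ∀ r : W.K, ∃ q : ℚ, (q : W.K) = r) (δ : Derivation D.K ℂ ℂ)
  {C : Comparison (baseW W ℂ) (baseW D ℂ)} (hs : ∀ z : ℂ, (show ℂ from C.s z) = z)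

/-- The subspace `U` is a sub-object. -/
def SubObj (C : Comparison (baseW W ℂ) (baseW D ℂ)) (X : 𝒱.Obj) (U : Submodule W.K (W.H X)) :
    Prop :=
  U ≤ (⨆ i, U ⊓ W.gr X i) ∧ ∃ U' : Submodule D.K (D.H X), ∀ x : ℂ ⊗[W.K] W.H X,
    x ∈ U.baseChange ℂ ↔ (show ℂ ⊗[D.K] D.H X from C.e X x) ∈ U'.baseChange ℂ

theorem rTensor_mem {F L V : Type} [Field F] [Field L] [Algebra F L] [AddCommGroup V] [Module F V]
    (d : L →ₗ[F] L) {U : Submodule F V} {x : L ⊗[F] V} (hx : x ∈ U.baseChange L) :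
    d.rTensor V x ∈ U.baseChange L := by
  rw [Submodule.baseChange_eq_span] at hx ⊢
  have key : ∀ x : L ⊗[F] V, x ∈ Submodule.span L ((TensorProduct.mk F L V 1) '' U) →
      ∀ l : L, d.rTensor V (l • x) ∈ Submodule.span L ((TensorProduct.mk F L V 1) '' U) := by
    intro x hx
    induction hx using Submodule.span_induction with
    | mem x h =>
      obtain ⟨v, hv, rfl⟩ := h
      intro l
      have h1 : d.rTensor V (l • (TensorProduct.mk F L V 1) v) =
          d l • (TensorProduct.mk F L V 1) v := by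
        rw [TensorProduct.mk_apply, TensorProduct.smul_tmul', LinearMap.rTensor_tmul,
          TensorProduct.smul_tmul', smul_eq_mul, smul_eq_mul, mul_one, mul_one]
      rw [h1]
      exact Submodule.smul_mem _ _ (Submodule.subset_span ⟨v, hv, rfl⟩)
    | zero => intro l; rw [smul_zero, map_zero]; exact Submodule.zero_mem _
    | add a b _ _ ha hb =>
      intro l
      rw [smul_add, map_add]
      exact Submodule.add_mem _ (ha l) (hb l)
    | smul r a _ ha =>
      intro l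
      rw [smul_smul]
      exact ha _
  have h1 := key x hx 1
  rwa [one_smul] at h1

theorem dg_base {U : Submodule W.K (W.H X)} (h : ∀ u ∈ U, dg W X u ∈ U)
    {x : (baseW W ℂ).H X} (hx : (show ℂ ⊗[W.K] W.H X from x) ∈ U.baseChange ℂ) :
    (show ℂ ⊗[W.K] W.H X from dg (baseW W ℂ) X x) ∈ U.baseChange ℂ := by
  refine base_induction (P := fun x => (show ℂ ⊗[W.K] W.H X from dg (baseW W ℂ) X x) ∈
    U.baseChange ℂ) ?_ ?_ ?_ hx
  · exact (map_zero (dg (baseW W ℂ) X)).symm ▸ Submodule.zero_mem _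
  · intro a b ha hb
    exact (map_add (dg (baseW W ℂ) X) a b).symm ▸ Submodule.add_mem _ ha hb
  · intro l a ha
    have h1 : (l ⊗ₜ[W.K] a : ℂ ⊗[W.K] W.H X) =
        (show ℂ ⊗[W.K] W.H X from (show (baseW W ℂ).K from l) • em W ℂ a) := by
      change _ = l • ((1 : ℂ) ⊗ₜ[W.K] a)
      rw [TensorProduct.smul_tmul', smul_eq_mul, mul_one]
    rw [h1]
    have h2 : dg (baseW W ℂ) X ((show (baseW W ℂ).K from l) • em W ℂ a) =
        (show (baseW W ℂ).K from l) • em W ℂ (dg W X a) := by rw [map_smul, em_dg]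
    rw [h2]
    have h3 : (show ℂ ⊗[W.K] W.H X from (show (baseW W ℂ).K from l) • em W ℂ (dg W X a)) =
        (l ⊗ₜ[W.K] dg W X a : ℂ ⊗[W.K] W.H X) := by
      change l • ((1 : ℂ) ⊗ₜ[W.K] dg W X a) = _
      rw [TensorProduct.smul_tmul', smul_eq_mul, mul_one]
    rw [h3]
    exact Submodule.tmul_mem_baseChange_of_mem _ (h a ha)

/-- The sub-objects are stable under the components of the operators. -/
theorem SubObj.stab {U : Submodule W.K (W.H X)} (h : SubObj C X U) (ν : ℂ →ₗ[W.K] W.K) :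
    ∀ u ∈ U, zz hrat δ C hs X ν u ∈ U := by
  obtain ⟨h1, U', h2⟩ := h
  intro u hu
  have h3 : (show ℂ ⊗[W.K] W.H X from em W ℂ u) ∈ U.baseChange ℂ :=
    Submodule.tmul_mem_baseChange_of_mem _ hu
  have h4 : (show ℂ ⊗[D.K] D.H X from dX (dD δ) X (C.e X (em W ℂ u))) ∈ U'.baseChange ℂ :=
    rTensor_mem _ ((h2 _).1 h3)
  rw [dX_cmp hrat δ hs] at h4
  have h5 := (h2 _).2 h4
  have h6 := dg_base (dg_of_graded h1) h3
  have h7 : zz hrat δ C hs X ν u = cmp (k := W.K) (L := ℂ) (W := W.H X) ν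
      (show ℂ ⊗[W.K] W.H X from Dn hrat δ C hs X (em W ℂ u)) := rfl
  rw [h7]
  refine cmp_mem ?_ ν
  have h8 : (show ℂ ⊗[W.K] W.H X from Dn hrat δ C hs X (em W ℂ u)) =
      (show ℂ ⊗[W.K] W.H X from Dd hrat δ C hs X (em W ℂ u)) -
        (lc δ C / 2 : ℂ) • (show ℂ ⊗[W.K] W.H X from dg (baseW W ℂ) X (em W ℂ u)) := by
    have h9 := Dd_eq hrat δ hs X (em W ℂ u)
    exact (sub_eq_of_eq_add h9).symm
  rw [h8]
  exact Submodule.sub_mem _ h5 (Submodule.smul_mem _ _ h6)

/-- The comparison isomorphism as a linear isomorphism. -/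
noncomputable def CL (C : Comparison (baseW W ℂ) (baseW D ℂ))
    (hs : ∀ z : ℂ, (show ℂ from C.s z) = z) (X : 𝒱.Obj) :
    (ℂ ⊗[W.K] W.H X) ≃ₗ[ℂ] (ℂ ⊗[D.K] D.H X) where
  toFun x := C.e X x
  map_add' := map_add (C.e X)
  map_smul' r x := by
    have h1 := C.semi X (show (baseW W ℂ).K from r) (show (baseW W ℂ).H X from x)
    have h3 : (show ℂ from C.s (show (baseW W ℂ).K from r)) = r := hs r
    exact h1.trans (congrArg (fun z : ℂ => z • (show ℂ ⊗[D.K] D.H X from C.e X x)) h3)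
  invFun x := (C.e X).symm x
  left_inv := (C.e X).symm_apply_apply
  right_inv := (C.e X).apply_symm_apply

theorem CL_apply (x : ℂ ⊗[W.K] W.H X) : CL C hs X x = C.e X x := rfl

/-- **The stable subspaces are sub-objects.** -/
theorem subObj_of_stab [IsAlgClosed D.K] {U : Submodule W.K (W.H X)}
    (h1 : ∀ (δ : Derivation D.K ℂ ℂ) (ν : ℂ →ₗ[W.K] W.K), ∀ u ∈ U, zz hrat δ C hs X ν u ∈ U)
    (h2 : ∀ u ∈ U, dg W X u ∈ U) : SubObj C X U := by
  refine ⟨graded_of_dg h2, ?_⟩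
  -- the extension is stable
  have h3 : ∀ (δ : Derivation D.K ℂ ℂ), ∀ x : ℂ ⊗[W.K] W.H X, x ∈ U.baseChange ℂ →
      (show ℂ ⊗[W.K] W.H X from Dd hrat δ C hs X x) ∈ U.baseChange ℂ := by
    intro δ x hx
    refine base_induction (P := fun x => (show ℂ ⊗[W.K] W.H X from Dd hrat δ C hs X x) ∈
      U.baseChange ℂ) ?_ ?_ ?_ hx
    · exact (map_zero (Dd hrat δ C hs X)).symm ▸ Submodule.zero_mem _
    · intro a b ha hb
      exact (map_add (Dd hrat δ C hs X) a b).symm ▸ Submodule.add_mem _ ha hb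
    · intro l a ha
      have h4 : (l ⊗ₜ[W.K] a : ℂ ⊗[W.K] W.H X) =
          (show ℂ ⊗[W.K] W.H X from (show (baseW W ℂ).K from l) • em W ℂ a) := by
        change _ = l • ((1 : ℂ) ⊗ₜ[W.K] a)
        rw [TensorProduct.smul_tmul', smul_eq_mul, mul_one]
      rw [h4]
      have h5 : Dd hrat δ C hs X ((show (baseW W ℂ).K from l) • em W ℂ a) =
          (show (baseW W ℂ).K from l) • Dd hrat δ C hs X (em W ℂ a) := map_smul _ _ _
      rw [h5]
      have h6 : (show ℂ ⊗[W.K] W.H X from Dd hrat δ C hs X (em W ℂ a)) ∈ U.baseChange ℂ := by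
        have h7 : (show ℂ ⊗[W.K] W.H X from Dd hrat δ C hs X (em W ℂ a)) =
            (show ℂ ⊗[W.K] W.H X from Dn hrat δ C hs X (em W ℂ a)) +
              (lc δ C / 2 : ℂ) • (show ℂ ⊗[W.K] W.H X from dg (baseW W ℂ) X (em W ℂ a)) :=
          Dd_eq hrat δ hs X (em W ℂ a)
        rw [h7]
        refine Submodule.add_mem _ (Pool.Agent.Q50.MTC.mem_baseChange_of_cC fun ν => h1 δ ν a ha)
          (Submodule.smul_mem _ _ (dg_base h2 (Submodule.tmul_mem_baseChange_of_mem _ ha)))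
      exact Submodule.smul_mem _ l h6
  have h5 : ∀ (δ : Derivation D.K ℂ ℂ) (x : (baseW W ℂ).H X),
      C.e X (Dd hrat δ C hs X x + dX (dW hrat δ) X x) = dX (dD δ) X (C.e X x) := by
    intro δ x
    rw [Dd_apply, sub_add_cancel, (C.e X).apply_symm_apply]
  obtain ⟨U', hU'⟩ := descent (F := D.K) (L := ℂ) (V := D.H X)
    ((U.baseChange ℂ).map (CL C hs X).toLinearMap) (by
      rintro δ _ ⟨x, hx, rfl⟩
      have h4 : (show ℂ ⊗[W.K] W.H X from Dd hrat δ C hs X x + dX (dW hrat δ) X x) ∈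
          U.baseChange ℂ := Submodule.add_mem _ (h3 δ x hx) (rTensor_mem _ hx)
      exact ⟨_, h4, h5 δ x⟩)
  refine ⟨U', fun x => ?_⟩
  rw [← hU']
  constructor
  · intro hx
    exact ⟨x, hx, rfl⟩
  · rintro ⟨y, hy, h⟩
    have h4 : y = x := (CL C hs X).injective h
    rwa [← h4]

/-- The family of the components. -/
noncomputable def fam (C : Comparison (baseW W ℂ) (baseW D ℂ))
    (hs : ∀ z : ℂ, (show ℂ from C.s z) = z) (X : 𝒱.Obj) :
    Derivation D.K ℂ ℂ × (ℂ →ₗ[W.K] W.K) → Module.End W.K (W.H X) :=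
  fun p => zz hrat p.1 C hs X p.2

theorem fam_skew (p : Derivation D.K ℂ ℂ × (ℂ →ₗ[W.K] W.K)) :
    IsSkew (prg W X) (fam hrat C hs X p) := zz_skew hrat p.1 C hs p.2

theorem Dn_dg (x : (baseW W ℂ).H X) : Dn hrat δ C hs X (dg (baseW W ℂ) X x) =
    dg (baseW W ℂ) X (Dn hrat δ C hs X x) := by
  refine dg_ind (p := fun x => Dn hrat δ C hs X (dg (baseW W ℂ) X x) =
    dg (baseW W ℂ) X (Dn hrat δ C hs X x)) ?_ ?_ x
  · intro i x hx
    rw [dg_of hx, map_smul, dg_of (Dn_gr hrat δ C hs hx)]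
  · intro a b ha hb
    rw [map_add, map_add, ha, hb, map_add, map_add]

theorem zz_dg (ν : ℂ →ₗ[W.K] W.K) : zz hrat δ C hs X ν * dg W X = dg W X * zz hrat δ C hs X ν := by
  refine LinearMap.ext fun x => ?_
  rw [Module.End.mul_apply, Module.End.mul_apply]
  have h0 : ∀ x, zz hrat δ C hs X ν x = cC ν (Dn hrat δ C hs X (em W ℂ x)) := fun x => rfl
  rw [h0, h0, em_dg, Dn_dg, cC_dg]

theorem fam_dn (p : Derivation D.K ℂ ℂ × (ℂ →ₗ[W.K] W.K)) :
    fam hrat C hs X p * dn W X = dn W X * fam hrat C hs X p := by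
  rw [dn, mul_sub, sub_mul, fam, zz_dg, mul_smul_comm, smul_mul_assoc, mul_one, one_mul]

/-- The de Rham-Betti Lie algebra, extended by the degree operator. -/
noncomputable def gdp (C : Comparison (baseW W ℂ) (baseW D ℂ))
    (hs : ∀ z : ℂ, (show ℂ from C.s z) = z) (X : 𝒱.Obj) :
    Submodule W.K (Module.End W.K (W.H X)) := kilp (fam hrat C hs X) (dn W X)

/-- **Semisimplicity.** -/
theorem gdp_semi [IsAlgClosed D.K] (hss : ∀ U : Submodule W.K (W.H X), SubObj C X U →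
    ∃ U', SubObj C X U' ∧ IsCompl U U') : Semi (gdp hrat C hs X) := by
  intro U hU
  have hd : ∀ u ∈ U, dg W X u ∈ U := by
    intro u hu
    have h1 := hU _ N_kilp u hu
    have h2 : dg W X u = dn W X u + (X.dim : W.K) • u := by
      rw [dn, LinearMap.sub_apply, LinearMap.smul_apply, Module.End.one_apply, sub_add_cancel]
    rw [h2]
    exact U.add_mem h1 (U.smul_mem _ hu)
  have hU' := subObj_of_stab hrat hs (fun δ ν u hu => hU _ (kil_le (y_kil (δ, ν))) u hu) hd
  obtain ⟨U', h1, h2⟩ := hss U hU'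
  refine ⟨U', ?_, h2⟩
  have h3 : ∀ u ∈ U', dn W X u ∈ U' := by
    intro u hu
    rw [dn, LinearMap.sub_apply]
    exact U'.sub_mem (dg_of_graded h1.1 u hu) (U'.smul_mem _ hu)
  let P : Module.End W.K (W.H X) := U'.projection U h2.symm
  have hP1 : ∀ p, fam hrat C hs X p * P = P * fam hrat C hs X p := by
    intro p
    refine LinearMap.ext fun x => ?_
    exact proj_comm h2.symm (fun u hu => h1.stab hrat p.1 hs p.2 u hu)
      (fun u hu => hU _ (kil_le (y_kil p)) u hu) x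
  have hP2 : dn W X * P = P * dn W X := by
    refine LinearMap.ext fun x => ?_
    exact proj_comm h2.symm h3 (fun u hu => hU _ N_kilp u hu) x
  intro Z hZ u hu
  have h4 : P u = u := Submodule.projection_apply_of_mem_left h2.symm hu
  have h5 : Z u = P (Z u) := by
    conv_lhs => rw [← h4]
    exact LinearMap.congr_fun (comm_kilp prg_nondeg (fam_skew hrat hs) hP1 hP2 hZ) u
  rw [h5]
  change U'.projection U h2.symm (Z u) ∈ U'
  rw [Submodule.projection_apply]
  exact SetLike.coe_mem _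

section two

variable (hss : ∀ U : Submodule W.K (W.H X), SubObj C X U →
    ∃ U', SubObj C X U' ∧ IsCompl U U')
  (h4 : ∀ c, MTC.IsHodge T (pw X 3) (2 * X.dim) c → Drb C (pw X 3) (2 * X.dim) c)
  (h4' : ∀ c ∈ W.gr (pw X 3) (2 * (2 * X.dim)), Drb C (pw X 3) (2 * X.dim) c →
    MTC.IsHodge T (pw X 3) (2 * X.dim) c)

include h4' in
theorem yy_kills4 [IsAlgClosed D.K] (ν : ℂ →ₗ[W.K] W.K)
    {φ : MultilinearMap W.K (fun _ : Fin 4 => W.H X) W.K}
    (h : ∀ Z ∈ gdp hrat C hs X, Kills Z φ) : Kills (yy T X ν) φ := by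
  obtain ⟨c, rfl⟩ := frm_surjective (n := 3) φ
  have h1 : c ∈ W.gr (pw X 3) (2 * (2 * X.dim)) := by
    refine (frm_dg_iff (M := 2 * X.dim) (j := 2 * X.dim) (by rw [dim_pw]; ring)).1 fun v => ?_
    have h2 := h _ N_kilp v
    rw [dn, sum_sub_smul, sum_one, Fintype.card_fin] at h2
    push_cast at h2 ⊢
    linear_combination h2
  exact yy_kills ν (h4' c h1 (drb_of_kills hrat hs h1 fun δ ν =>
    h _ (kil_le (y_kil (y := fam hrat C hs X) (δ, ν))))).2

include h4' in
theorem yy_comm' [IsAlgClosed D.K] (ν : ℂ →ₗ[W.K] W.K) {P : Module.End W.K (W.H X)}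
    (hP : ∀ Z ∈ gdp hrat C hs X, Z * P = P * Z) : yy T X ν * P = P * yy T X ν := by
  rcases exists_prg W X with ⟨a, b, hab⟩ | h
  · refine comm_of_kills_comp prg_nondeg (yy_skew ν) ?_
    rw [kills_two]
    refine skew_of_mulF (yy_kills4 hrat hs h4' ν fun Z hZ => kills_mulF ?_ ?_) (yy_skew ν) hab
    · have h1 := kills_comp_of_comm (kilp_skew (fam_skew hrat hs) dn_skew hZ) (hP Z hZ)
      rw [kills_two] at h1
      exact h1
    · exact kilp_skew (fam_skew hrat hs) dn_skew hZ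
  · exact LinearMap.ext fun x => Subsingleton.elim _ _

include hss h4 h4' in
/-- **The decomposition of the components of the Hodge operator.** -/
theorem yy_decomp [IsAlgClosed D.K] (ν : ℂ →ₗ[W.K] W.K) :
    ∃ s ∈ kil (fam hrat C hs X), InCentre T X (yy T X ν - s) := by
  have hbr : ∀ A ∈ gdp hrat C hs X, ∀ B ∈ gdp hrat C hs X, A * B - B * A ∈ gdp hrat C hs X :=
    kilp_br prg_nondeg (fam_skew hrat hs) (fam_dn hrat hs)
  have hsemi := gdp_semi hrat hs hss
  obtain ⟨s, hs', hcen⟩ := decomp (gdp hrat C hs X) hsemi hbr (prg W X) prg_nondeg (yy_skew ν) (by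
    let e : Fin 2 × Fin 2 ≃ Fin 4 := finProdFinEquiv
    refine (kills_reindex e).1 (yy_kills4 hrat hs h4' ν fun Z hZ => ?_)
    refine (kills_reindex e).2 ?_
    exact Pool.Agent.W516.KC2.casimir_kills _ _ _
      (kilp_skew (fam_skew hrat hs) dn_skew hZ) fun A hA =>
        der_ideal (gdp hrat C hs X) hbr hZ hA) (fun P hP => yy_comm' hrat hs h4' ν hP)
  have hsm : s ∈ kil (fam hrat C hs X) :=
    der_le_kil prg_nondeg (fam_skew hrat hs) (fam_dn hrat hs) hs'
  refine ⟨s, hsm, ⟨respHodge_iff.2 ⟨(hcen.1 _ N_kilp).symm, fun μ =>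
    yy_comm' hrat hs h4' μ hcen.1⟩, fun P hP a => ?_⟩, fun n j z hz => actsBy_zero ?_⟩
  · obtain ⟨h1, h2⟩ := respHodge_iff.1 hP
    have h3 : ∀ Z ∈ mtp T X, Z * P = P * Z := by
      intro Z hZ
      obtain ⟨A, hA, r, rfl⟩ := mem_mtp.1 hZ
      rw [add_mul, mul_add, mt_comm h2 hA, smul_mul_assoc, mul_smul_comm, h1]
    have h5 : ∀ Z ∈ gdp hrat C hs X, Z * P = P * Z := fun Z hZ =>
      comm_kilp prg_nondeg (fam_skew hrat hs)
        (fun p => zz_comm (T := T) hrat p.1 hs h4 p.2 h3) h1.symm hZ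
    exact LinearMap.congr_fun (hcen.2 P h5) a
  · have h1 : Kills (yy T X ν) (frm W X n (W.cl _ z)) := yy_kills ν (hh_cl (T := T) hz)
    have h3 : Kills s (frm W X n (W.cl _ z)) := hsm n _ fun p =>
      zz_kills_drb hrat p.1 hs p.2 (W.cl_mem hz) (drb_cl hz)
    intro v
    have h4 : ∀ i, frm W X n (W.cl _ z) (Function.update v i ((yy T X ν - s) (v i))) =
        frm W X n (W.cl _ z) (Function.update v i (yy T X ν (v i))) -
          frm W X n (W.cl _ z) (Function.update v i (s (v i))) := by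
      intro i
      rw [LinearMap.sub_apply, MultilinearMap.map_update_sub]
    rw [Finset.sum_congr rfl fun i _ => h4 i, Finset.sum_sub_distrib, h1 v, h3 v, sub_zero]

include hrat hs hss h4 h4' in
/-- **The de Rham-Betti classes which are killed by the centre are Hodge classes.** -/
theorem hodge_of_drb [IsAlgClosed D.K] {n j : ℕ} {c : W.H (pw X n)}
    (hc : c ∈ W.gr (pw X n) (2 * j)) (hd : Drb C (pw X n) j c)
    (hz : ∀ Z : W.H X →ₗ[W.K] W.H X, InCentre T X Z → ActsBy W X Z n c 0) :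
    MTC.IsHodge T (pw X n) j c := by
  refine ⟨hc, hh_of_kills fun ν => ?_⟩
  obtain ⟨s, hs', hcen⟩ := yy_decomp hrat hs hss h4 h4' ν
  exact kills_sub_add (hs' n _ fun p => zz_kills_drb hrat p.1 hs p.2 hc hd)
    (kills_of_actsBy (hz _ hcen))

end two

end Pool.Agent.Q50.DR
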