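import Pool.Agent.Q50.DR.Rel

/-!
# The endomorphisms of the cohomology of the square
-/

open CategoryTheory AlgebraicGeometry TensorProduct

universe u

set_option linter.unusedSectionVars false

namespace Pool.Agent.Q50.DR

open Module Pool.Agent.H204R3.SP Pool.Agent.W516.DR
open Pool.Agent.H914 Pool.Agent.H914.VarClass Pool.Agent.H914.VarClass.Obj
  Pool.Agent.H914.WeilCohomology
open Pool.Agent.Y133.Half Pool.Agent.Y121.AH Pool.Agent.Q50.FP Pool.Agent.W516.KC
open Pool.Agent.Q50.MTC (HodgeDecomposition mt mtp mtp_semi mtp_br mtp_skew mem_mtp dn_mtp mt_le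
  hodge_of_mtp kills_of_comm yy yy_apply yy_kills yy_mt mt_comm mt_dn mt_br hh hC hh_cl hh_of_kills
  yy_skew yy_dn em_dg cC_dg)

section four

variable {K V U : Type*} [Field K] [AddCommGroup V] [Module K V] [AddCommGroup U] [Module K U]

theorem u0 (a b x : V) : Function.update ![a, b] 0 x = ![x, b] := by
  funext i
  fin_cases i <;> rfl

theorem u1 (a b x : V) : Function.update ![a, b] 1 x = ![a, x] := by
  funext i
  fin_cases i <;> rfl

theorem m_add0 (m : MultilinearMap K (fun _ : Fin 2 => V) U) (a a' b : V) :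
    m ![a + a', b] = m ![a, b] + m ![a', b] := by
  have h := m.map_update_add ![a, b] 0 a a'
  rwa [u0, u0, u0] at h

theorem m_add1 (m : MultilinearMap K (fun _ : Fin 2 => V) U) (a b b' : V) :
    m ![a, b + b'] = m ![a, b] + m ![a, b'] := by
  have h := m.map_update_add ![a, b] 1 b b'
  rwa [u1, u1, u1] at h

theorem m_smul0 (m : MultilinearMap K (fun _ : Fin 2 => V) U) (r : K) (a b : V) :
    m ![r • a, b] = r • m ![a, b] := by
  have h := m.map_update_smul ![a, b] 0 r a
  rwa [u0, u0] at h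

theorem m_smul1 (m : MultilinearMap K (fun _ : Fin 2 => V) U) (r : K) (a b : V) :
    m ![a, r • b] = r • m ![a, b] := by
  have h := m.map_update_smul ![a, b] 1 r b
  rwa [u1, u1] at h

/-- The form in four variables given by a bilinear form on `U`. -/
def four (β : U →ₗ[K] U →ₗ[K] K) (m : MultilinearMap K (fun _ : Fin 2 => V) U) :
    MultilinearMap K (fun _ : Fin 4 => V) K where
  toFun v := β (m ![v 0, v 1]) (m ![v 2, v 3])
  map_update_add' := by
    intro hd v i x y
    have : hd = instDecidableEqFin 4 := Subsingleton.elim _ _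
    subst this
    fin_cases i <;> simp [m_add0, m_add1]
  map_update_smul' := by
    intro hd v i c x
    have : hd = instDecidableEqFin 4 := Subsingleton.elim _ _
    subst this
    fin_cases i <;> simp [m_smul0, m_smul1]

theorem four_apply (β : U →ₗ[K] U →ₗ[K] K) (m : MultilinearMap K (fun _ : Fin 2 => V) U)
    (v : Fin 4 → V) : four β m v = β (m ![v 0, v 1]) (m ![v 2, v 3]) := rfl

theorem sum_four (β : U →ₗ[K] U →ₗ[K] K) (m : MultilinearMap K (fun _ : Fin 2 => V) U)
    {Z : Module.End K V} {Z' : Module.End K U}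
    (h : ∀ a b, Z' (m ![a, b]) = m ![Z a, b] + m ![a, Z b]) (v : Fin 4 → V) :
    ∑ i, four β m (Function.update v i (Z (v i))) =
      β (Z' (m ![v 0, v 1])) (m ![v 2, v 3]) + β (m ![v 0, v 1]) (Z' (m ![v 2, v 3])) := by
  rw [Fin.sum_univ_four]
  simp only [four_apply]
  rw [h, h]
  simp
  ring

/-- The form given by an endomorphism. -/
theorem kills_four {β : U →ₗ[K] U →ₗ[K] K} (hnd : ∀ u, (∀ v, β u v = 0) → u = 0)
    {m : MultilinearMap K (fun _ : Fin 2 => V) U}
    (hm : ∀ f g : U →ₗ[K] U, (∀ a b, f (m ![a, b]) = g (m ![a, b])) → f = g)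
    (hm' : ∀ f g : U →ₗ[K] K, (∀ a b, f (m ![a, b]) = g (m ![a, b])) → f = g)
    {Z : Module.End K V} {Z' : Module.End K U}
    (h : ∀ a b, Z' (m ![a, b]) = m ![Z a, b] + m ![a, Z b]) (hZ : IsSkew β Z')
    (P : Module.End K U) : Kills Z (four (β.comp P) m) ↔ Z' * P = P * Z' := by
  constructor
  · intro h1
    refine hm _ _ fun a b => ?_
    rw [← sub_eq_zero]
    apply hnd
    intro y
    have h2 : (β (Z' (P (m ![a, b])) - P (Z' (m ![a, b])))) = 0 := by
      refine hm' _ _ fun c d => ?_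
      have h3 := h1 ![a, b, c, d]
      rw [sum_four (β.comp P) m h] at h3
      change β (P (Z' (m ![a, b]))) (m ![c, d]) + β (P (m ![a, b])) (Z' (m ![c, d])) = 0 at h3
      have h4 := hZ (P (m ![a, b])) (m ![c, d])
      rw [map_sub, LinearMap.sub_apply, LinearMap.zero_apply]
      linear_combination h4 - h3
    exact LinearMap.congr_fun h2 y
  · intro h1 v
    rw [sum_four (β.comp P) m h]
    have h2 : P (Z' (m ![v 0, v 1])) = Z' (P (m ![v 0, v 1])) := (LinearMap.congr_fun h1 _).symm
    rw [LinearMap.comp_apply, LinearMap.comp_apply, h2]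
    exact hZ _ _

end four

variable {k : Type u} [Field k] {𝒱 : VarClass k} {ops : CycleOps 𝒱}
  {W D : WeilCohomology.{u, 0} ops} [Algebra W.K ℂ] [Algebra D.K ℂ] {T : HodgeDecomposition W}
  {X Y : 𝒱.Obj} {n : ℕ}

theorem update_em (v : Fin (n + 1) → W.H X) (i : Fin (n + 1)) (x : W.H X) :
    Function.update (fun j => em W ℂ (v j)) i (em W ℂ x) =
      fun j => em W ℂ (Function.update v i x j) := by
  funext j
  by_cases hj : j = i
  · subst hj
    rw [Function.update_self, Function.update_self]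
  · rw [Function.update_of_ne hj, Function.update_of_ne hj]

theorem cC_mpr (ν : ℂ →ₗ[W.K] W.K) (v : Fin (n + 1) → W.H X) (i : Fin (n + 1))
    (z : (baseW W ℂ).H X) :
    cC ν (mpr (baseW W ℂ) X n (Function.update (fun j => em W ℂ (v j)) i z)) =
      mpr W X n (Function.update v i (cC ν z)) := by
  refine base_ind (p := fun z => cC ν (mpr (baseW W ℂ) X n
    (Function.update (fun j => em W ℂ (v j)) i z)) =
      mpr W X n (Function.update v i (cC ν z))) ?_ ?_ z
  · intro l x
    rw [MultilinearMap.map_update_smul, update_em, base_mpr, cC_smul_em, cC_smul_em,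
      MultilinearMap.map_update_smul]
  · intro a b ha hb
    rw [MultilinearMap.map_update_add, cC_add, ha, hb, cC_add, MultilinearMap.map_update_add]

theorem cC_zero (ν : ℂ →ₗ[W.K] W.K) : cC ν (0 : (baseW W ℂ).H X) = 0 :=
  map_zero (cmp (k := W.K) (L := ℂ) (W := W.H X) ν)

theorem cC_sum (ν : ℂ →ₗ[W.K] W.K) {ι : Type} (s : Finset ι) (f : ι → (baseW W ℂ).H X) :
    cC ν (∑ i ∈ s, f i) = ∑ i ∈ s, cC ν (f i) := by
  classical
  induction s using Finset.induction_on with
  | empty => rw [Finset.sum_empty, Finset.sum_empty, cC_zero]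
  | insert i s hi ih => rw [Finset.sum_insert hi, Finset.sum_insert hi, cC_add, ih]

variable {A : ∀ Y : 𝒱.Obj, Module.End (baseW W ℂ).K ((baseW W ℂ).H Y)} {t : (baseW W ℂ).K}

/-- The components of a derivation on the powers. -/
theorem cE_mpr (hA : Drv (baseW W ℂ) A t) (ν : ℂ →ₗ[W.K] W.K) (v : Fin (n + 1) → W.H X) :
    cE ν (A (pw X n)) (mpr W X n v) =
      ∑ i, mpr W X n (Function.update v i (cE ν (A X) (v i))) := by
  rw [cE_apply, ← base_mpr, hA.mpr, cC_sum]
  refine Finset.sum_congr rfl fun i _ => ?_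
  rw [cC_mpr, cE_apply]

theorem cE_mpr2 (hA : Drv (baseW W ℂ) A t) (ν : ℂ →ₗ[W.K] W.K) (a b : W.H X) :
    cE ν (A (pw X 1)) (mpr W X 1 ![a, b]) =
      mpr W X 1 ![cE ν (A X) a, b] + mpr W X 1 ![a, cE ν (A X) b] := by
  rw [cE_mpr hA, Fin.sum_univ_two, u0, u1]
  rfl

theorem cE_map (hA : Drv (baseW W ℂ) A t) (ν : ℂ →ₗ[W.K] W.K) (f : X ⟶ Y) (y : W.H Y) :
    cE ν (A X) (W.map f y) = W.map f (cE ν (A Y) y) := by
  have h1 : ∀ z : (baseW W ℂ).H Y, cC ν ((baseW W ℂ).map f z) = W.map f (cC ν z) := by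
    intro z
    refine base_ind (p := fun z => cC ν ((baseW W ℂ).map f z) = W.map f (cC ν z)) ?_ ?_ z
    · intro l x
      rw [map_smul, em_map, cC_smul_em, cC_smul_em, map_smul]
    · intro a b ha hb
      rw [map_add, cC_add, ha, hb, cC_add, map_add]
  rw [cE_apply, ← em_map, hA.map, h1, cE_apply]

theorem dg_mpr2 (a b : W.H X) : dg W (pw X 1) (mpr W X 1 ![a, b]) =
    mpr W X 1 ![dg W X a, b] + mpr W X 1 ![a, dg W X b] := by
  rw [dg_drv.mpr, Fin.sum_univ_two, u0, u1]
  rfl

theorem dn_mpr2 (a b : W.H X) : dn W (pw X 1) (mpr W X 1 ![a, b]) =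
    mpr W X 1 ![dn W X a, b] + mpr W X 1 ![a, dn W X b] := by
  have h1 : dn W (pw X 1) (mpr W X 1 ![a, b]) = dg W (pw X 1) (mpr W X 1 ![a, b]) -
    ((pw X 1).dim : W.K) • mpr W X 1 ![a, b] := rfl
  have h2 : ∀ a : W.H X, dn W X a = dg W X a + (-(X.dim : W.K)) • a := fun a => by
    rw [neg_smul, ← sub_eq_add_neg]
    rfl
  rw [h1, dg_mpr2, h2, h2, m_add0, m_add1, m_smul0, m_smul1, dim_pw]
  push_cast
  rw [neg_smul]
  have h3 : ((2 : W.K) * X.dim) • mpr W X 1 ![a, b] =
      (X.dim : W.K) • mpr W X 1 ![a, b] + (X.dim : W.K) • mpr W X 1 ![a, b] := by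
    rw [← add_smul]
    congr 1
    ring
  rw [h3]
  abel

theorem hm_mpr {M : Type*} [AddCommGroup M] [Module W.K M] (f g : W.H (pw X 1) →ₗ[W.K] M)
    (h : ∀ a b, f (mpr W X 1 ![a, b]) = g (mpr W X 1 ![a, b])) : f = g := by
  let e := Module.finBasis W.K (W.H X)
  refine (wb e 1).ext fun w => ?_
  rw [← mpr_wb]
  have h1 : (fun i => e (w i)) = ![e (w 0), e (w 1)] := by
    funext i
    fin_cases i <;> rfl
  rw [h1]
  exact h _ _

/-- The endomorphism of the cohomology of the square attached to a form in four variables. -/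
theorem exists_end4 (φ : MultilinearMap W.K (fun _ : Fin 4 => W.H X) W.K) :
    ∃ P : Module.End W.K (W.H (pw X 1)), φ = four ((prg W (pw X 1)).comp P) (mpr W X 1) := by
  let e := Module.finBasis W.K (W.H X)
  let β : W.H (pw X 1) →ₗ[W.K] W.H (pw X 1) →ₗ[W.K] W.K :=
    (wb e 1).constr W.K fun w => (wb e 1).constr W.K fun w' =>
      φ ![e (w 0), e (w 1), e (w' 0), e (w' 1)]
  choose f hf using fun a => exists_dual_class W (pw X 1) (β a)
  have huniq : ∀ a b : W.H (pw X 1), (∀ x, W.tr (pw X 1) (a * x) = W.tr (pw X 1) (b * x)) →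
      a = b := by
    intro a b h
    rw [← sub_eq_zero]
    apply W.nondeg
    intro x
    rw [sub_mul, map_sub, h, sub_self]
  let P : Module.End W.K (W.H (pw X 1)) :=
    { toFun := f
      map_add' := fun a b => by
        apply huniq
        intro x
        rw [hf, add_mul, map_add, map_add, hf, hf]
        rfl
      map_smul' := fun r a => by
        apply huniq
        intro x
        rw [hf, RingHom.id_apply, smul_mul_assoc, map_smul, map_smul, hf]
        rfl }
  have hP : (prg W (pw X 1)).comp P = β := by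
    refine LinearMap.ext fun a => LinearMap.ext fun b => ?_
    exact hf a b
  refine ⟨P, ?_⟩
  rw [hP]
  refine Basis.ext_multilinear (fun _ => e) fun w => ?_
  rw [four_apply]
  have h1 : ∀ a b, mpr W X 1 ![e a, e b] = wb e 1 ![a, b] := by
    intro a b
    rw [← mpr_wb]
    congr 1
    funext i
    fin_cases i <;> rfl
  rw [h1, h1]
  change _ = β (wb e 1 ![w 0, w 1]) (wb e 1 ![w 2, w 3])
  rw [Basis.constr_basis, Basis.constr_basis]
  congr 1
  funext i
  fin_cases i <;> rfl

end Pool.Agent.Q50.DR
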