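import Pool.Agent.Q50.DR.Sqr

/-!
# The dimension of the space of the periods of the square
-/

open CategoryTheory AlgebraicGeometry TensorProduct

universe u

set_option linter.unusedSectionVars false

namespace Pool.Agent.Q50.DR

open Module Pool.Agent.H204R3.SP Pool.Agent.W516.DR
open Pool.Agent.H914 Pool.Agent.H914.VarClass Pool.Agent.H914.VarClass.Obj
  Pool.Agent.H914.WeilCohomology
open Pool.Agent.Y133.Half Pool.Agent.Y121.AH Pool.Agent.Q50.FP Pool.Agent.W516.KC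
open Pool.Agent.Q50.MTC (HodgeDecomposition mt mtp mtp_semi mtp_br mtp_skew mem_mtp dn_mtp mt_le
  hodge_of_mtp kills_of_comm yy yy_apply yy_kills yy_mt mt_comm mt_dn mt_br hh hC hh_cl hh_of_kills
  yy_skew yy_dn em_dg cC_dg hh_drv exists_complement)

section lin

variable {F V' : Type} [Field F] [AddCommGroup V'] [Module F V'] [FiniteDimensional F V']
  [Algebra F ℂ]

theorem xf_comp (f : V' →ₗ[F] F) (P : V' →ₗ[F] V') (x : ℂ ⊗[F] V') :
    xf (f.comp P) x = xf f (P.baseChange ℂ x) := by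
  induction x with
  | zero => simp only [map_zero]
  | add a b ha hb => simp only [map_add, ha, hb]
  | tmul l v => rw [LinearMap.baseChange_tmul, xf_tmul, xf_tmul, LinearMap.comp_apply]

theorem repr_eq_xf {ι : Type} (b : Basis ι F V') (x : ℂ ⊗[F] V') (i : ι) :
    (b.baseChange ℂ).repr x i = xf (b.coord i) x := by
  induction x with
  | zero => rw [map_zero, map_zero, Finsupp.zero_apply]
  | add a b' ha hb => rw [map_add, map_add, Finsupp.add_apply, ha, hb]
  | tmul l v =>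
    rw [xf_tmul, Basis.baseChange_repr_tmul, Basis.coord_apply, Algebra.smul_def]

/-- A vector killed by all linear forms is zero. -/
theorem eq_zero_of_xf {x : ℂ ⊗[F] V'} (h : ∀ f : V' →ₗ[F] F, xf f x = 0) : x = 0 := by
  let b := Module.finBasis F V'
  apply (b.baseChange ℂ).ext_elem
  intro i
  rw [map_zero, Finsupp.zero_apply, repr_eq_xf, h]

/-- A vector killed by all linear forms which vanish on `U` is in the extension of `U`. -/
theorem mem_of_xf {U : Submodule F V'} {x : ℂ ⊗[F] V'}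
    (h : ∀ f : V' →ₗ[F] F, (∀ u ∈ U, f u = 0) → xf f x = 0) : x ∈ U.baseChange ℂ := by
  obtain ⟨W, hW⟩ := Submodule.exists_isCompl U
  let P : V' →ₗ[F] V' := W.projection U hW.symm
  have hP0 : ∀ u ∈ U, P u = 0 := fun u hu => (Submodule.projection_apply_eq_zero_iff hW.symm).2 hu
  have hP1 : ∀ v, v - P v ∈ U := by
    intro v
    have h1 : P (v - P v) = 0 := by
      rw [map_sub, Submodule.projection_apply_of_mem_left hW.symm (x := P v) ?_, sub_self]
      change W.projection U hW.symm v ∈ W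
      rw [Submodule.projection_apply]
      exact SetLike.coe_mem _
    exact (Submodule.projection_apply_eq_zero_iff hW.symm).1 h1
  have hP3 : ∀ x : ℂ ⊗[F] V', x - P.baseChange ℂ x ∈ U.baseChange ℂ := by
    intro x
    induction x with
    | zero => rw [map_zero, sub_zero]; exact Submodule.zero_mem _
    | add a b ha hb =>
      rw [map_add]
      have h1 : a + b - (P.baseChange ℂ a + P.baseChange ℂ b) =
        (a - P.baseChange ℂ a) + (b - P.baseChange ℂ b) := by abel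
      rw [h1]
      exact Submodule.add_mem _ ha hb
    | tmul l v =>
      rw [LinearMap.baseChange_tmul, ← TensorProduct.tmul_sub]
      exact Submodule.tmul_mem_baseChange_of_mem _ (hP1 v)
  have h1 : P.baseChange ℂ x = 0 := eq_zero_of_xf fun f => by
    rw [← xf_comp]
    exact h _ fun u hu => by rw [LinearMap.comp_apply, hP0 u hu, map_zero]
  have h2 := hP3 x
  rwa [h1, sub_zero] at h2

/-- The converse. -/
theorem xf_of_mem {U : Submodule F V'} {x : ℂ ⊗[F] V'} (hx : x ∈ U.baseChange ℂ)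
    {f : V' →ₗ[F] F} (hf : ∀ u ∈ U, f u = 0) : xf f x = 0 := by
  rw [Submodule.baseChange_eq_span] at hx
  induction hx using Submodule.span_induction with
  | mem x h =>
    obtain ⟨v, hv, rfl⟩ := h
    rw [TensorProduct.mk_apply, xf_tmul, hf v hv, map_zero, zero_mul]
  | zero => rw [map_zero]
  | add a b _ _ ha hb => rw [map_add, ha, hb, add_zero]
  | smul r a _ ha => rw [map_smul, ha, smul_zero]

/-- The rational vectors in the extension of a subspace. -/
theorem mem_of_tmul {K V : Type} [Field K] [AddCommGroup V] [Module K V]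
    [FiniteDimensional K V] [Algebra K ℂ] {U : Submodule K V} {v : V}
    (h : (1 : ℂ) ⊗ₜ[K] v ∈ U.baseChange ℂ) : v ∈ U := by
  by_contra hcon
  obtain ⟨f, hf, hf'⟩ := Submodule.exists_le_ker_of_notMem hcon
  have h1 := xf_of_mem h (f := f) fun u hu => hf' hu
  rw [xf_tmul, mul_one] at h1
  exact hf ((map_eq_zero (algebraMap K ℂ)).1 h1)

end lin

section geo

variable {k : Type u} [Field k] {𝒱 : VarClass k} {ops : CycleOps 𝒱}
  {W D : WeilCohomology.{u, 0} ops} [Algebra W.K ℂ] [Algebra D.K ℂ] {T : HodgeDecomposition W}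
  {X Y : 𝒱.Obj} {n : ℕ}

variable (hrat : ∀ r : W.K, ∃ q : ℚ, (q : W.K) = r) (δ : Derivation D.K ℂ ℂ)
  {C : Comparison (baseW W ℂ) (baseW D ℂ)} (hs : ∀ z : ℂ, (show ℂ from C.s z) = z)

theorem cC_bc (ν : ℂ →ₗ[W.K] W.K) (P : Module.End W.K (W.H Y)) (x : (baseW W ℂ).H Y) :
    cC ν (bc ℂ P x) = P (cC ν x) := cmp_bc ν P x

theorem ext_cC {x y : (baseW W ℂ).H Y} (h : ∀ ν : ℂ →ₗ[W.K] W.K, cC ν x = cC ν y) : x = y := by
  rw [← sub_eq_zero]
  refine eq_zero_of_cmp (K := W.K) (V := W.H Y) fun ν => ?_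
  have h1 := map_sub (cmp (k := W.K) (L := ℂ) (W := W.H Y) ν) x y
  refine h1.trans ?_
  rw [sub_eq_zero]
  exact h ν

theorem Dn_bc {P : Module.End W.K (W.H Y)}
    (h : ∀ ν, zz hrat δ C hs Y ν * P = P * zz hrat δ C hs Y ν) (x : (baseW W ℂ).H Y) :
    Dn hrat δ C hs Y (bc ℂ P x) = bc ℂ P (Dn hrat δ C hs Y x) := by
  refine base_ind (p := fun x => Dn hrat δ C hs Y (bc ℂ P x) =
    bc ℂ P (Dn hrat δ C hs Y x)) ?_ ?_ x
  · intro l a
    rw [map_smul, map_smul, map_smul, map_smul, bc_em]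
    congr 1
    refine ext_cC fun ν => ?_
    rw [cC_bc]
    exact LinearMap.congr_fun (h ν) a
  · intro a b ha hb
    rw [map_add, map_add, ha, hb, map_add, map_add]

theorem dg_bc {P : Module.End W.K (W.H Y)} (h : dg W Y * P = P * dg W Y)
    (x : (baseW W ℂ).H Y) : dg (baseW W ℂ) Y (bc ℂ P x) = bc ℂ P (dg (baseW W ℂ) Y x) := by
  refine base_ind (p := fun x => dg (baseW W ℂ) Y (bc ℂ P x) =
    bc ℂ P (dg (baseW W ℂ) Y x)) ?_ ?_ x
  · intro l a
    rw [map_smul, map_smul, map_smul, map_smul, bc_em, ← em_dg, ← em_dg, bc_em]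
    congr 2
    exact LinearMap.congr_fun h a
  · intro a b ha hb
    rw [map_add, map_add, ha, hb, map_add, map_add]

theorem Dd_bc {P : Module.End W.K (W.H Y)}
    (h : ∀ ν, zz hrat δ C hs Y ν * P = P * zz hrat δ C hs Y ν) (h' : dg W Y * P = P * dg W Y)
    (x : (baseW W ℂ).H Y) :
    Dd hrat δ C hs Y (bc ℂ P x) = bc ℂ P (Dd hrat δ C hs Y x) := by
  rw [Dd_eq, Dd_eq, Dn_bc hrat δ hs h, dg_bc h', map_add, map_smul]

theorem dX_bc (d : ℂ →ₗ[W.K] ℂ) (P : Module.End W.K (W.H Y)) (x : (baseW W ℂ).H Y) :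
    dX d Y (bc ℂ P x) = bc ℂ P (dX d Y x) := by
  refine base_ind (p := fun x => dX d Y (bc ℂ P x) = bc ℂ P (dX d Y x)) ?_ ?_ x
  · intro l a
    rw [map_smul, bc_em, dX_smul_em, dX_smul_em, map_smul, bc_em]
  · intro a b ha hb
    rw [map_add, dX_add, ha, hb, dX_add, map_add]

theorem cmp_dX (x : (baseW W ℂ).H Y) :
    C.e Y (Dd hrat δ C hs Y x + dX (dW hrat δ) Y x) = dX (dD δ) Y (C.e Y x) := by
  rw [Dd_apply, sub_add_cancel, (C.e Y).apply_symm_apply]

/-- **The endomorphisms which commute with the operators correspond to endomorphisms of the de Rham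
cohomology.** -/
theorem exists_rat_end [IsAlgClosed D.K] {P : Module.End W.K (W.H Y)}
    (h : ∀ (δ : Derivation D.K ℂ ℂ) ν, zz hrat δ C hs Y ν * P = P * zz hrat δ C hs Y ν)
    (h' : dg W Y * P = P * dg W Y) : ∃ P' : D.H Y →ₗ[D.K] D.H Y, ∀ x : ℂ ⊗[W.K] W.H Y,
      CL C hs Y (P.baseChange ℂ x) = P'.baseChange ℂ (CL C hs Y x) := by
  let Q : (ℂ ⊗[D.K] D.H Y) →ₗ[ℂ] (ℂ ⊗[D.K] D.H Y) :=
    (CL C hs Y).toLinearMap ∘ₗ P.baseChange ℂ ∘ₗ (CL C hs Y).symm.toLinearMap
  have h1 : ∀ (δ : Derivation D.K ℂ ℂ) (x : (baseW W ℂ).H Y),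
      dX (dD δ) Y (C.e Y (bc ℂ P x)) =
        C.e Y (bc ℂ P (Dd hrat δ C hs Y x + dX (dW hrat δ) Y x)) := by
    intro δ x
    rw [← cmp_dX hrat δ hs, Dd_bc hrat δ hs (h δ) h', dX_bc, map_add (bc ℂ P)]
  have h2 : ∀ (δ : Derivation D.K ℂ ℂ) (a : D.H Y),
      δ.toLinearMap.rTensor (D.H Y) (Q ((1 : ℂ) ⊗ₜ[D.K] a)) = 0 := by
    intro δ a
    obtain ⟨x, hx⟩ := (CL C hs Y).surjective ((1 : ℂ) ⊗ₜ[D.K] a)
    have h3 : Q ((1 : ℂ) ⊗ₜ[D.K] a) = C.e Y (bc ℂ P (show (baseW W ℂ).H Y from x)) := by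
      rw [← hx]
      change (CL C hs Y) (P.baseChange ℂ ((CL C hs Y).symm (CL C hs Y x))) = _
      rw [LinearEquiv.symm_apply_apply]
      rfl
    rw [h3]
    refine (h1 δ x).trans ?_
    have h4 : Dd hrat δ C hs Y (show (baseW W ℂ).H Y from x) +
        dX (dW hrat δ) Y (show (baseW W ℂ).H Y from x) = 0 := by
      apply (C.e Y).injective
      rw [cmp_dX hrat δ hs, map_zero]
      have h5 : C.e Y (show (baseW W ℂ).H Y from x) = em D ℂ a := hx
      rw [h5]
      exact dX_em _ (dD_mul δ) a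
    rw [h4, map_zero, map_zero]
    rfl
  have h3 : ∀ a : D.H Y, ∃ a' : D.H Y, (1 : ℂ) ⊗ₜ[D.K] a' = Q ((1 : ℂ) ⊗ₜ[D.K] a) :=
    fun a => em_of_const fun δ => h2 δ a
  choose f hf using h3
  let b := Module.finBasis D.K (D.H Y)
  let P' : D.H Y →ₗ[D.K] D.H Y := b.constr D.K fun i => f (b i)
  have h4 : Q = P'.baseChange ℂ := by
    refine (b.baseChange ℂ).ext fun i => ?_
    rw [Basis.baseChange_apply, LinearMap.baseChange_tmul, Basis.constr_basis, hf]
  refine ⟨P', fun x => ?_⟩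
  rw [← h4]
  change _ = (CL C hs Y) (P.baseChange ℂ ((CL C hs Y).symm (CL C hs Y x)))
  rw [LinearEquiv.symm_apply_apply]

end geo

end Pool.Agent.Q50.DR
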